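import Pool.Agent.Y541.Law

/-!
# Gaussian matrices are well conditioned

The proof that Gaussian matrices are almost surely invertible and the bound for the entries of the
inverse follow `Pool.Agent.Helper561.Matvec.Anti` (the complex case); the density of a product
measure is as in `Pool.Agent.Helper954.Hopf.AF`.
-/

set_option autoImplicit false

namespace Pool.Agent.Y541

open Finset Filter MeasureTheory Matrix ProbabilityTheory
open scoped Topology ENNReal Matrix.Norms.L2Operator

/-- the law of the entries of the Gaussian matrices -/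
noncomputable def gs (n : ℕ) : Measure (Fin n × Fin n → ℝ) :=
  Measure.pi fun _ => gaussianReal 0 1

instance (n : ℕ) : IsProbabilityMeasure (gs n) := by
  unfold gs
  infer_instance

theorem lintegral_fin_prod' {n : ℕ} (μ : Fin n → Measure ℝ) [∀ i, SigmaFinite (μ i)]
    (f : Fin n → ℝ → ℝ≥0∞) (hf : ∀ i, Measurable (f i)) :
    ∫⁻ x : Fin n → ℝ, ∏ i, f i (x i) ∂(Measure.pi μ) = ∏ i, ∫⁻ x, f i x ∂(μ i) := by
  induction n with
  | zero => simp
  | succ n n_ih =>
      calc
        _ = ∫⁻ x : ℝ × (Fin n → ℝ),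
            f 0 x.1 * ∏ i : Fin n, f (Fin.succ i) (x.2 i)
            ∂((μ 0).prod (Measure.pi (fun i ↦ μ i.succ))) := by
          rw [← ((measurePreserving_piFinSuccAbove μ 0).symm).lintegral_comp_emb
            (MeasurableEquiv.measurableEmbedding _)]
          simp_rw [MeasurableEquiv.piFinSuccAbove_symm_apply, Fin.insertNthEquiv,
            Fin.prod_univ_succ, Fin.insertNth_zero, Equiv.coe_fn_mk, Fin.cons_succ,
            Fin.zero_succAbove, cast_eq, Fin.cons_zero]
        _ = (∫⁻ x, f 0 x ∂μ 0)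
            * ∏ i : Fin n, ∫⁻ (x : ℝ), f (Fin.succ i) x ∂(μ i.succ) := by
          rw [← n_ih (fun i => μ i.succ) (fun i => f i.succ) (fun i => hf _)]
          exact lintegral_prod_mul (hf 0).aemeasurable (Finset.measurable_prod _ (fun i _ =>
            (hf _).comp (measurable_pi_apply i))).aemeasurable
        _ = ∏ i, ∫⁻ x, f i x ∂(μ i) := by rw [Fin.prod_univ_succ]

theorem lintegral_fintype_prod' {ι : Type*} [Fintype ι] (μ : ι → Measure ℝ)
    [∀ i, SigmaFinite (μ i)] (f : ι → ℝ → ℝ≥0∞) (hf : ∀ i, Measurable (f i)) :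
    ∫⁻ x : ι → ℝ, ∏ i, f i (x i) ∂(Measure.pi μ) = ∏ i, ∫⁻ x, f i x ∂(μ i) := by
  let e := (Fintype.equivFin ι).symm
  rw [← (measurePreserving_piCongrLeft _ e).lintegral_comp_emb
    (MeasurableEquiv.measurableEmbedding _)]
  simp_rw [← e.prod_comp, MeasurableEquiv.coe_piCongrLeft, Equiv.piCongrLeft_apply_apply]
  exact lintegral_fin_prod' (fun i => μ (e i)) (fun i => f (e i)) (fun i => hf _)

theorem gs_ac (n : ℕ) : gs n ≪ (volume : Measure (Fin n × Fin n → ℝ)) := by
  have h0 : gaussianReal 0 1 = (volume : Measure ℝ).withDensity (gaussianPDF 0 1) :=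
    gaussianReal_of_var_ne_zero 0 one_ne_zero
  have hsf : SigmaFinite ((volume : Measure ℝ).withDensity (gaussianPDF 0 1)) := by
    rw [← h0]; infer_instance
  have h1 : gs n = (Measure.pi fun _ : Fin n × Fin n => (volume : Measure ℝ)).withDensity
      (fun y => ∏ i, gaussianPDF 0 1 (y i)) := by
    unfold gs
    simp_rw [h0]
    apply Measure.pi_eq
    intro s hs
    rw [withDensity_apply _ (MeasurableSet.univ_pi hs), Measure.restrict_pi_pi,
      lintegral_fintype_prod' _ _ (fun _ => measurable_gaussianPDF 0 1)]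
    apply Finset.prod_congr rfl
    intro i _
    rw [withDensity_apply _ (hs i)]
  rw [h1, volume_pi]
  exact withDensity_absolutelyContinuous _ _

theorem det_ne_zero_ae (n : ℕ) : ∀ᵐ x ∂(gs n), (mk x).det ≠ 0 := by
  apply (gs_ac n).ae_le
  let v0 : Fin n × Fin n → ℝ := fun c => if c.1 = c.2 then 1 else 0
  have hrd : ∀ (x : Fin n × Fin n → ℝ) (z : ℝ),
      mk (x + z • v0) = mk x + Matrix.scalar (Fin n) z := by
    intro x z
    ext a b
    simp only [mk, Matrix.of_apply, Pi.add_apply, Pi.smul_apply, smul_eq_mul, Matrix.add_apply,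
      Matrix.scalar_apply, Matrix.diagonal_apply, v0]
    split_ifs <;> ring
  let N : Set ((Fin n × Fin n → ℝ) × ℝ) := {p | (mk (p.1 + p.2 • v0)).det = 0}
  have hNm : MeasurableSet N := by
    have hc : Continuous (fun p : (Fin n × Fin n → ℝ) × ℝ => (mk (p.1 + p.2 • v0)).det) :=
      (continuous_mk.comp (by fun_prop)).matrix_det
    exact (isClosed_singleton.preimage hc).measurableSet
  have hN0 : (volume : Measure (Fin n × Fin n → ℝ)).prod (volume : Measure ℝ) N = 0 := by
    rw [Measure.prod_apply hNm]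
    apply lintegral_eq_zero_of_ae_eq_zero
    refine Filter.Eventually.of_forall fun x => ?_
    have hfin : (Prod.mk x ⁻¹' N).Finite := by
      have h1 : Prod.mk x ⁻¹' N ⊆ {z : ℝ | (-(mk x)).charpoly.IsRoot z} := by
        intro z hz
        have hz' : (mk (x + z • v0)).det = 0 := hz
        rw [Set.mem_ofPred_eq, Polynomial.IsRoot.def, Matrix.eval_charpoly, sub_neg_eq_add,
          add_comm, ← hrd]
        exact hz'
      exact (Polynomial.finite_setOfPred_isRoot (Matrix.charpoly_monic _).ne_zero).subset h1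
    exact hfin.measure_zero _
  rw [Measure.prod_apply_symm hNm, lintegral_eq_zero_iff (measurable_measure_prodMk_right hNm)] at hN0
  obtain ⟨z, hz⟩ := hN0.exists
  have h2 : (fun x => (x, z)) ⁻¹' N = (fun x => x + z • v0) ⁻¹' {x | (mk x).det = 0} := rfl
  simp only [Pi.zero_apply] at hz
  rw [h2, measure_preimage_add_right] at hz
  show {x : Fin n × Fin n → ℝ | (mk x).det ≠ 0} ∈ ae volume
  rw [mem_ae_iff]
  have h3 : {x : Fin n × Fin n → ℝ | (mk x).det ≠ 0}ᶜ = {x | (mk x).det = 0} := by
    ext x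
    simp
  rw [h3]
  exact hz

theorem gaussian_interval {c r : ℝ} : gaussianReal 0 1 (Metric.ball c r) ≤ ENNReal.ofReal r := by
  have h0 : gaussianReal 0 1 = (volume : Measure ℝ).withDensity (gaussianPDF 0 1) :=
    gaussianReal_of_var_ne_zero 0 one_ne_zero
  rw [h0, withDensity_apply _ measurableSet_ball]
  calc ∫⁻ x in Metric.ball c r, gaussianPDF 0 1 x
      ≤ ∫⁻ _x in Metric.ball c r, ENNReal.ofReal (1 / 2) := by
        refine lintegral_mono fun x => ENNReal.ofReal_le_ofReal ?_
        unfold gaussianPDFReal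
        have h1 : Real.exp (-(x - 0) ^ 2 / (2 * ((1 : NNReal) : ℝ))) ≤ 1 := by
          rw [Real.exp_le_one_iff]
          have := sq_nonneg (x - 0)
          simp only [NNReal.coe_one]
          nlinarith
        have h2 : 2 ≤ Real.sqrt (2 * Real.pi * ((1 : NNReal) : ℝ)) := by
          refine Real.le_sqrt_of_sq_le ?_
          have := Real.pi_gt_three
          simp only [NNReal.coe_one]
          nlinarith
        calc (Real.sqrt (2 * Real.pi * ((1 : NNReal) : ℝ)))⁻¹ *
            Real.exp (-(x - 0) ^ 2 / (2 * ((1 : NNReal) : ℝ)))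
            ≤ (Real.sqrt (2 * Real.pi * ((1 : NNReal) : ℝ)))⁻¹ * 1 :=
              mul_le_mul_of_nonneg_left h1 (by positivity)
          _ ≤ 1 / 2 := by
              rw [mul_one, one_div]
              exact inv_anti₀ (by norm_num) h2
    _ = ENNReal.ofReal (1 / 2) * ENNReal.ofReal (2 * r) := by
        rw [lintegral_const, Measure.restrict_apply MeasurableSet.univ, Set.univ_inter,
          Real.volume_ball]
    _ = ENNReal.ofReal r := by
        rw [← ENNReal.ofReal_mul (by norm_num)]
        congr 1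
        ring

theorem mk_update {n : ℕ} (x : Fin n × Fin n → ℝ) (i k : Fin n) (z : ℝ) :
    mk (Function.update x (i, k) z) = (mk x).updateRow i (Function.update (mk x i) k z) := by
  ext a b
  by_cases ha : a = i
  · subst ha
    rw [Matrix.updateRow_self]
    by_cases hb : b = k
    · subst hb
      simp [mk]
    · rw [Function.update_of_ne hb]
      simp only [mk, Matrix.of_apply]
      rw [Function.update_of_ne]
      intro h
      exact hb (Prod.ext_iff.1 h).2
  · rw [Matrix.updateRow_ne ha]
    simp only [mk, Matrix.of_apply]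
    rw [Function.update_of_ne]
    intro h
    exact ha (Prod.ext_iff.1 h).1

theorem det_update {n : ℕ} (A : Matrix (Fin n) (Fin n) ℝ) (i k : Fin n) (z : ℝ) :
    (A.updateRow i (Function.update (A i) k z)).det = A.det + (z - A i k) * A.adjugate k i := by
  have h : Function.update (A i) k z = A i + (z - A i k) • (Pi.single k 1 : Fin n → ℝ) := by
    ext b
    by_cases hb : b = k
    · subst hb
      simp
    · rw [Function.update_of_ne hb]
      simp [hb]
  rw [h, Matrix.det_updateRow_add, Matrix.det_updateRow_smul, Matrix.updateRow_eq_self,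
    Matrix.adjugate_apply]

theorem inv_update {n : ℕ} (A : Matrix (Fin n) (Fin n) ℝ) (i k : Fin n) (z : ℝ) :
    (A.updateRow i (Function.update (A i) k z))⁻¹ k i
      = (A.det + (z - A i k) * A.adjugate k i)⁻¹ * A.adjugate k i := by
  rw [Matrix.inv_def, Ring.inverse_eq_inv', Matrix.smul_apply, smul_eq_mul, det_update]
  congr 1
  rw [Matrix.adjugate_apply, Matrix.adjugate_apply, Matrix.updateRow_idem]

/-- the entries of the inverse of a Gaussian matrix -/
theorem inv_entry {n : ℕ} (i k : Fin n) {B : ℝ} (hB : 0 < B) :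
    gs n {x | (mk x).det ≠ 0 ∧ B < |(mk x)⁻¹ k i|} ≤ ENNReal.ofReal (1 / B) := by
  set S : Set (Fin n × Fin n → ℝ) := {x | (mk x).det ≠ 0 ∧ B < |(mk x)⁻¹ k i|} with hS
  have hdc : Continuous fun x : Fin n × Fin n → ℝ => (mk x).det := continuous_mk.matrix_det
  have hSm : MeasurableSet S := by
    apply MeasurableSet.inter
    · exact (isOpen_ne_fun hdc continuous_const).measurableSet
    · have h : (fun x : Fin n × Fin n → ℝ => (mk x)⁻¹ k i) =
          fun x => ((mk x).det)⁻¹ * (mk x).adjugate k i := by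
        ext x
        rw [Matrix.inv_def, Ring.inverse_eq_inv', Matrix.smul_apply, smul_eq_mul]
      have h2 : Measurable fun x : Fin n × Fin n → ℝ => (mk x)⁻¹ k i := by
        rw [h]
        exact hdc.measurable.inv.mul (continuous_mk.matrix_adjugate.matrix_elem k i).measurable
      have h3 : Measurable fun x : Fin n × Fin n → ℝ => |(mk x)⁻¹ k i| := by
        have := h2.norm
        simpa only [Real.norm_eq_abs] using this
      exact measurableSet_lt measurable_const h3
  have h1 : gs n S = ∫⁻ x, S.indicator 1 x ∂(gs n) := (lintegral_indicator_one hSm).symm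
  have h2 : ENNReal.ofReal (1 / B) =
      ∫⁻ _x : Fin n × Fin n → ℝ, ENNReal.ofReal (1 / B) ∂(gs n) := by
    rw [lintegral_const, measure_univ, mul_one]
  rw [h1, h2]
  unfold gs
  apply lintegral_le_of_lmarginal_le {(i, k)} (measurable_one.indicator hSm) measurable_const
  intro x
  rw [lmarginal_singleton, lmarginal_singleton]
  simp only [lintegral_const, measure_univ, mul_one]
  set A := mk x with hA
  set a := A.adjugate k i with ha
  have h3 : ∀ z : ℝ, S.indicator (1 : (Fin n × Fin n → ℝ) → ℝ≥0∞) (Function.update x (i, k) z)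
      = {z : ℝ | Function.update x (i, k) z ∈ S}.indicator 1 z := by
    intro z
    by_cases hz : Function.update x (i, k) z ∈ S
    · rw [Set.indicator_of_mem hz, Set.indicator_of_mem (by exact hz)]
      rfl
    · rw [Set.indicator_of_notMem hz, Set.indicator_of_notMem (by exact hz)]
  simp_rw [h3]
  have hms : MeasurableSet {z : ℝ | Function.update x (i, k) z ∈ S} :=
    (measurable_update x) hSm
  rw [lintegral_indicator_one hms]
  have hsub : {z : ℝ | Function.update x (i, k) z ∈ S}
      ⊆ Metric.ball (-((A.det - A i k * a) / a)) (1 / B) := by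
    intro z hz
    simp only [Set.mem_ofPred_eq, hS] at hz
    rw [mk_update, inv_update, det_update] at hz
    obtain ⟨hz1, hz2⟩ := hz
    rw [← hA, ← ha] at hz1 hz2
    rw [abs_mul, abs_inv] at hz2
    have hane : a ≠ 0 := by
      intro h0
      rw [h0, abs_zero, mul_zero] at hz2
      linarith
    have hnp : 0 < |a| := abs_pos.mpr hane
    have hdp : 0 < |A.det + (z - A i k) * a| := abs_pos.mpr hz1
    rw [Metric.mem_ball, Real.dist_eq]
    have e : z - -((A.det - A i k * a) / a) = (A.det + (z - A i k) * a) / a := by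
      field_simp
      ring
    rw [e, abs_div, div_lt_div_iff₀ hnp hB]
    rw [inv_mul_eq_div, lt_div_iff₀ hdp] at hz2
    linarith
  exact (measure_mono hsub).trans gaussian_interval

/-- the tail of the Gaussian distribution -/
theorem gaussian_tail {c : ℝ} (hc : 0 < c) :
    gaussianReal 0 1 {x | c ≤ |x|} ≤ ENNReal.ofReal (1 / c ^ 2) := by
  have h := meas_ge_le_variance_div_sq (μ := gaussianReal 0 1) (X := id)
    (by simpa using memLp_id_gaussianReal (μ := 0) (v := 1) 2) hc
  have h1 : ∫ x, id x ∂(gaussianReal 0 1) = 0 := by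
    simpa using integral_id_gaussianReal (μ := 0) (v := 1)
  rw [h1, variance_id_gaussianReal] at h
  simpa using h

theorem entry_tail {n : ℕ} (p : Fin n × Fin n) {c : ℝ} (hc : 0 < c) :
    gs n {x | c ≤ |x p|} ≤ ENNReal.ofReal (1 / c ^ 2) := by
  have h1 : MeasurableSet {x : ℝ | c ≤ |x|} :=
    (isClosed_le continuous_const continuous_abs).measurableSet
  have h2 : {x : Fin n × Fin n → ℝ | c ≤ |x p|} = Function.eval p ⁻¹' {x : ℝ | c ≤ |x|} := rfl
  unfold gs
  rw [h2, (measurePreserving_eval (fun _ : Fin n × Fin n => gaussianReal 0 1) p).measure_preimage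
    h1.nullMeasurableSet]
  exact gaussian_tail hc

/-- **Gaussian matrices are well conditioned.** -/
theorem gs_good {n : ℕ} (hn : 3 ≤ n) :
    gs n {x | mk x ∈ good n}ᶜ ≤ ENNReal.ofReal (2 / n) := by
  have hn1 : (1 : ℝ) ≤ n := by exact_mod_cast (by omega : 1 ≤ n)
  have hn0 : (0 : ℝ) < n := by linarith
  have hsub : {x : Fin n × Fin n → ℝ | mk x ∈ good n}ᶜ ⊆ {x | (mk x).det = 0} ∪
      ((⋃ p : Fin n × Fin n, {x | (mk x).det ≠ 0 ∧ (n : ℝ) ^ 3 < |(mk x)⁻¹ p.2 p.1|}) ∪
        ⋃ p : Fin n × Fin n, {x | (n : ℝ) ^ 2 ≤ |x p|}) := by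
    intro x hx
    by_contra hcon
    simp only [Set.mem_union, Set.mem_iUnion, Set.mem_ofPred_eq, not_or, not_exists, not_and,
      not_lt, not_le] at hcon
    obtain ⟨h1, h2, h3⟩ := hcon
    apply hx
    refine ⟨hn, fun v => ?_, ?_⟩
    · have h4 : ‖(mk x)⁻¹‖ ≤ n * (n : ℝ) ^ 3 :=
        norm_le_of_entries (by positivity) fun i j => h2 (j, i) h1
      have h5 : v = (mk x)⁻¹ *ᵥ (mk x *ᵥ v) := by
        rw [Matrix.mulVec_mulVec, Matrix.nonsing_inv_mul _ (isUnit_iff_ne_zero.2 h1),
          Matrix.one_mulVec]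
      calc nrm v = nrm ((mk x)⁻¹ *ᵥ (mk x *ᵥ v)) := by rw [← h5]
        _ ≤ ‖(mk x)⁻¹‖ * nrm (mk x *ᵥ v) := nrm_mulVec_le _ _
        _ ≤ (n * (n : ℝ) ^ 3) * nrm (mk x *ᵥ v) :=
            mul_le_mul_of_nonneg_right h4 (nrm_nonneg _)
        _ ≤ 256 * (n : ℝ) ^ 4 * nrm (mk x *ᵥ v) := by
            refine mul_le_mul_of_nonneg_right ?_ (nrm_nonneg _)
            have : (0 : ℝ) ≤ (n : ℝ) ^ 4 := by positivity
            nlinarith
    · calc ∑ i, ∑ j, |mk x i j| ≤ ∑ _i : Fin n, ∑ _j : Fin n, (n : ℝ) ^ 2 :=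
            Finset.sum_le_sum fun i _ => Finset.sum_le_sum fun j _ => (h3 (i, j)).le
        _ = (n : ℝ) ^ 4 := by simp; ring
  refine (measure_mono hsub).trans ?_
  have h0 : gs n {x | (mk x).det = 0} = 0 := by
    have := det_ne_zero_ae n
    rw [ae_iff] at this
    simpa using this
  have h1 : gs n (⋃ p : Fin n × Fin n, {x | (mk x).det ≠ 0 ∧ (n : ℝ) ^ 3 < |(mk x)⁻¹ p.2 p.1|}) ≤
      ENNReal.ofReal (1 / n) := by
    refine (measure_iUnion_fintype_le _ _).trans ?_
    calc ∑ p : Fin n × Fin n, gs n {x | (mk x).det ≠ 0 ∧ (n : ℝ) ^ 3 < |(mk x)⁻¹ p.2 p.1|}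
        ≤ ∑ _p : Fin n × Fin n, ENNReal.ofReal (1 / (n : ℝ) ^ 3) :=
          Finset.sum_le_sum fun p _ => inv_entry p.1 p.2 (by positivity)
      _ = ENNReal.ofReal (1 / n) := by
          rw [Finset.sum_const, Finset.card_univ, Fintype.card_prod, Fintype.card_fin,
            nsmul_eq_mul, ← ENNReal.ofReal_natCast, ← ENNReal.ofReal_mul (by positivity)]
          congr 1
          push_cast
          field_simp
  have h2 : gs n (⋃ p : Fin n × Fin n, {x | (n : ℝ) ^ 2 ≤ |x p|}) ≤ ENNReal.ofReal (1 / n) := by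
    refine (measure_iUnion_fintype_le _ _).trans ?_
    calc ∑ p : Fin n × Fin n, gs n {x | (n : ℝ) ^ 2 ≤ |x p|}
        ≤ ∑ _p : Fin n × Fin n, ENNReal.ofReal (1 / ((n : ℝ) ^ 2) ^ 2) :=
          Finset.sum_le_sum fun p _ => entry_tail p (by positivity)
      _ = ENNReal.ofReal (1 / (n : ℝ) ^ 2) := by
          rw [Finset.sum_const, Finset.card_univ, Fintype.card_prod, Fintype.card_fin,
            nsmul_eq_mul, ← ENNReal.ofReal_natCast, ← ENNReal.ofReal_mul (by positivity)]
          congr 1
          push_cast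
          field_simp
      _ ≤ ENNReal.ofReal (1 / n) := by
          refine ENNReal.ofReal_le_ofReal (one_div_le_one_div_of_le hn0 ?_)
          nlinarith
  calc gs n ({x | (mk x).det = 0} ∪
      ((⋃ p : Fin n × Fin n, {x | (mk x).det ≠ 0 ∧ (n : ℝ) ^ 3 < |(mk x)⁻¹ p.2 p.1|}) ∪
        ⋃ p : Fin n × Fin n, {x | (n : ℝ) ^ 2 ≤ |x p|}))
      ≤ 0 + (ENNReal.ofReal (1 / n) + ENNReal.ofReal (1 / n)) := by
        refine (measure_union_le _ _).trans (add_le_add h0.le ?_)
        exact (measure_union_le _ _).trans (add_le_add h1 h2)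
    _ = ENNReal.ofReal (2 / n) := by
        rw [zero_add, ← ENNReal.ofReal_add (by positivity) (by positivity)]
        congr 1
        ring

/-- the probability of the good matrices tends to one -/
theorem tendsto_gs :
    Tendsto (fun n : ℕ => gs n {x | mk x ∈ good n}) atTop (𝓝 1) := by
  have h1 : Tendsto (fun n : ℕ => 1 - ENNReal.ofReal (2 / n)) atTop (𝓝 1) := by
    have h2 := (ENNReal.tendsto_ofReal (tendsto_const_div_atTop_nhds_zero_nat (2 : ℝ)))
    rw [ENNReal.ofReal_zero] at h2
    have h3 := ENNReal.Tendsto.sub (tendsto_const_nhds (x := (1 : ℝ≥0∞))) h2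
      (Or.inl ENNReal.one_ne_top)
    rwa [tsub_zero] at h3
  refine tendsto_of_tendsto_of_tendsto_of_le_of_le' h1 tendsto_const_nhds ?_
    (Eventually.of_forall fun n => prob_le_one)
  filter_upwards [eventually_ge_atTop 3] with n hn
  have h2 := gs_good hn
  have h3 := prob_add_prob_compl (μ := gs n) (measurableSet_good n)
  rw [tsub_le_iff_right, ← h3]
  exact add_le_add_right h2 _

end Pool.Agent.Y541
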