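import Pool.Agent.Y541.Count

/-!
# Badly conditioned matrices are rare
-/

set_option autoImplicit false

namespace Pool.Agent.Y541.Two

open Finset Filter
open scoped Topology

variable {u v : ℝ}

/-- a bound for the proportion of the badly conditioned matrices -/
noncomputable def rate (n : ℕ) : ℝ :=
  162 * (Real.log n / n) + Real.sqrt (64000 * (Real.log n ^ 3 / n))

theorem tendsto_rate : Tendsto rate atTop (𝓝 0) := by
  have h : ∀ k : ℕ, Tendsto (fun n : ℕ => Real.log n ^ k / n) atTop (𝓝 0) := by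
    intro k
    have h1 : Tendsto (fun x : ℝ => Real.log x ^ k / x) atTop (𝓝 0) :=
      (Real.isLittleO_pow_log_id_atTop (n := k)).tendsto_div_nhds_zero
    exact h1.comp tendsto_natCast_atTop_atTop
  have h1 : Tendsto (fun n : ℕ => 162 * (Real.log n / n)) atTop (𝓝 (162 * 0)) := by
    have h3 := h 1
    simp only [pow_one] at h3
    exact h3.const_mul 162
  have h2 : Tendsto (fun n : ℕ => Real.sqrt (64000 * (Real.log n ^ 3 / n))) atTop
      (𝓝 (Real.sqrt (64000 * 0))) := ((h 3).const_mul 64000).sqrt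
  have h3 := h1.add h2
  rw [mul_zero, mul_zero, Real.sqrt_zero, add_zero] at h3
  exact h3

/-- **Badly conditioned matrices are rare.** -/
theorem count_rate {n : ℕ} (hn : 3 ≤ n) (hu : |u| ≤ 1) (hv : |v| ≤ 1) (huv : 1 ≤ |v - u|)
    (B : Finset (Fin n → Fin n → Bool))
    (hB : ∀ X ∈ B, ∃ x : Fin n → ℝ, (∃ i, |x i| = 1) ∧ (∀ i, |x i| ≤ 1) ∧
      ∀ i, |∑ j, val u v (X j i) * x j| ≤ 1 / (256 * (n : ℝ) ^ 3)) :
    (#B : ℝ) ≤ (2 ^ n) ^ n * rate n := by
  set L := Nat.clog 2 n with hL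
  set f := 4 * (5 + 2 * L) with hf
  set q := n / f with hq
  have hn1 : (3 : ℝ) ≤ n := by exact_mod_cast hn
  have hn0 : (0 : ℝ) < n := by linarith
  have hlog : 1 ≤ Real.log n := by
    rw [Real.le_log_iff_exp_le hn0]
    have := Real.exp_one_lt_d9
    linarith
  refine (count (by omega) hu hv huv q B hB).trans (mul_le_mul_of_nonneg_left ?_ (by positivity))
  -- the size of the net
  have h1 : n ≤ 2 ^ L := Nat.le_pow_clog (by norm_num) n
  have h2 : n * (2 * (8 * n) + 1) ≤ 2 ^ (5 + 2 * L) := by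
    calc n * (2 * (8 * n) + 1) ≤ n * (32 * n) := Nat.mul_le_mul_left _ (by omega)
      _ = 32 * (n * n) := by ring
      _ ≤ 32 * (2 ^ L * 2 ^ L) := Nat.mul_le_mul_left _ (Nat.mul_le_mul h1 h1)
      _ = 2 ^ (5 + 2 * L) := by rw [pow_add, two_mul, pow_add]; norm_num
  have h3 : (5 + 2 * L) * (2 * q) ≤ n / 2 := by
    rw [Nat.le_div_iff_mul_le (by norm_num)]
    have : q * f ≤ n := Nat.div_mul_le_self n f
    calc (5 + 2 * L) * (2 * q) * 2 = q * f := by rw [hf]; ring
      _ ≤ n := this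
  have h4 : (n * (2 * (8 * n) + 1)) ^ (2 * q) * (n / 2 + 1) ≤ 2 ^ n := by
    calc (n * (2 * (8 * n) + 1)) ^ (2 * q) * (n / 2 + 1)
        ≤ (2 ^ (5 + 2 * L)) ^ (2 * q) * 2 ^ (n / 2) :=
          Nat.mul_le_mul (Nat.pow_le_pow_left h2 _) (Nat.lt_two_pow_self)
      _ = 2 ^ ((5 + 2 * L) * (2 * q) + n / 2) := by rw [← pow_mul, ← pow_add]
      _ ≤ 2 ^ n := Nat.pow_le_pow_right (by norm_num) (by omega)
  have h5 : ((n : ℝ) * (2 * (8 * n) + 1)) ^ (2 * q) / 2 ^ n ≤ 2 / n := by
    have h6 : (((n * (2 * (8 * n) + 1)) ^ (2 * q) * (n / 2 + 1) : ℕ) : ℝ) ≤ ((2 ^ n : ℕ) : ℝ) := by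
      exact_mod_cast h4
    have h7 : (n : ℝ) / 2 ≤ ((n / 2 + 1 : ℕ) : ℝ) := by
      have : n ≤ 2 * (n / 2 + 1) := by omega
      have : (n : ℝ) ≤ 2 * ((n / 2 + 1 : ℕ) : ℝ) := by exact_mod_cast this
      linarith
    rw [div_le_div_iff₀ (by positivity) hn0]
    push_cast at h6 h7
    have h8 : 0 ≤ ((n : ℝ) * (2 * (8 * n) + 1)) ^ (2 * q) := by positivity
    nlinarith
  -- the number `n / (2 q + 1)`
  have h6 : n ≤ f * (2 * q + 1) := by
    have : n < f * (q + 1) := Nat.lt_mul_div_succ n (by omega)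
    have h7 : f * (q + 1) ≤ f * (2 * q + 1) := Nat.mul_le_mul_left _ (by omega)
    omega
  have hfl : (f : ℝ) ≤ 40 * Real.log n := by
    have hL' : (L : ℝ) ≤ 1 + 3 / 2 * Real.log n := by
      have e1 : 0 ≤ Real.logb 2 n := Real.logb_nonneg (by norm_num) (by linarith)
      have e2 : (L : ℝ) ≤ Real.logb 2 n + 1 := by
        have e3 : L = ⌈Real.logb 2 n⌉₊ := by
          rw [hL]
          exact (Real.natCeil_logb_natCast 2 n).symm
        rw [e3]
        exact (Nat.ceil_lt_add_one e1).le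
      have e4 : Real.logb 2 n = 1 / Real.log 2 * Real.log n := by
        rw [Real.logb]
        ring
      have e5 : 1 / Real.log 2 ≤ 3 / 2 := by
        have h := Real.log_two_gt_d9
        rw [div_le_div_iff₀ (by linarith) (by norm_num)]
        linarith
      have e6 : 1 / Real.log 2 * Real.log n ≤ 3 / 2 * Real.log n :=
        mul_le_mul_of_nonneg_right e5 (by linarith)
      linarith
    rw [hf]
    push_cast
    linarith
  have h7 : (n : ℝ) ≤ 40 * Real.log n * (2 * q + 1) := by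
    have e1 : (n : ℝ) ≤ f * (2 * q + 1) := by exact_mod_cast h6
    have e2 : (f : ℝ) * (2 * q + 1) ≤ 40 * Real.log n * (2 * q + 1) :=
      mul_le_mul_of_nonneg_right hfl (by positivity)
    linarith
  have hq0 : (0 : ℝ) < 2 * q + 1 := by positivity
  have h8 : (n : ℝ) / (2 * q + 1) ≤ 40 * Real.log n := by
    rw [div_le_iff₀ hq0]
    exact h7
  have h9 : 1 / Real.sqrt (2 * q + 1) ≤ Real.sqrt (40 * Real.log n / n) := by
    have e : 1 / Real.sqrt (2 * q + 1) = Real.sqrt (1 / (2 * q + 1)) := by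
      rw [Real.sqrt_div (by norm_num), Real.sqrt_one]
    rw [e]
    refine Real.sqrt_le_sqrt ?_
    rw [div_le_div_iff₀ hq0 hn0]
    linarith
  have h10 : 40 * Real.log n * Real.sqrt (40 * Real.log n / n) =
      Real.sqrt (64000 * (Real.log n ^ 3 / n)) := by
    have e1 : (0 : ℝ) ≤ 40 * Real.log n := by linarith
    have e2 : 64000 * (Real.log n ^ 3 / n) = (40 * Real.log n) ^ 2 * (40 * Real.log n / n) := by
      ring
    rw [e2, Real.sqrt_mul (by positivity), Real.sqrt_sq e1]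
  have e0 : 0 ≤ 1 / Real.sqrt (2 * q + 1) := by positivity
  have e1 : 0 ≤ ((n : ℝ) * (2 * (8 * n) + 1)) ^ (2 * q) / 2 ^ n := by positivity
  have e2 : 0 ≤ (n : ℝ) / (2 * q + 1) := by positivity
  calc ((n : ℝ) * (2 * (8 * n) + 1)) ^ (2 * q) / 2 ^ n +
      n / (2 * q + 1) * (2 * (n * (2 * (8 * n) + 1)) ^ (2 * q) / 2 ^ n +
        1 / Real.sqrt (2 * q + 1))
      ≤ 2 / n + 40 * Real.log n * (2 * (2 / n) + Real.sqrt (40 * Real.log n / n)) := by
        refine add_le_add h5 (mul_le_mul h8 (add_le_add ?_ h9) ?_ (by linarith))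
        · rw [mul_div_assoc]
          linarith
        · rw [mul_div_assoc]
          positivity
    _ = 2 / n + 160 * (Real.log n / n) + 40 * Real.log n * Real.sqrt (40 * Real.log n / n) := by
        ring
    _ ≤ rate n := by
        rw [h10, rate]
        have : 2 / (n : ℝ) ≤ 2 * (Real.log n / n) := by
          rw [mul_div_assoc']
          exact div_le_div_of_nonneg_right (by linarith) hn0.le
        linarith

end Pool.Agent.Y541.Two
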