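import Mathlib

/-!
# The operator norm of real matrices
-/

set_option autoImplicit false

namespace Pool.Agent.Y541

open Finset Matrix
open scoped Matrix.Norms.L2Operator

variable {n : ℕ}

/-- the Euclidean norm -/
noncomputable def nrm (v : Fin n → ℝ) : ℝ := ‖(WithLp.toLp 2 v : EuclideanSpace ℝ (Fin n))‖

theorem nrm_nonneg (v : Fin n → ℝ) : 0 ≤ nrm v := norm_nonneg _

theorem nrm_sq (v : Fin n → ℝ) : nrm v ^ 2 = v ⬝ᵥ v := by
  unfold nrm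
  rw [EuclideanSpace.norm_sq_eq]
  simp [dotProduct, sq]

theorem nrm_zero : nrm (0 : Fin n → ℝ) = 0 := by
  unfold nrm
  rw [WithLp.toLp_zero]
  exact norm_zero

theorem nrm_eq_zero {v : Fin n → ℝ} (h : nrm v = 0) : v = 0 := by
  unfold nrm at h
  rw [norm_eq_zero] at h
  have := congrArg WithLp.ofLp h
  simpa using this

theorem nrm_add_le (v w : Fin n → ℝ) : nrm (v + w) ≤ nrm v + nrm w := by
  unfold nrm
  rw [WithLp.toLp_add]
  exact norm_add_le _ _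

theorem nrm_sub_le (v w : Fin n → ℝ) : nrm (v - w) ≤ nrm v + nrm w := by
  unfold nrm
  rw [WithLp.toLp_sub]
  exact norm_sub_le _ _

theorem nrm_neg (v : Fin n → ℝ) : nrm (-v) = nrm v := by
  unfold nrm
  rw [WithLp.toLp_neg]
  exact norm_neg _

theorem nrm_smul (c : ℝ) (v : Fin n → ℝ) : nrm (c • v) = |c| * nrm v := by
  unfold nrm
  rw [WithLp.toLp_smul]
  exact norm_smul _ _

theorem nrm_mulVec_le (A : Matrix (Fin n) (Fin n) ℝ) (v : Fin n → ℝ) :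
    nrm (A *ᵥ v) ≤ ‖A‖ * nrm v :=
  A.l2_opNorm_mulVec (WithLp.toLp 2 v)

theorem norm_le_of_forall {A : Matrix (Fin n) (Fin n) ℝ} {c : ℝ} (hc : 0 ≤ c)
    (h : ∀ v, nrm (A *ᵥ v) ≤ c * nrm v) : ‖A‖ ≤ c := by
  rw [Matrix.l2_opNorm_def]
  refine ContinuousLinearMap.opNorm_le_bound _ hc fun x => ?_
  exact h (WithLp.ofLp x)

theorem abs_coord_le (v : Fin n → ℝ) (i : Fin n) : |v i| ≤ nrm v := by
  have h : v i ^ 2 ≤ nrm v ^ 2 := by
    rw [nrm_sq, dotProduct]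
    have := Finset.single_le_sum (f := fun i => v i * v i) (fun i _ => mul_self_nonneg _)
      (Finset.mem_univ i)
    simpa [sq] using this
  exact abs_le_of_sq_le_sq h (nrm_nonneg v)

theorem nrm_single (j : Fin n) : nrm (Pi.single j (1 : ℝ)) = 1 := by
  have h : nrm (Pi.single j (1 : ℝ) : Fin n → ℝ) ^ 2 = 1 := by
    rw [nrm_sq]
    simp
  have h0 := nrm_nonneg (Pi.single j (1 : ℝ) : Fin n → ℝ)
  nlinarith

theorem abs_entry_le (A : Matrix (Fin n) (Fin n) ℝ) (i j : Fin n) : |A i j| ≤ ‖A‖ := by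
  have h1 := abs_coord_le (A *ᵥ (Pi.single j (1 : ℝ))) i
  have h2 := nrm_mulVec_le A (Pi.single j (1 : ℝ))
  rw [nrm_single, mul_one] at h2
  rw [Matrix.mulVec_single_one] at h1
  exact h1.trans (by simpa [Matrix.mulVec_single_one] using h2)

theorem nrm_le_sum (v : Fin n → ℝ) : nrm v ≤ ∑ i, |v i| := by
  have h : nrm v ^ 2 ≤ (∑ i, |v i|) ^ 2 := by
    rw [nrm_sq, dotProduct, sq, Finset.sum_mul]
    refine Finset.sum_le_sum fun i _ => ?_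
    rw [← abs_mul_abs_self]
    exact mul_le_mul_of_nonneg_left
      (Finset.single_le_sum (f := fun j => |v j|) (fun _ _ => abs_nonneg _) (Finset.mem_univ i))
      (abs_nonneg _)
  exact le_of_sq_le_sq h (Finset.sum_nonneg fun _ _ => abs_nonneg _)

theorem norm_le_sum (A : Matrix (Fin n) (Fin n) ℝ) : ‖A‖ ≤ ∑ i, ∑ j, |A i j| := by
  refine norm_le_of_forall (Finset.sum_nonneg fun _ _ => Finset.sum_nonneg fun _ _ => abs_nonneg _)
    fun v => ?_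
  refine (nrm_le_sum _).trans ?_
  rw [Finset.sum_mul]
  refine Finset.sum_le_sum fun i _ => ?_
  rw [Matrix.mulVec, dotProduct, Finset.sum_mul]
  refine (Finset.abs_sum_le_sum_abs _ _).trans (Finset.sum_le_sum fun j _ => ?_)
  rw [abs_mul]
  exact mul_le_mul_of_nonneg_left (abs_coord_le v j) (abs_nonneg _)

theorem norm_le_of_entries {A : Matrix (Fin n) (Fin n) ℝ} {e : ℝ} (he : 0 ≤ e)
    (h : ∀ i j, |A i j| ≤ e) : ‖A‖ ≤ n * e := by
  refine norm_le_of_forall (by positivity) fun v => ?_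
  refine le_of_sq_le_sq ?_ (mul_nonneg (by positivity) (nrm_nonneg v))
  rw [nrm_sq, dotProduct]
  have h1 : ∀ i, (A *ᵥ v) i * (A *ᵥ v) i ≤ n * e ^ 2 * nrm v ^ 2 := by
    intro i
    rw [← sq, Matrix.mulVec, dotProduct]
    refine (Finset.sum_mul_sq_le_sq_mul_sq _ _ _).trans ?_
    have h2 : ∑ j, v j ^ 2 = nrm v ^ 2 := by
      rw [nrm_sq, dotProduct]
      exact Finset.sum_congr rfl fun j _ => sq _
    rw [h2]
    refine mul_le_mul_of_nonneg_right ?_ (sq_nonneg _)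
    calc ∑ j, A i j ^ 2 ≤ ∑ _j : Fin n, e ^ 2 := Finset.sum_le_sum fun j _ =>
          sq_le_sq' (by have := (abs_le.1 (h i j)).1; linarith) (abs_le.1 (h i j)).2
      _ = n * e ^ 2 := by simp
  calc ∑ i, (A *ᵥ v) i * (A *ᵥ v) i ≤ ∑ _i : Fin n, n * e ^ 2 * nrm v ^ 2 :=
        Finset.sum_le_sum fun i _ => h1 i
    _ = (n * e * nrm v) ^ 2 := by simp; ring

/-- an operator that does not shorten vectors too much is invertible -/
theorem det_ne_zero_of_lower {A : Matrix (Fin n) (Fin n) ℝ} {s : ℝ} (hs : 0 < s)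
    (h : ∀ v, s * nrm v ≤ nrm (A *ᵥ v)) : A.det ≠ 0 := by
  intro h0
  obtain ⟨v, hv, hA⟩ := Matrix.exists_mulVec_eq_zero_iff.2 h0
  have h1 := h v
  rw [hA, nrm_zero] at h1
  have h2 := nrm_nonneg v
  exact hv (nrm_eq_zero (by nlinarith))

/-- `‖X‖ ≤ ‖X A‖ / s` -/
theorem norm_le_of_lower {A X : Matrix (Fin n) (Fin n) ℝ} {s : ℝ} (hs : 0 < s)
    (h : ∀ v, s * nrm v ≤ nrm (A *ᵥ v)) : s * ‖X‖ ≤ ‖X * A‖ := by
  have hdet : IsUnit A.det := isUnit_iff_ne_zero.2 (det_ne_zero_of_lower hs h)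
  have h1 : ‖X‖ ≤ ‖X * A‖ / s := by
    refine norm_le_of_forall (div_nonneg (norm_nonneg _) hs.le) fun v => ?_
    have e1 : X *ᵥ v = (X * A) *ᵥ (A⁻¹ *ᵥ v) := by
      rw [Matrix.mulVec_mulVec, Matrix.mul_assoc, Matrix.mul_nonsing_inv _ hdet, Matrix.mul_one]
    have e2 : s * nrm (A⁻¹ *ᵥ v) ≤ nrm v := by
      have := h (A⁻¹ *ᵥ v)
      rwa [Matrix.mulVec_mulVec, Matrix.mul_nonsing_inv _ hdet, Matrix.one_mulVec] at this
    rw [e1]
    refine (nrm_mulVec_le _ _).trans ?_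
    rw [div_mul_eq_mul_div, le_div_iff₀ hs]
    have := norm_nonneg (X * A)
    nlinarith
  rwa [le_div_iff₀ hs, mul_comm] at h1

theorem dot_self_nonneg (v : Fin n → ℝ) : 0 ≤ v ⬝ᵥ v := by
  rw [← nrm_sq]
  exact sq_nonneg _

theorem norm_transpose (A : Matrix (Fin n) (Fin n) ℝ) : ‖Aᵀ‖ = ‖A‖ := by
  have := Matrix.l2_opNorm_conjTranspose A
  rwa [Matrix.conjTranspose_eq_transpose_of_trivial] at this

/-- the first residual of the Newton iteration -/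
theorem norm_one_sub_le {A : Matrix (Fin n) (Fin n) ℝ} {s : ℝ} (h1 : ‖A‖ ≤ 1) (hs1 : s ^ 2 ≤ 1)
    (hs : 0 ≤ s) (h : ∀ v, s * nrm v ≤ nrm (A *ᵥ v)) : ‖1 - Aᵀ * A‖ ≤ 1 - s ^ 2 := by
  set R := 1 - Aᵀ * A with hR
  have hB : ∀ x y : Fin n → ℝ, (R *ᵥ x) ⬝ᵥ y = x ⬝ᵥ y - (A *ᵥ x) ⬝ᵥ (A *ᵥ y) := by
    intro x y
    rw [hR, Matrix.sub_mulVec, Matrix.one_mulVec, sub_dotProduct, ← Matrix.mulVec_mulVec,
      Matrix.mulVec_transpose, ← Matrix.dotProduct_mulVec]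
  have hup : ∀ x : Fin n → ℝ, (R *ᵥ x) ⬝ᵥ x ≤ (1 - s ^ 2) * nrm x ^ 2 := by
    intro x
    rw [hB, ← nrm_sq, ← nrm_sq]
    have h2 := h x
    have h3 : (s * nrm x) ^ 2 ≤ nrm (A *ᵥ x) ^ 2 :=
      pow_le_pow_left₀ (mul_nonneg hs (nrm_nonneg x)) h2 2
    nlinarith
  have hlo : ∀ x : Fin n → ℝ, 0 ≤ (R *ᵥ x) ⬝ᵥ x := by
    intro x
    rw [hB, ← nrm_sq, ← nrm_sq]
    have h2 := nrm_mulVec_le A x
    have h3 : nrm (A *ᵥ x) ≤ nrm x := h2.trans (by nlinarith [nrm_nonneg x])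
    have h4 := nrm_nonneg (A *ᵥ x)
    nlinarith
  have hsym : ∀ x y : Fin n → ℝ, (R *ᵥ x) ⬝ᵥ y = (R *ᵥ y) ⬝ᵥ x := by
    intro x y
    rw [hB, hB, dotProduct_comm x y, dotProduct_comm (A *ᵥ x)]
  have hCS : ∀ x y : Fin n → ℝ, ((R *ᵥ x) ⬝ᵥ y) ^ 2 ≤ ((R *ᵥ x) ⬝ᵥ x) * ((R *ᵥ y) ⬝ᵥ y) := by
    intro x y
    have hd : discrim ((R *ᵥ y) ⬝ᵥ y) (2 * ((R *ᵥ x) ⬝ᵥ y)) ((R *ᵥ x) ⬝ᵥ x) ≤ 0 := by
      refine discrim_le_zero fun t => ?_
      have h2 := hlo (x + t • y)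
      rw [Matrix.mulVec_add, Matrix.mulVec_smul, add_dotProduct, dotProduct_add, dotProduct_add,
        smul_dotProduct, smul_dotProduct, dotProduct_smul, dotProduct_smul, hsym y x] at h2
      simp only [smul_eq_mul] at h2
      linarith
    unfold discrim at hd
    nlinarith
  refine norm_le_of_forall (by linarith) fun x => ?_
  have h2 := hCS x (R *ᵥ x)
  rw [← nrm_sq] at h2
  have h3 := hup x
  have h4 := hup (R *ᵥ x)
  have h5 := hlo x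
  have h6 := hlo (R *ᵥ x)
  have h7 := nrm_nonneg (R *ᵥ x)
  have h8 := nrm_nonneg x
  by_cases h9 : nrm (R *ᵥ x) = 0
  · rw [h9]
    exact mul_nonneg (by linarith) h8
  · have h10 : 0 < nrm (R *ᵥ x) := lt_of_le_of_ne h7 (Ne.symm h9)
    have h11 : (nrm (R *ᵥ x) ^ 2) ^ 2 ≤
        ((1 - s ^ 2) * nrm x ^ 2) * ((1 - s ^ 2) * nrm (R *ᵥ x) ^ 2) :=
      h2.trans (mul_le_mul h3 h4 h6 (mul_nonneg (by linarith) (sq_nonneg _)))
    have h12 : nrm (R *ᵥ x) ^ 2 ≤ ((1 - s ^ 2) * nrm x) ^ 2 := by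
      have h13 : 0 < nrm (R *ᵥ x) ^ 2 := by positivity
      have h14 : nrm (R *ᵥ x) ^ 2 * nrm (R *ᵥ x) ^ 2 ≤
          ((1 - s ^ 2) * nrm x) ^ 2 * nrm (R *ᵥ x) ^ 2 := by nlinarith
      exact le_of_mul_le_mul_right h14 h13
    exact le_of_sq_le_sq h12 (mul_nonneg (by linarith) h8)

end Pool.Agent.Y541
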