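import Pool.Agent.Y541.Newton
import Pool.Agent.Y541.Norms

/-!
# Convergence of the Newton iteration with rounding
-/

set_option autoImplicit false

namespace Pool.Agent.Y541

open Finset Matrix
open scoped Matrix.Norms.L2Operator

/-- the matrix with the entries `z i j` -/
def toM (n : ℕ) (z : ℕ → ℕ → ℤ) : Matrix (Fin n) (Fin n) ℝ := Matrix.of fun i j => (z i j : ℝ)

theorem toM_apply {n : ℕ} (z : ℕ → ℕ → ℤ) (i j : Fin n) : toM n z i j = z i j := rfl

theorem toM_prodZ (n : ℕ) (x y : ℕ → ℕ → ℤ) : toM n (prodZ n x y) = toM n x * toM n y := by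
  ext i j
  rw [toM_apply, Matrix.mul_apply, prodZ, Finset.sum_range]
  push_cast
  rfl

theorem toM_pz (n : ℕ) (q : ℤ) (az xz : ℕ → ℕ → ℤ) :
    toM n (pz n q az xz) = (2 * (q : ℝ) ^ 2) • (1 : Matrix (Fin n) (Fin n) ℝ) -
      toM n xz * toM n az := by
  rw [← toM_prodZ]
  ext i j
  simp only [toM_apply, Matrix.sub_apply, Matrix.smul_apply, Matrix.one_apply, pz, smul_eq_mul,
    Fin.ext_iff]
  push_cast
  rfl

theorem toM_rz (n : ℕ) (q : ℤ) (az xz : ℕ → ℕ → ℤ) :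
    toM n (rz n q az xz) = ((q : ℝ) ^ 2) • (1 : Matrix (Fin n) (Fin n) ℝ) -
      toM n xz * toM n az := by
  rw [← toM_prodZ]
  ext i j
  simp only [toM_apply, Matrix.sub_apply, Matrix.smul_apply, Matrix.one_apply, rz, smul_eq_mul,
    Fin.ext_iff]
  push_cast
  rfl

theorem absSum_eq (n : ℕ) (z : ℕ → ℕ → ℤ) :
    absSum n z = ∑ i : Fin n, ∑ j : Fin n, |toM n z i j| := by
  unfold absSum
  rw [Finset.sum_range]
  refine Finset.sum_congr rfl fun i _ => ?_
  rw [Finset.sum_range]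
  rfl

/-- the scaled matrix -/
noncomputable def scM (n : ℕ) (q : ℤ) (z : ℕ → ℕ → ℤ) : Matrix (Fin n) (Fin n) ℝ :=
  ((q : ℝ)⁻¹) • toM n z

/-- the residual -/
noncomputable def res (n : ℕ) (q : ℤ) (az xz : ℕ → ℕ → ℤ) : Matrix (Fin n) (Fin n) ℝ :=
  1 - scM n q xz * scM n q az

theorem res_eq {n : ℕ} {q : ℤ} (hq : 1 ≤ q) (az xz : ℕ → ℕ → ℤ) :
    res n q az xz = ((q : ℝ) ^ 2)⁻¹ • toM n (rz n q az xz) := by
  have hq' : (q : ℝ) ^ 2 ≠ 0 := by
    have : (1 : ℝ) ≤ q := by exact_mod_cast hq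
    positivity
  rw [toM_rz, smul_sub, smul_smul, inv_mul_cancel₀ hq', one_smul, res, scM, scM,
    Matrix.smul_mul, Matrix.mul_smul, smul_smul]
  congr 2
  rw [sq, mul_inv]

theorem certV_eq {n : ℕ} {q : ℤ} (hq : 1 ≤ q) (az xz : ℕ → ℕ → ℤ) :
    certV n q az xz = (∑ i : Fin n, ∑ j : Fin n, |res n q az xz i j|) +
      (∑ i : Fin n, ∑ j : Fin n, |scM n q xz i j|) * (n / q) := by
  have hq' : (1 : ℝ) ≤ q := by exact_mod_cast hq
  have hq0 : (0 : ℝ) < q := by linarith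
  rw [res_eq hq, certV, absSum_eq, absSum_eq]
  have h1 : ∀ i j : Fin n, |(((q : ℝ) ^ 2)⁻¹ • toM n (rz n q az xz)) i j| =
      ((q : ℝ) ^ 2)⁻¹ * |toM n (rz n q az xz) i j| := by
    intro i j
    rw [Matrix.smul_apply, smul_eq_mul, abs_mul, abs_of_pos (by positivity : 0 < ((q : ℝ) ^ 2)⁻¹)]
  have h2 : ∀ i j : Fin n, |scM n q xz i j| = (q : ℝ)⁻¹ * |toM n xz i j| := by
    intro i j
    rw [scM, Matrix.smul_apply, smul_eq_mul, abs_mul, abs_of_pos (by positivity : 0 < (q : ℝ)⁻¹)]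
  simp only [h1, h2, ← Finset.mul_sum]
  field_simp

/-- soundness of the certificate -/
theorem cert_sound {n : ℕ} {q : ℤ} (hq : 1 ≤ q) (az xz : ℕ → ℕ → ℤ)
    {A : Matrix (Fin n) (Fin n) ℝ} (hA : ∀ i j, |A i j - scM n q az i j| ≤ 1 / q) :
    ‖1 - scM n q xz * A‖ ≤ certV n q az xz := by
  have hq' : (1 : ℝ) ≤ q := by exact_mod_cast hq
  have hq0 : (0 : ℝ) < q := by linarith
  have e : 1 - scM n q xz * A = res n q az xz - scM n q xz * (A - scM n q az) := by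
    rw [res]
    noncomm_ring
  rw [e, certV_eq hq]
  refine (norm_sub_le _ _).trans (add_le_add (norm_le_sum _) ?_)
  refine (norm_mul_le _ _).trans ?_
  refine mul_le_mul (norm_le_sum _) ?_ (norm_nonneg _)
    (Finset.sum_nonneg fun _ _ => Finset.sum_nonneg fun _ _ => abs_nonneg _)
  have := norm_le_of_entries (A := A - scM n q az) (e := 1 / q) (by positivity)
    (fun i j => by rw [Matrix.sub_apply]; exact hA i j)
  refine this.trans (le_of_eq ?_)
  ring

/-- one step -/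
theorem newt_step {n : ℕ} {q : ℤ} (hq : 1 ≤ q) {az xz : ℕ → ℕ → ℤ} {s ρ : ℝ} (hs : 0 < s)
    (hA : ‖scM n q az‖ ≤ 1) (hlow : ∀ v, s * nrm v ≤ nrm (scM n q az *ᵥ v))
    (hρ : ‖res n q az xz‖ ≤ ρ) (hρ1 : ρ ≤ 1) (hqs : 4 / s ≤ (q : ℝ) ^ 2) :
    ‖res n q az (newt n q az xz)‖ ≤ ρ ^ 2 + n / q := by
  have hq' : (1 : ℝ) ≤ q := by exact_mod_cast hq
  have hq0 : (0 : ℝ) < q := by linarith
  set At := scM n q az with hAt
  set X := scM n q xz with hX
  set Y := (2 • (1 : Matrix (Fin n) (Fin n) ℝ) - X * At) * X with hY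
  have hres : res n q az xz = 1 - X * At := rfl
  rw [hres] at hρ
  -- norm of X
  have hXA : ‖X * At‖ ≤ 2 := by
    have e : X * At = 1 - (1 - X * At) := by noncomm_ring
    rcases Nat.eq_zero_or_pos n with h0 | h0
    · subst h0
      have : X * At = 0 := Subsingleton.elim _ _
      rw [this, norm_zero]
      norm_num
    · have : Nonempty (Fin n) := ⟨⟨0, h0⟩⟩
      rw [e]
      refine (norm_sub_le _ _).trans ?_
      have h1 : ‖(1 : Matrix (Fin n) (Fin n) ℝ)‖ ≤ 1 := by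
        refine norm_le_of_forall zero_le_one fun v => ?_
        rw [Matrix.one_mulVec, one_mul]
      linarith
  have hXn : ‖X‖ ≤ 2 / s := by
    have := norm_le_of_lower hs hlow (X := X)
    rw [le_div_iff₀ hs]
    linarith
  have hYn : ‖Y‖ ≤ 4 / s := by
    have e : (2 • (1 : Matrix (Fin n) (Fin n) ℝ) - X * At) = 1 + (1 - X * At) := by
      rw [two_smul]
      abel
    have h1 : ‖(1 : Matrix (Fin n) (Fin n) ℝ) + (1 - X * At)‖ ≤ 2 := by
      refine (norm_add_le _ _).trans ?_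
      have h1 : ‖(1 : Matrix (Fin n) (Fin n) ℝ)‖ ≤ 1 := by
        refine norm_le_of_forall zero_le_one fun v => ?_
        rw [Matrix.one_mulVec, one_mul]
      linarith
    rw [hY, e]
    refine (norm_mul_le _ _).trans ?_
    have : (4 : ℝ) / s = 2 * (2 / s) := by ring
    rw [this]
    exact mul_le_mul h1 hXn (norm_nonneg _) (by norm_num)
  -- the unrounded entries
  have hW : toM n (prodZ n (pz n q az xz) xz) = ((q : ℝ) ^ 3) • Y := by
    rw [toM_prodZ, toM_pz, hY, hX, hAt]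
    have e1 : toM n xz = (q : ℝ) • scM n q xz := by
      rw [scM, smul_smul, mul_inv_cancel₀ hq0.ne', one_smul]
    have e2 : toM n az = (q : ℝ) • scM n q az := by
      rw [scM, smul_smul, mul_inv_cancel₀ hq0.ne', one_smul]
    rw [e1, e2]
    simp only [Matrix.smul_mul, Matrix.mul_smul, smul_smul, Matrix.sub_mul, Matrix.one_mul,
      two_smul, Matrix.add_mul, smul_sub, smul_add]
    module
  have hfl : ∀ i j : Fin n, newt n q az xz i j = ⌊(q : ℝ) * Y i j⌋ := by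
    intro i j
    have h1 : ((prodZ n (pz n q az xz) xz i j : ℤ) : ℝ) = (q : ℝ) ^ 3 * Y i j := by
      have := congrFun (congrFun hW i) j
      rwa [toM_apply, Matrix.smul_apply, smul_eq_mul] at this
    have h2 : ((prodZ n (pz n q az xz) xz i j : ℤ) : ℝ) / (q : ℝ) ^ 2 = q * Y i j := by
      rw [h1]
      field_simp
    have h3 : |(q : ℝ) * Y i j| ≤ (q : ℝ) ^ 3 := by
      rw [abs_mul, abs_of_pos hq0]
      have h4 := (abs_entry_le Y i j).trans (hYn.trans hqs)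
      have : (q : ℝ) ^ 3 = q * q ^ 2 := by ring
      rw [this]
      exact mul_le_mul_of_nonneg_left h4 hq0.le
    obtain ⟨h5, h6⟩ := abs_le.1 h3
    unfold newt
    rw [h2]
    have h7 : ⌊(q : ℝ) * Y i j⌋ ≤ q ^ 3 := by
      have : ((⌊(q : ℝ) * Y i j⌋ : ℤ) : ℝ) ≤ ((q ^ 3 : ℤ) : ℝ) := by
        push_cast
        exact (Int.floor_le _).trans h6
      exact_mod_cast this
    have h8 : -q ^ 3 ≤ ⌊(q : ℝ) * Y i j⌋ := by
      apply Int.le_floor.2
      push_cast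
      exact h5
    rw [min_eq_right h7, max_eq_right h8]
  have hE : ∀ i j : Fin n, |(scM n q (newt n q az xz) - Y) i j| ≤ 1 / q := by
    intro i j
    rw [Matrix.sub_apply, scM, Matrix.smul_apply, toM_apply, hfl, smul_eq_mul]
    have h1 := Int.floor_le ((q : ℝ) * Y i j)
    have h2 := Int.lt_floor_add_one ((q : ℝ) * Y i j)
    have e : (q : ℝ)⁻¹ * (⌊(q : ℝ) * Y i j⌋ : ℝ) - Y i j =
        (⌊(q : ℝ) * Y i j⌋ - q * Y i j) / q := by
      field_simp
    rw [e, abs_div, abs_of_pos hq0]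
    apply div_le_div_of_nonneg_right _ hq0.le
    rw [abs_le]
    constructor <;> linarith
  have hEn := norm_le_of_entries (by positivity) hE
  have e : res n q az (newt n q az xz) = (1 - X * At) * (1 - X * At) -
      (scM n q (newt n q az xz) - Y) * At := by
    rw [res, hY, ← hAt, two_smul]
    noncomm_ring
  rw [e]
  refine (norm_sub_le _ _).trans (add_le_add ?_ ?_)
  · refine (norm_mul_le _ _).trans ?_
    rw [sq]
    exact mul_le_mul hρ hρ (norm_nonneg _) ((norm_nonneg _).trans hρ)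
  · refine (norm_mul_le _ _).trans ?_
    calc ‖scM n q (newt n q az xz) - Y‖ * ‖At‖ ≤ (n * (1 / q)) * 1 :=
          mul_le_mul hEn hA (norm_nonneg _) (by positivity)
      _ = n / q := by ring

/-- completeness of the certificate, for the rounded matrix -/
theorem cert_complete {n L : ℕ} (hn : 1 ≤ n) {az : ℕ → ℕ → ℤ} {s : ℝ} (hs : 0 < s) (hs1 : s ≤ 1)
    (hA : ‖scM n (2 ^ L) az‖ ≤ 1) (hlow : ∀ v, s * nrm v ≤ nrm (scM n (2 ^ L) az *ᵥ v))
    (hL : 16 * (n : ℝ) ^ 3 ≤ s ^ 2 * 2 ^ L) :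
    certV n (2 ^ L) az ((newt n (2 ^ L) az)^[8 * L] (fun i j => az j i)) ≤ 1 / 2 := by
  have hq : (1 : ℤ) ≤ 2 ^ L := one_le_pow₀ (by norm_num)
  have hqr : ((2 ^ L : ℤ) : ℝ) = 2 ^ L := by push_cast; rfl
  set Q : ℝ := 2 ^ L with hQ
  have hQ1 : (1 : ℝ) ≤ Q := one_le_pow₀ (by norm_num)
  have hQ0 : (0 : ℝ) < Q := by linarith
  have hn1 : (1 : ℝ) ≤ n := by exact_mod_cast hn
  have hn3 : (1 : ℝ) ≤ (n : ℝ) ^ 3 := one_le_pow₀ hn1
  have hnn3 : (n : ℝ) ≤ (n : ℝ) ^ 3 := le_self_pow₀ hn1 (by norm_num)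
  have hs2 : s ^ 2 ≤ 1 := by nlinarith
  have hs20 : 0 < s ^ 2 := by positivity
  have hδ : (n : ℝ) / Q ≤ s ^ 2 / 16 := by
    rw [div_le_iff₀ hQ0]
    nlinarith
  have hδ0 : 0 ≤ (n : ℝ) / Q := by positivity
  have hqs : 4 / s ≤ ((2 ^ L : ℤ) : ℝ) ^ 2 := by
    rw [hqr, div_le_iff₀ hs]
    have h1 : 16 ≤ s ^ 2 * Q := by nlinarith
    have h2 : s ^ 2 * Q ≤ s * Q := by nlinarith
    have h3 : s * Q ≤ Q ^ 2 * s := by nlinarith [mul_le_mul_of_nonneg_left hQ1 hQ0.le]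
    linarith
  set x : ℕ → ℕ → ℕ → ℤ := fun k => (newt n (2 ^ L) az)^[k] (fun i j => az j i) with hx
  have hx1 : ∀ k, x (k + 1) = newt n (2 ^ L) az (x k) := fun k =>
    Function.iterate_succ_apply' _ _ _
  have hstep : ∀ k (ρ : ℝ), ‖res n (2 ^ L) az (x k)‖ ≤ ρ → ρ ≤ 1 →
      ‖res n (2 ^ L) az (x (k + 1))‖ ≤ ρ ^ 2 + n / Q := by
    intro k ρ h1 h2
    rw [hx1]
    have := newt_step hq hs hA hlow h1 h2 hqs
    rwa [hqr] at this
  -- the first residual
  have h0 : ‖res n (2 ^ L) az (x 0)‖ ≤ 1 - s ^ 2 := by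
    have e : scM n (2 ^ L) (x 0) = (scM n (2 ^ L) az)ᵀ := by
      ext i j
      rfl
    rw [res, e]
    exact norm_one_sub_le hA hs2 hs.le hlow
  -- first phase
  have hph1 : ∀ k, ‖res n (2 ^ L) az (x k)‖ ≤ 1 - min ((5 / 4) ^ k * s ^ 2) (1 / 2) := by
    intro k
    induction k with
    | zero =>
      refine h0.trans ?_
      have := min_le_left ((5 / 4 : ℝ) ^ 0 * s ^ 2) (1 / 2)
      simp only [pow_zero, one_mul] at this ⊢
      linarith
    | succ k ih =>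
      set g := min ((5 / 4 : ℝ) ^ k * s ^ 2) (1 / 2) with hg
      have g1 : g ≤ 1 / 2 := min_le_right _ _
      have g0 : min (s ^ 2) (1 / 2) ≤ g := by
        refine min_le_min_right _ ?_
        have : (1 : ℝ) ≤ (5 / 4) ^ k := one_le_pow₀ (by norm_num)
        nlinarith
      have g2 : s ^ 2 / 2 ≤ g := by
        refine le_trans ?_ g0
        exact le_min (by linarith) (by linarith)
      have h1 := hstep k (1 - g) ih (by linarith)
      have h2 : (1 - g) ^ 2 + (n : ℝ) / Q ≤ 1 - 5 / 4 * g := by nlinarith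
      refine h1.trans (h2.trans ?_)
      have h3 : min ((5 / 4 : ℝ) ^ (k + 1) * s ^ 2) (1 / 2) ≤ 5 / 4 * g := by
        rw [hg, mul_min_of_nonneg _ _ (by norm_num : (0 : ℝ) ≤ 5 / 4)]
        refine min_le_min (le_of_eq (by ring)) (by norm_num)
      linarith
  have hph1' : ‖res n (2 ^ L) az (x (4 * L))‖ ≤ 1 / 2 := by
    refine (hph1 (4 * L)).trans ?_
    have h1 : 1 / 2 ≤ (5 / 4 : ℝ) ^ (4 * L) * s ^ 2 := by
      have h2 : Q ≤ (5 / 4 : ℝ) ^ (4 * L) := by
        rw [hQ, pow_mul]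
        exact pow_le_pow_left₀ (by norm_num) (by norm_num) L
      nlinarith
    rw [min_eq_right h1]
    norm_num
  -- second phase
  have hph2 : ∀ k, ‖res n (2 ^ L) az (x (4 * L + k))‖ ≤ 1 / 2 ∧
      ‖res n (2 ^ L) az (x (4 * L + k))‖ ≤ (1 / 2) ^ (k + 1) + 2 * (n / Q) := by
    intro k
    induction k with
    | zero =>
      refine ⟨hph1', ?_⟩
      have : ‖res n (2 ^ L) az (x (4 * L + 0))‖ ≤ 1 / 2 := hph1'
      simp only [zero_add, pow_one]
      linarith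
    | succ k ih =>
      obtain ⟨h1, h2⟩ := ih
      have h3 := hstep (4 * L + k) _ le_rfl (by linarith)
      have h4 := norm_nonneg (res n (2 ^ L) az (x (4 * L + k)))
      rw [← add_assoc]
      constructor
      · refine h3.trans ?_
        nlinarith
      · refine h3.trans ?_
        have h5 : ((1 : ℝ) / 2) ^ (k + 1 + 1) = (1 / 2) ^ (k + 1) / 2 := by
          rw [pow_succ]
          ring
        rw [h5]
        nlinarith
  obtain ⟨-, hfin⟩ := hph2 (4 * L)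
  have e8 : 4 * L + 4 * L = 8 * L := by ring
  rw [e8] at hfin
  set R := res n (2 ^ L) az (x (8 * L)) with hR
  have hp : ((1 : ℝ) / 2) ^ (4 * L + 1) ≤ n / Q := by
    have h1 : ((1 : ℝ) / 2) ^ (4 * L + 1) ≤ (1 / 2) ^ L :=
      pow_le_pow_of_le_one (by norm_num) (by norm_num) (by omega)
    have h2 : ((1 : ℝ) / 2) ^ L = 1 / Q := by
      rw [hQ, _root_.one_div_pow]
    rw [h2] at h1
    refine h1.trans ?_
    exact div_le_div_of_nonneg_right hn1 hQ0.le
  have hRn : ‖R‖ ≤ 3 * (n / Q) := by linarith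
  have hRn1 : ‖R‖ ≤ 1 := by linarith
  -- norm of the approximate inverse
  have hXn : ‖scM n (2 ^ L) (x (8 * L))‖ ≤ 2 / s := by
    have h1 := norm_le_of_lower hs hlow (X := scM n (2 ^ L) (x (8 * L)))
    have h2 : ‖scM n (2 ^ L) (x (8 * L)) * scM n (2 ^ L) az‖ ≤ 2 := by
      have e : scM n (2 ^ L) (x (8 * L)) * scM n (2 ^ L) az = 1 - R := by
        rw [hR, res]
        noncomm_ring
      rw [e]
      refine (norm_sub_le _ _).trans ?_
      have h1 : ‖(1 : Matrix (Fin n) (Fin n) ℝ)‖ ≤ 1 := by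
        refine norm_le_of_forall zero_le_one fun v => ?_
        rw [Matrix.one_mulVec, one_mul]
      linarith
    rw [le_div_iff₀ hs]
    linarith
  have hsum : ∀ M : Matrix (Fin n) (Fin n) ℝ, ∑ i, ∑ j, |M i j| ≤ (n : ℝ) ^ 2 * ‖M‖ := by
    intro M
    calc ∑ i, ∑ j, |M i j| ≤ ∑ _i : Fin n, ∑ _j : Fin n, ‖M‖ :=
          Finset.sum_le_sum fun i _ => Finset.sum_le_sum fun j _ => abs_entry_le M i j
      _ = (n : ℝ) ^ 2 * ‖M‖ := by simp; ring
  change certV n (2 ^ L) az (x (8 * L)) ≤ 1 / 2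
  rw [certV_eq hq, hqr]
  have h1 := hsum R
  have h2 := hsum (scM n (2 ^ L) (x (8 * L)))
  have e1 : ∑ i : Fin n, ∑ j : Fin n, |R i j| ≤ 3 / 16 := by
    refine h1.trans ?_
    have h3 : (n : ℝ) ^ 2 * ‖R‖ ≤ (n : ℝ) ^ 2 * (3 * (n / Q)) :=
      mul_le_mul_of_nonneg_left hRn (by positivity)
    refine h3.trans ?_
    have e : (n : ℝ) ^ 2 * (3 * (n / Q)) = 3 * (n : ℝ) ^ 3 / Q := by ring
    rw [e, div_le_iff₀ hQ0]
    nlinarith
  have e2 : (∑ i : Fin n, ∑ j : Fin n, |scM n (2 ^ L) (x (8 * L)) i j|) * (n / Q) ≤ 1 / 8 := by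
    have h3 : (∑ i : Fin n, ∑ j : Fin n, |scM n (2 ^ L) (x (8 * L)) i j|) * (n / Q) ≤
        ((n : ℝ) ^ 2 * (2 / s)) * (n / Q) :=
      mul_le_mul_of_nonneg_right (h2.trans (mul_le_mul_of_nonneg_left hXn (by positivity))) hδ0
    refine h3.trans ?_
    have e : ((n : ℝ) ^ 2 * (2 / s)) * (n / Q) = 2 * (n : ℝ) ^ 3 / (s * Q) := by
      field_simp
    rw [e, div_le_iff₀ (by positivity)]
    have h4 : s ^ 2 * Q ≤ s * Q := by nlinarith
    linarith
  linarith

end Pool.Agent.Y541
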