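import Pool.Agent.Y541.Offord

/-!
# The number of badly conditioned matrices
-/

set_option autoImplicit false

namespace Pool.Agent.Y541.Two

open Finset

variable {n : ℕ} {u v : ℝ}

theorem exists_normal (u v : ℝ) (k : Fin n) (g : {j // j ≠ k} → Fin n → Bool) :
    ∃ w : Fin n → ℝ, (∀ j, S u v w (g j) = 0) ∧ (∀ i, |w i| ≤ 1) ∧ ∃ i, |w i| = 1 := by
  classical
  set N : Matrix (Fin n) (Fin n) ℝ :=
    Matrix.of fun j i => if h : j ≠ k then val u v (g ⟨j, h⟩ i) else 0 with hN
  have hdet : N.det = 0 := Matrix.det_eq_zero_of_row_eq_zero k (fun j => by simp [hN])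
  obtain ⟨w, hw0, hw⟩ := Matrix.exists_mulVec_eq_zero_iff.2 hdet
  obtain ⟨i0, -, hi0⟩ := Finset.exists_max_image (univ : Finset (Fin n)) (fun i => |w i|)
    ⟨k, mem_univ _⟩
  have hpos : 0 < |w i0| := by
    by_contra hcon
    apply hw0
    funext i
    have h1 := hi0 i (mem_univ _)
    have h2 := abs_nonneg (w i)
    have h3 : |w i| = 0 := by linarith
    simpa using h3
  refine ⟨fun i => w i / |w i0|, fun j => ?_, fun i => ?_, i0, ?_⟩
  · have h1 := congrFun hw j
    simp only [Matrix.mulVec, dotProduct, hN, Matrix.of_apply, Pi.zero_apply] at h1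
    have h2 : S u v w (g j) = 0 := by
      rw [← h1]
      unfold S
      refine Finset.sum_congr rfl fun i _ => ?_
      rw [dif_pos j.2]
    have h3 : S u v (fun i => w i / |w i0|) (g j) = S u v w (g j) / |w i0| := by
      unfold S
      rw [Finset.sum_div]
      exact Finset.sum_congr rfl fun i _ => by ring
    rw [h3, h2, zero_div]
  · rw [abs_div, abs_abs, div_le_one hpos]
    exact hi0 i (mem_univ _)
  · rw [abs_div, abs_abs, div_self hpos.ne']

/-- a normal vector to the other columns -/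
noncomputable def nv (u v : ℝ) (k : Fin n) (g : {j // j ≠ k} → Fin n → Bool) : Fin n → ℝ :=
  (exists_normal u v k g).choose

theorem nv_spec (u v : ℝ) (k : Fin n) (g : {j // j ≠ k} → Fin n → Bool) :
    (∀ j, S u v (nv u v k g) (g j) = 0) ∧ (∀ i, |nv u v k g i| ≤ 1) ∧
      ∃ i, |nv u v k g i| = 1 :=
  (exists_normal u v k g).choose_spec

/-- the columns with indices different from `k` -/
def oth (k : Fin n) (X : Fin n → Fin n → Bool) : {j // j ≠ k} → Fin n → Bool := fun j => X j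

/-- the number of matrices such that the normal vector is spread, and almost orthogonal to the
column `k` -/
theorem spread_count (hn : 1 ≤ n) (huv : 1 ≤ |v - u|) (q : ℕ) (k : Fin n) :
    (#{X : Fin n → Fin n → Bool |
      2 * q ≤ #{i | 1 / ((8 * n : ℕ) : ℝ) ≤ |nv u v k (oth k X) i|} ∧
      |S u v (nv u v k (oth k X)) (X k)| ≤ 1 / (32 * n)}) ^ 2 * (2 * q + 1) ≤
      ((2 ^ n) ^ n) ^ 2 := by
  classical
  have hn' : (1 : ℝ) ≤ n := by exact_mod_cast hn
  set B : Finset (Fin n → Fin n → Bool) := {X : Fin n → Fin n → Bool |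
      2 * q ≤ #{i | 1 / ((8 * n : ℕ) : ℝ) ≤ |nv u v k (oth k X) i|} ∧
      |S u v (nv u v k (oth k X)) (X k)| ≤ 1 / (32 * n)} with hB
  set D := Nat.sqrt ((2 ^ n) ^ 2 / (2 * q + 1)) with hD
  have hfib : ∀ a ∈ B.image (oth k), #{X ∈ B | oth k X = a} ≤ D := by
    intro a ha
    obtain ⟨X0, hX0, rfl⟩ := Finset.mem_image.1 ha
    have hX0' := (mem_filter.1 hX0).2
    set w := nv u v k (oth k X0) with hw
    have h1 : #{X ∈ B | oth k X = oth k X0} ≤ #{c : Fin n → Bool | |S u v w c| ≤ 1 / (32 * n)} := by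
      refine Finset.card_le_card_of_injOn (fun X => X k) ?_ ?_
      · intro X hX
        have hX1 := (mem_filter.1 (mem_coe.1 hX))
        have hX2 := (mem_filter.1 hX1.1).2.2
        rw [hX1.2] at hX2
        simpa using hX2
      · intro X hX Y hY hXY
        have hX1 := (mem_filter.1 (mem_coe.1 hX)).2
        have hY1 := (mem_filter.1 (mem_coe.1 hY)).2
        funext j
        by_cases hj : j = k
        · subst hj
          exact hXY
        · exact congrFun (hX1.trans hY1.symm) ⟨j, hj⟩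
    have h2 := offord (u := u) (v := v) (w := w) (η := 1 / ((8 * n : ℕ) : ℝ))
      (t := 1 / (32 * n)) (q := q) (by positivity) (by linarith) (by
        have e1 : 2 * (1 / (32 * (n : ℝ))) = 1 / (16 * n) := by
          field_simp
          norm_num
        have e2 : 1 / (16 * (n : ℝ)) < 1 / ((8 * n : ℕ) : ℝ) := by
          push_cast
          exact one_div_lt_one_div_of_lt (by positivity) (by linarith)
        have e3 : 0 < 1 / ((8 * n : ℕ) : ℝ) := by positivity
        rw [e1]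
        nlinarith) hX0'.1
    refine h1.trans ?_
    rw [hD, Nat.le_sqrt', Nat.le_div_iff_mul_le (by positivity)]
    exact h2
  have h1 : #B ≤ D * #(B.image (oth k)) := Finset.card_le_mul_card_image B _ hfib
  have h2 : #(B.image (oth k)) ≤ (2 ^ n) ^ (n - 1) := by
    refine (Finset.card_le_univ _).trans (le_of_eq ?_)
    rw [Fintype.card_fun, Fintype.card_fun, Fintype.card_bool, Fintype.card_fin]
    congr 1
    rw [Fintype.card_subtype_compl, Fintype.card_fin]
    simp
  have h3 : D ^ 2 * (2 * q + 1) ≤ (2 ^ n) ^ 2 := by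
    have := Nat.sqrt_le' ((2 ^ n) ^ 2 / (2 * q + 1))
    calc D ^ 2 * (2 * q + 1) ≤ ((2 ^ n) ^ 2 / (2 * q + 1)) * (2 * q + 1) :=
          Nat.mul_le_mul_right _ this
      _ ≤ (2 ^ n) ^ 2 := Nat.div_mul_le_self _ _
  calc (#B) ^ 2 * (2 * q + 1) ≤ (D * (2 ^ n) ^ (n - 1)) ^ 2 * (2 * q + 1) :=
        Nat.mul_le_mul_right _ (Nat.pow_le_pow_left (h1.trans (Nat.mul_le_mul_left _ h2)) 2)
    _ = (D ^ 2 * (2 * q + 1)) * ((2 ^ n) ^ (n - 1)) ^ 2 := by ring
    _ ≤ (2 ^ n) ^ 2 * ((2 ^ n) ^ (n - 1)) ^ 2 := Nat.mul_le_mul_right _ h3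
    _ = ((2 ^ n) ^ n) ^ 2 := by
        rw [← mul_pow, ← pow_succ']
        congr 3
        omega

/-- if a vector with a large coordinate `k` is mapped to a small one then the normal vector is almost
orthogonal to the column `k` -/
theorem small_of_large (hn : 1 ≤ n) {X : Fin n → Fin n → Bool} {x : Fin n → ℝ}
    (hx : ∀ i, |∑ j, val u v (X j i) * x j| ≤ 1 / (256 * (n : ℝ) ^ 3)) {k : Fin n}
    (hk : 1 / ((8 * n : ℕ) : ℝ) ≤ |x k|) :
    |S u v (nv u v k (oth k X)) (X k)| ≤ 1 / (32 * n) := by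
  have hn' : (1 : ℝ) ≤ n := by exact_mod_cast hn
  obtain ⟨h1, h2, -⟩ := nv_spec u v k (oth k X)
  set w := nv u v k (oth k X) with hw
  have h3 : ∑ i, w i * ∑ j, val u v (X j i) * x j = S u v w (X k) * x k := by
    calc ∑ i, w i * ∑ j, val u v (X j i) * x j = ∑ i, ∑ j, w i * (val u v (X j i) * x j) := by
          exact Finset.sum_congr rfl fun i _ => Finset.mul_sum _ _ _
      _ = ∑ j, ∑ i, w i * (val u v (X j i) * x j) := Finset.sum_comm
      _ = ∑ j, S u v w (X j) * x j := by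
          refine Finset.sum_congr rfl fun j _ => ?_
          unfold S
          rw [Finset.sum_mul]
          exact Finset.sum_congr rfl fun i _ => by ring
      _ = S u v w (X k) * x k := by
          refine Finset.sum_eq_single k (fun j _ hj => ?_) (by simp)
          have : S u v w (X j) = 0 := h1 ⟨j, hj⟩
          rw [this, zero_mul]
  have h4 : |∑ i, w i * ∑ j, val u v (X j i) * x j| ≤ n * (1 / (256 * (n : ℝ) ^ 3)) := by
    refine (Finset.abs_sum_le_sum_abs _ _).trans ?_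
    calc ∑ i, |w i * ∑ j, val u v (X j i) * x j| ≤ ∑ _i : Fin n, 1 / (256 * (n : ℝ) ^ 3) := by
          refine Finset.sum_le_sum fun i _ => ?_
          rw [abs_mul]
          have := mul_le_mul (h2 i) (hx i) (abs_nonneg _) zero_le_one
          linarith
      _ = _ := by rw [Finset.sum_const, Finset.card_univ, Fintype.card_fin, nsmul_eq_mul]
  rw [h3, abs_mul] at h4
  have h5 : |S u v w (X k)| * (1 / ((8 * n : ℕ) : ℝ)) ≤ n * (1 / (256 * (n : ℝ) ^ 3)) :=
    (mul_le_mul_of_nonneg_left hk (abs_nonneg _)).trans h4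
  have h6 : |S u v w (X k)| = (|S u v w (X k)| * (1 / ((8 * n : ℕ) : ℝ))) * (8 * n) := by
    push_cast
    field_simp
  rw [h6]
  calc (|S u v w (X k)| * (1 / ((8 * n : ℕ) : ℝ))) * (8 * n) ≤
      (n * (1 / (256 * (n : ℝ) ^ 3))) * (8 * n) := mul_le_mul_of_nonneg_right h5 (by positivity)
    _ = 1 / (32 * n) := by
      field_simp
      norm_num

/-- **The number of badly conditioned matrices** -/
theorem count (hn : 1 ≤ n) (hu : |u| ≤ 1) (hv : |v| ≤ 1) (huv : 1 ≤ |v - u|) (q : ℕ)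
    (B : Finset (Fin n → Fin n → Bool))
    (hB : ∀ X ∈ B, ∃ x : Fin n → ℝ, (∃ i, |x i| = 1) ∧ (∀ i, |x i| ≤ 1) ∧
      ∀ i, |∑ j, val u v (X j i) * x j| ≤ 1 / (256 * (n : ℝ) ^ 3)) :
    (#B : ℝ) ≤ (2 ^ n) ^ n * ((n * (2 * (8 * n) + 1)) ^ (2 * q) / 2 ^ n +
      n / (2 * q + 1) * (2 * (n * (2 * (8 * n) + 1)) ^ (2 * q) / 2 ^ n +
        1 / Real.sqrt (2 * q + 1))) := by
  classical
  have hn' : (1 : ℝ) ≤ n := by exact_mod_cast hn
  set N : ℕ := (n * (2 * (8 * n) + 1)) ^ (2 * q) with hN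
  set Y : ℕ := (2 ^ n) ^ n with hY
  set P : (Fin n → Fin n → Bool) → Fin n → Prop := fun X k =>
    |S u v (nv u v k (oth k X)) (X k)| ≤ 1 / (32 * n) with hP
  set B1 : Finset (Fin n → Fin n → Bool) := {X | ∃ w : Fin n → ℝ, Comp (2 * q) w ∧
    ∀ i ∈ (univ : Finset (Fin n)), |S u v w (fun j => X j i)| ≤ 1 / 8} with hB1
  set B2 : Fin n → Finset (Fin n → Fin n → Bool) := fun k => {X | ∃ w : Fin n → ℝ,
    Comp (2 * q) w ∧ ∀ j ∈ (univ : Finset (Fin n)).erase k, |S u v w (X j)| ≤ 1 / 8} with hB2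
  set B3 : Fin n → Finset (Fin n → Fin n → Bool) := fun k => {X : Fin n → Fin n → Bool |
      2 * q ≤ #{i | 1 / ((8 * n : ℕ) : ℝ) ≤ |nv u v k (oth k X) i|} ∧ P X k} with hB3
  set B4 : Finset (Fin n → Fin n → Bool) := {X | 2 * q + 1 ≤ #{k | P X k}} with hB4
  -- the inclusion
  have hsub : B ⊆ B1 ∪ B4 := by
    intro X hX
    obtain ⟨x, hx1, hx2, hx3⟩ := hB X hX
    rw [mem_union]
    by_cases hc : #{i | 1 / ((8 * n : ℕ) : ℝ) ≤ |x i|} ≤ 2 * q
    · left
      simp only [hB1, mem_filter, mem_univ, true_and]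
      refine ⟨x, ⟨hx1, hx2, hc⟩, fun i _ => (hx3 i).trans ?_⟩
      have h3 : (1 : ℝ) ≤ (n : ℝ) ^ 3 := one_le_pow₀ hn'
      exact one_div_le_one_div_of_le (by norm_num) (by linarith)
    · right
      simp only [hB4, mem_filter, mem_univ, true_and]
      have h3 : 2 * q + 1 ≤ #{i | 1 / ((8 * n : ℕ) : ℝ) ≤ |x i|} := by omega
      refine h3.trans (Finset.card_le_card fun k hk => ?_)
      simp only [mem_filter, mem_univ, true_and] at hk ⊢
      exact small_of_large hn hx3 hk
  -- the first set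
  have h1 : 2 ^ n * #B1 ≤ N * Y := by
    have e1 : #B1 = #(B1.image fun X i j => X j i) := by
      rw [Finset.card_image_of_injective]
      intro X Z h
      funext i j
      exact congrFun (congrFun h j) i
    have e2 : #(univ : Finset (Fin n)) = n := by simp
    have := comp_count (m := 2 * q) hn hu hv huv univ (B1.image fun X i j => X j i) (by
      intro Z hZ
      obtain ⟨X, hX, rfl⟩ := Finset.mem_image.1 hZ
      simpa [hB1] using hX)
    rw [e2, ← e1] at this
    exact this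
  -- the second sets
  have h2 : ∀ k, 2 ^ n * #(B2 k) ≤ 2 * (N * Y) := by
    intro k
    have e2 : #((univ : Finset (Fin n)).erase k) = n - 1 := by simp
    have := comp_count (m := 2 * q) hn hu hv huv ((univ : Finset (Fin n)).erase k) (B2 k) (by
      intro X hX
      simpa [hB2] using hX)
    rw [e2] at this
    have e3 : 2 ^ n = 2 * 2 ^ (n - 1) := by
      rw [← pow_succ']
      congr 1
      omega
    rw [e3, mul_assoc]
    exact Nat.mul_le_mul_left _ this
  -- the third sets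
  have h3 : ∀ k, (#(B3 k) : ℝ) ≤ Y / Real.sqrt (2 * q + 1) := by
    intro k
    have h4 : #(B3 k) ^ 2 * (2 * q + 1) ≤ Y ^ 2 := spread_count (u := u) (v := v) hn huv q k
    generalize #(B3 k) = z at h4 ⊢
    have h5 : (z : ℝ) ^ 2 * (2 * q + 1) ≤ (Y : ℝ) ^ 2 := by exact_mod_cast h4
    have h6 : (0 : ℝ) < 2 * q + 1 := by positivity
    rw [le_div_iff₀ (Real.sqrt_pos.2 h6)]
    refine le_of_sq_le_sq ?_ (by positivity)
    rw [mul_pow, Real.sq_sqrt h6.le]
    exact h5
  -- the fourth set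
  have h4 : (2 * q + 1) * #B4 ≤ ∑ k, (#(B2 k) + #(B3 k)) := by
    have e1 : (2 * q + 1) * #B4 ≤ ∑ X ∈ B4, #{k | P X k} := by
      have := Finset.card_nsmul_le_sum B4 (fun X => #{k | P X k}) (2 * q + 1)
        (fun X hX => (mem_filter.1 hX).2)
      rw [smul_eq_mul] at this
      rw [mul_comm]
      exact this
    have e2 : ∑ X ∈ B4, #{k | P X k} ≤ ∑ X : Fin n → Fin n → Bool, #{k | P X k} :=
      Finset.sum_le_sum_of_subset (Finset.subset_univ _)
    have e3 : ∑ X : Fin n → Fin n → Bool, #{k | P X k} =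
        ∑ k, #{X : Fin n → Fin n → Bool | P X k} := by
      simp only [Finset.card_filter]
      exact Finset.sum_comm
    have e4 : ∀ k, #{X : Fin n → Fin n → Bool | P X k} ≤ #(B2 k) + #(B3 k) := by
      intro k
      refine le_trans (Finset.card_le_card ?_) (Finset.card_union_le _ _)
      intro X hX
      have hX' : P X k := (mem_filter.1 hX).2
      obtain ⟨w1, w2, w3⟩ := nv_spec u v k (oth k X)
      rw [mem_union]
      by_cases hc : #{i | 1 / ((8 * n : ℕ) : ℝ) ≤ |nv u v k (oth k X) i|} ≤ 2 * q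
      · left
        simp only [hB2, mem_filter, mem_univ, true_and]
        refine ⟨nv u v k (oth k X), ⟨w3, w2, hc⟩, fun j hj => ?_⟩
        have hj' : j ≠ k := (Finset.mem_erase.1 hj).1
        have : S u v (nv u v k (oth k X)) (X j) = 0 := w1 ⟨j, hj'⟩
        rw [this, abs_zero]
        norm_num
      · right
        simp only [hB3, mem_filter, mem_univ, true_and]
        exact ⟨by omega, hX'⟩
    exact e1.trans (e2.trans (e3.trans_le (Finset.sum_le_sum fun k _ => e4 k)))
  -- the final calculation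
  have r1 : (#B1 : ℝ) ≤ Y * (N / 2 ^ n) := by
    have : (2 : ℝ) ^ n * #B1 ≤ N * Y := by exact_mod_cast h1
    rw [mul_div_assoc', le_div_iff₀ (by positivity)]
    linarith
  have r2 : ∀ k, (#(B2 k) : ℝ) ≤ Y * (2 * N / 2 ^ n) := by
    intro k
    have : (2 : ℝ) ^ n * #(B2 k) ≤ 2 * (N * Y) := by exact_mod_cast h2 k
    rw [mul_div_assoc', le_div_iff₀ (by positivity)]
    linarith
  have r4 : (#B4 : ℝ) ≤ Y * (n / (2 * q + 1) * (2 * N / 2 ^ n + 1 / Real.sqrt (2 * q + 1))) := by
    have e1 : ((2 * q + 1 : ℝ)) * #B4 ≤ ∑ k : Fin n, ((#(B2 k) : ℝ) + #(B3 k)) := by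
      exact_mod_cast h4
    have e2 : ∑ k : Fin n, ((#(B2 k) : ℝ) + #(B3 k)) ≤
        ∑ _k : Fin n, (Y * (2 * N / 2 ^ n) + Y / Real.sqrt (2 * q + 1)) :=
      Finset.sum_le_sum fun k _ => add_le_add (r2 k) (h3 k)
    rw [Finset.sum_const, Finset.card_univ, Fintype.card_fin, nsmul_eq_mul] at e2
    have e3 : (Y : ℝ) * (n / (2 * q + 1) * (2 * N / 2 ^ n + 1 / Real.sqrt (2 * q + 1))) =
        (n * (Y * (2 * N / 2 ^ n) + Y / Real.sqrt (2 * q + 1))) / (2 * q + 1) := by
      ring
    rw [e3, le_div_iff₀ (by positivity)]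
    linarith
  have r0 : (#B : ℝ) ≤ #B1 + #B4 := by
    exact_mod_cast (Finset.card_le_card hsub).trans (Finset.card_union_le _ _)
  have eY : ((2 : ℝ) ^ n) ^ n = (Y : ℝ) := by
    rw [hY]
    push_cast
    rfl
  have eN : ((n : ℝ) * (2 * (8 * n) + 1)) ^ (2 * q) = (N : ℝ) := by
    rw [hN]
    push_cast
    rfl
  rw [eY, eN]
  calc (#B : ℝ) ≤ Y * (N / 2 ^ n) +
      Y * (n / (2 * q + 1) * (2 * N / 2 ^ n + 1 / Real.sqrt (2 * q + 1))) :=
        r0.trans (add_le_add r1 r4)
    _ = _ := by ring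

end Pool.Agent.Y541.Two
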