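import Pool.Agent.Y541.Norms

/-!
# Singular values and the Euclidean norm
-/

set_option autoImplicit false

namespace Pool.Agent.Y541

open Finset Matrix Module InnerProductSpace

theorem sq_norm_apply {n : ℕ} (T : EuclideanSpace ℝ (Fin n) →ₗ[ℝ] EuclideanSpace ℝ (Fin n))
    (hn : finrank ℝ (EuclideanSpace ℝ (Fin n)) = n) (v : EuclideanSpace ℝ (Fin n)) :
    ‖T v‖ ^ 2 = ∑ i : Fin n, T.singularValues i ^ 2 *
      ((T.isSymmetric_adjoint_comp_self.eigenvectorBasis hn).repr v i) ^ 2 := by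
  set b := T.isSymmetric_adjoint_comp_self.eigenvectorBasis hn with hb
  have h1 : ‖T v‖ ^ 2 = ⟪(T.adjoint ∘ₗ T) v, v⟫_ℝ := by
    rw [LinearMap.comp_apply, LinearMap.adjoint_inner_left, real_inner_self_eq_norm_sq]
  rw [h1, ← b.repr.inner_map_map, PiLp.inner_apply]
  refine Finset.sum_congr rfl fun i _ => ?_
  rw [hb, LinearMap.IsSymmetric.eigenvectorBasis_apply_self_apply, T.sq_singularValues_fin hn]
  simp
  ring

theorem sq_norm_repr {n : ℕ} (b : OrthonormalBasis (Fin n) ℝ (EuclideanSpace ℝ (Fin n)))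
    (v : EuclideanSpace ℝ (Fin n)) : ‖v‖ ^ 2 = ∑ i : Fin n, (b.repr v i) ^ 2 := by
  rw [← b.repr.norm_map, EuclideanSpace.norm_sq_eq]
  simp

/-- `σ_n ‖v‖ ≤ ‖A v‖` -/
theorem sing_lower {n : ℕ} (A : Matrix (Fin n) (Fin n) ℝ) (v : Fin n → ℝ) :
    (Matrix.toEuclideanLin A).singularValues (n - 1) * nrm v ≤ nrm (A *ᵥ v) := by
  set T := Matrix.toEuclideanLin A with hT
  have hn : finrank ℝ (EuclideanSpace ℝ (Fin n)) = n := by simp
  have e : nrm (A *ᵥ v) = ‖T (WithLp.toLp 2 v)‖ := rfl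
  have e2 : nrm v = ‖(WithLp.toLp 2 v : EuclideanSpace ℝ (Fin n))‖ := rfl
  refine le_of_sq_le_sq ?_ (nrm_nonneg _)
  rw [mul_pow, e, e2, sq_norm_apply T hn,
    sq_norm_repr (T.isSymmetric_adjoint_comp_self.eigenvectorBasis hn), Finset.mul_sum]
  refine Finset.sum_le_sum fun i _ => mul_le_mul_of_nonneg_right ?_ (sq_nonneg _)
  exact pow_le_pow_left₀ (T.singularValues_nonneg _) (T.singularValues_antitone (by omega)) 2

/-- `‖A v‖ ≤ σ_1 ‖v‖` -/
theorem sing_upper {n : ℕ} (A : Matrix (Fin n) (Fin n) ℝ) (v : Fin n → ℝ) :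
    nrm (A *ᵥ v) ≤ (Matrix.toEuclideanLin A).singularValues 0 * nrm v := by
  set T := Matrix.toEuclideanLin A with hT
  have hn : finrank ℝ (EuclideanSpace ℝ (Fin n)) = n := by simp
  have e : nrm (A *ᵥ v) = ‖T (WithLp.toLp 2 v)‖ := rfl
  have e2 : nrm v = ‖(WithLp.toLp 2 v : EuclideanSpace ℝ (Fin n))‖ := rfl
  refine le_of_sq_le_sq ?_ (mul_nonneg (T.singularValues_nonneg _) (nrm_nonneg _))
  rw [mul_pow, e, e2, sq_norm_apply T hn,
    sq_norm_repr (T.isSymmetric_adjoint_comp_self.eigenvectorBasis hn), Finset.mul_sum]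
  refine Finset.sum_le_sum fun i _ => mul_le_mul_of_nonneg_right ?_ (sq_nonneg _)
  exact pow_le_pow_left₀ (T.singularValues_nonneg _) (T.singularValues_antitone (by omega)) 2

/-- the least singular value of an invertible matrix is positive -/
theorem sing_pos {n : ℕ} (hn : 1 ≤ n) {A : Matrix (Fin n) (Fin n) ℝ} (hA : A.det ≠ 0) :
    0 < (Matrix.toEuclideanLin A).singularValues (n - 1) := by
  set T := Matrix.toEuclideanLin A with hT
  have hn' : finrank ℝ (EuclideanSpace ℝ (Fin n)) = n := by simp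
  refine T.injective_iff_forall_lt_finrank_singularValues_pos.1 ?_ (n - 1) (by omega)
  rw [← LinearMap.ker_eq_bot, LinearMap.ker_eq_bot']
  intro v hv
  have h1 : A *ᵥ (WithLp.ofLp v) = 0 := by
    have : WithLp.ofLp (T v) = 0 := by rw [hv]; rfl
    simpa [hT] using this
  have h2 := Matrix.eq_zero_of_mulVec_eq_zero hA h1
  ext i
  exact congrFun h2 i

/-- the sum of the absolute values of the entries -/
theorem sum_abs_le {n : ℕ} (A : Matrix (Fin n) (Fin n) ℝ) :
    ∑ i, ∑ j, |A i j| ≤ (n : ℝ) ^ 2 * (Matrix.toEuclideanLin A).singularValues 0 := by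
  have h : ∀ i j, |A i j| ≤ (Matrix.toEuclideanLin A).singularValues 0 := by
    intro i j
    have h1 := sing_upper A (Pi.single j 1)
    have h2 := abs_coord_le (A *ᵥ Pi.single j 1) i
    rw [nrm_single, mul_one] at h1
    rw [Matrix.mulVec_single_one] at h1 h2
    exact h2.trans h1
  calc ∑ i, ∑ j, |A i j| ≤ ∑ _i : Fin n, ∑ _j : Fin n, (Matrix.toEuclideanLin A).singularValues 0 :=
        Finset.sum_le_sum fun i _ => Finset.sum_le_sum fun j _ => h i j
    _ = _ := by simp; ring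

end Pool.Agent.Y541
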