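import Pool.Agent.Y541.Solve
import Pool.Agent.Y541.Sing

/-!
# The cost of the solver in terms of logarithms
-/

set_option autoImplicit false

namespace Pool.Agent.Y541

open Finset Matrix

theorem inv_log_two_le : 1 / Real.log 2 ≤ 3 / 2 := by
  have h := Real.log_two_gt_d9
  rw [div_le_div_iff₀ (by linarith) (by norm_num)]
  linarith

theorem ceil_logb_le {x : ℝ} (hx : 1 ≤ x) :
    ((⌈Real.logb 2 x⌉₊ : ℕ) : ℝ) ≤ 1 + 3 / 2 * Real.log x := by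
  have h0 : 0 ≤ Real.logb 2 x := Real.logb_nonneg (by norm_num) hx
  have h1 := (Nat.ceil_lt_add_one h0).le
  have h2 : Real.logb 2 x = 1 / Real.log 2 * Real.log x := by
    rw [Real.logb]
    ring
  have h3 : 1 / Real.log 2 * Real.log x ≤ 3 / 2 * Real.log x :=
    mul_le_mul_of_nonneg_right inv_log_two_le (Real.log_nonneg hx)
  linarith

theorem le_two_pow_ceil {x : ℝ} (hx : 0 < x) : x ≤ 2 ^ ⌈Real.logb 2 x⌉₊ := by
  have h1 := Nat.le_ceil (Real.logb 2 x)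
  rw [Real.logb_le_iff_le_rpow (by norm_num) hx, Real.rpow_natCast] at h1
  exact h1

/-- **The solver, with its cost in terms of logarithms.** -/
theorem solve_log {n : ℕ} (hn : 1 ≤ n) (A : Matrix (Fin n) (Fin n) ℝ) (b : Fin n → ℝ)
    {ε sA K : ℝ} (hsA : 0 < sA) (hlow : ∀ v, sA * nrm v ≤ nrm (A *ᵥ v)) (hK : 1 ≤ K)
    (hS : ∑ i, ∑ j, |A i j| ≤ (n : ℝ) ^ 2 * K * sA) (hε : 0 < ε) (hε1 : ε < 1) :
    ∃ (t : ℕ) (s : State), Run solveP (State.init n A b ε) t s ∧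
      nrm (s.output n - A⁻¹ *ᵥ b) ≤ ε * nrm (A⁻¹ *ᵥ b) ∧
      nrm (A *ᵥ s.output n - b) ≤ ε * nrm b ∧
      (t : ℝ) ≤ 70000 * (n : ℝ) ^ 2 * ((15 * (1 + Real.log n) + 3 * Real.log K) ^ 2 +
        2 * (1 + Real.log (1 / ε))) := by
  have hn1 : (1 : ℝ) ≤ n := by exact_mod_cast hn
  have hdet : IsUnit A.det := isUnit_iff_ne_zero.2 (det_ne_zero_of_lower hsA hlow)
  set l := ⌈Real.logb 2 n⌉₊ + 1 with hl
  set L0 := ⌈Real.logb 2 (256 * (n : ℝ) ^ 7 * K ^ 2)⌉₊ + 1 with hL0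
  set e := ⌈Real.logb 2 (1 / ε)⌉₊ with he
  have h1 : n ≤ 2 ^ l := by
    have h2 : (n : ℝ) ≤ 2 ^ l := by
      have h3 := le_two_pow_ceil (x := n) (by linarith)
      have h4 : (2 : ℝ) ^ ⌈Real.logb 2 n⌉₊ ≤ 2 ^ l :=
        pow_le_pow_right₀ (by norm_num) (by omega)
      exact h3.trans h4
    exact_mod_cast h2
  have hP : 1 ≤ 256 * (n : ℝ) ^ 7 * K ^ 2 := by
    have h2 : (1 : ℝ) ≤ (n : ℝ) ^ 7 := one_le_pow₀ hn1
    have h3 : (1 : ℝ) ≤ K ^ 2 := one_le_pow₀ hK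
    nlinarith
  have h2 : 256 * (n : ℝ) ^ 7 * K ^ 2 ≤ 2 ^ L0 := by
    have h3 := le_two_pow_ceil (x := 256 * (n : ℝ) ^ 7 * K ^ 2) (by linarith)
    have h4 : (2 : ℝ) ^ ⌈Real.logb 2 (256 * (n : ℝ) ^ 7 * K ^ 2)⌉₊ ≤ 2 ^ L0 :=
      pow_le_pow_right₀ (by norm_num) (by omega)
    exact h3.trans h4
  have h3 : 256 * (n : ℝ) ^ 3 * (∑ i, ∑ j, |A i j|) ^ 2 ≤ sA ^ 2 * 2 ^ L0 := by
    have h0 : 0 ≤ ∑ i, ∑ j, |A i j| :=
      Finset.sum_nonneg fun _ _ => Finset.sum_nonneg fun _ _ => abs_nonneg _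
    calc 256 * (n : ℝ) ^ 3 * (∑ i, ∑ j, |A i j|) ^ 2
        ≤ 256 * (n : ℝ) ^ 3 * ((n : ℝ) ^ 2 * K * sA) ^ 2 := by gcongr
      _ = sA ^ 2 * (256 * (n : ℝ) ^ 7 * K ^ 2) := by ring
      _ ≤ sA ^ 2 * 2 ^ L0 := mul_le_mul_of_nonneg_left h2 (by positivity)
  have hx : A *ᵥ (A⁻¹ *ᵥ b) = b := by
    rw [Matrix.mulVec_mulVec, Matrix.mul_nonsing_inv _ hdet, Matrix.one_mulVec]
  obtain ⟨t, s, hr, ht, hs1, hs2⟩ := solveP_spec hn h1 (by omega) (by omega) A b hsA hlow h3 hε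
    (le_two_pow_ceil (by positivity)) hx
  refine ⟨t, s, hr, hs1, hs2, ?_⟩
  have hlogn : 0 ≤ Real.log n := Real.log_nonneg hn1
  have hlogK : 0 ≤ Real.log K := Real.log_nonneg hK
  have hlog2 : Real.log 256 = 8 * Real.log 2 := by
    rw [show (256 : ℝ) = 2 ^ 8 by norm_num, Real.log_pow]
    norm_num
  have hlog2' := Real.log_two_lt_d9
  have hε' : 1 ≤ 1 / ε := by
    rw [le_div_iff₀ hε]
    linarith
  have b1 : (l : ℝ) ≤ 2 + 3 / 2 * Real.log n := by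
    have := ceil_logb_le hn1
    rw [hl]
    push_cast
    linarith
  have b2 : (L0 : ℝ) ≤ 11 + 21 / 2 * Real.log n + 3 * Real.log K := by
    have h4 := ceil_logb_le hP
    have h5 : Real.log (256 * (n : ℝ) ^ 7 * K ^ 2) =
        8 * Real.log 2 + 7 * Real.log n + 2 * Real.log K := by
      rw [Real.log_mul (by positivity) (by positivity), Real.log_mul (by norm_num)
        (by positivity), Real.log_pow, Real.log_pow, hlog2]
      push_cast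
      ring
    rw [h5] at h4
    rw [hL0]
    push_cast
    linarith
  have b3 : (e : ℝ) ≤ 2 * (1 + Real.log (1 / ε)) := by
    have h4 := ceil_logb_le hε'
    have h5 := Real.log_nonneg hε'
    linarith
  have b4 : (l : ℝ) + L0 ≤ 15 * (1 + Real.log n) + 3 * Real.log K := by linarith
  have b5 : ((l : ℝ) + L0) ^ 2 ≤ (15 * (1 + Real.log n) + 3 * Real.log K) ^ 2 :=
    pow_le_pow_left₀ (by positivity) b4 2
  have ht' : (t : ℝ) ≤ ((70000 * (n ^ 2 * ((l + L0) ^ 2 + e)) : ℕ) : ℝ) := by exact_mod_cast ht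
  refine ht'.trans ?_
  push_cast
  have h6 : (0 : ℝ) ≤ 70000 * (n : ℝ) ^ 2 := by positivity
  nlinarith

end Pool.Agent.Y541
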