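import Pool.Agent.Y541.Spec

/-!
# The integer part of a real number by comparisons
-/

set_option autoImplicit false

namespace Pool.Agent.Y541

/-- the scalar in the array `a` (the index register `1` is always zero) -/
def sc (a : ℕ) : Expr := .entry a 1 1

/-- write to the scalar in the array `a` -/
def put (a : ℕ) (e : Expr) : Program := .store a 1 1 e

theorem sc_val {s : State} (hz : s.idx 1 = 0) (a : ℕ) : (sc a).val s = s.mem a 0 0 := by
  simp [sc, Expr.val, hz]

theorem sc_defined (s : State) (a : ℕ) : (sc a).Defined s := trivial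

/-- doubling of the array `20` until it exceeds the scalar in the array `19` -/
def floorA : Program :=
  .whileLt (sc 20) (.add (sc 19) (.const 1)) (put 20 (.add (sc 20) (sc 20)))

/-- the body of the second loop of `floorP` -/
def floorC : Program :=
  .seq (put 20 (.div (sc 20) (.const 2)))
    (.ite (sc 19) (.add (sc 18) (sc 20)) (put 18 (sc 18)) (put 18 (.add (sc 18) (sc 20))))

/-- the second loop of `floorP` -/
def floorB : Program := .whileLt (.const 1) (sc 20) floorC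

/-- computes the integer part of the nonnegative scalar `19`; the result is the scalar `18` -/
def floorP : Program :=
  seqs (put 20 (.const 1)) [floorA, put 18 (.const 0), floorB]

theorem floorA_spec {s : State} {y : ℝ} {m : ℕ} (hz : s.idx 1 = 0) (hu : s.mem 19 0 0 = y)
    (hm : y + 1 ≤ 2 ^ m) (hp : s.mem 20 0 0 = 1) :
    Spec floorA s (9 * m + 5) (fun s' => ∃ k ≤ m, s'.mem 20 0 0 = 2 ^ k ∧ y + 1 ≤ 2 ^ k) := by
  refine Spec.whileLt (fun k s' => s'.mem 20 0 0 = 2 ^ k ∧ s'.mem 19 0 0 = y ∧ s'.idx 1 = 0)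
    m (fun _ => 4) ⟨by simpa using hp, hu, hz⟩ ?_ ?_ ?_ ?_ ?_
  · intro k s' _
    exact ⟨trivial, trivial, trivial⟩
  · intro k s' _ hI _ _
    obtain ⟨h1, h2, h3⟩ := hI
    refine Spec.store ⟨trivial, trivial⟩ (by simp [Expr.cost, sc]) ⟨?_, ?_, h3⟩
    · simp only [Expr.val, sc, h3, State.write_mem_self, h1]
      ring
    · rw [State.write_mem_ne _ _ _ _ (by decide)]
      exact h2
  · intro s' hI
    obtain ⟨h1, h2, h3⟩ := hI
    simp only [Expr.val, sc, h3, h1, h2]
    push_cast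
    linarith
  · intro k s' hk hI _ hn
    obtain ⟨h1, h2, h3⟩ := hI
    simp only [Expr.val, sc, h3, h1, h2] at hn
    push_cast at hn
    exact ⟨k, hk, h1, by linarith⟩
  · simp [Expr.cost, sc]
    omega

theorem floorC_spec {s : State} {y p : ℝ} {z : ℤ} (hz : s.idx 1 = 0) (hu : s.mem 19 0 0 = y)
    (hp : s.mem 20 0 0 = 2 * p) (hf : s.mem 18 0 0 = z) (h1 : (z : ℝ) ≤ y) (h2 : y < z + 2 * p)
    (hpi : ∃ w : ℤ, p = w) :
    Spec floorC s 13 (fun s' => s'.mem 20 0 0 = p ∧ ∃ z' : ℤ, s'.mem 18 0 0 = z' ∧ (z' : ℝ) ≤ y ∧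
      y < z' + p) := by
  refine Spec.seq (c := 4) (c' := 9) ?_ le_rfl
  refine Spec.store ⟨trivial, trivial, by simp [Expr.val]⟩ (by simp [Expr.cost, sc]) ?_
  have e1 : Expr.val s (.div (sc 20) (.const 2)) = p := by
    simp only [Expr.val, sc, hz, hp]
    push_cast
    ring
  rw [e1, hz]
  set s1 := s.write 20 0 0 p with hs1
  have k1 : s1.idx 1 = 0 := hz
  have k2 : s1.mem 19 0 0 = y := by rw [hs1, State.write_mem_ne _ _ _ _ (by decide)]; exact hu
  have k3 : s1.mem 18 0 0 = z := by rw [hs1, State.write_mem_ne _ _ _ _ (by decide)]; exact hf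
  have k4 : s1.mem 20 0 0 = p := by rw [hs1, State.write_mem_self]
  refine Spec.ite (c := 4) trivial ⟨trivial, trivial⟩ ?_ ?_ (by simp [Expr.cost, sc])
  · intro h
    simp only [Expr.val, sc, k1, k2, k3, k4] at h
    refine Spec.store trivial (by simp [Expr.cost, sc]) ⟨?_, z, ?_, h1, h⟩
    · rw [State.write_mem_ne _ _ _ _ (by decide)]
      exact k4
    · simp only [Expr.val, sc, k1, State.write_mem_self, k3]
  · intro h
    simp only [Expr.val, sc, k1, k2, k3, k4, not_lt] at h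
    obtain ⟨w, hw⟩ := hpi
    refine Spec.store ⟨trivial, trivial⟩ (by simp [Expr.cost, sc]) ⟨?_, z + w, ?_, ?_, ?_⟩
    · rw [State.write_mem_ne _ _ _ _ (by decide)]
      exact k4
    · simp only [Expr.val, sc, k1, State.write_mem_self, k3, k4]
      push_cast
      rw [hw]
    · push_cast
      rw [← hw]
      exact h
    · push_cast
      rw [← hw]
      linarith

theorem floorB_spec {s : State} {y : ℝ} {k : ℕ} (hz : s.idx 1 = 0) (hu : s.mem 19 0 0 = y)
    (h0 : 0 ≤ y) (hk : y + 1 ≤ 2 ^ k) (hp : s.mem 20 0 0 = 2 ^ k) (hf : s.mem 18 0 0 = 0) :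
    Spec floorB s (16 * k + 3) (fun s' => s'.mem 18 0 0 = (⌊y⌋ : ℤ)) := by
  refine Spec.whileLt (fun l s' => s'.mem 20 0 0 = 2 ^ (k - l) ∧ s'.mem 19 0 0 = y ∧
    s'.idx 1 = 0 ∧ ∃ z : ℤ, s'.mem 18 0 0 = z ∧ (z : ℝ) ≤ y ∧ y < z + 2 ^ (k - l))
    k (fun _ => 13) ⟨by simpa using hp, hu, hz, 0, by simpa using hf, by simpa using h0,
      by simp only [Int.cast_zero, zero_add, Nat.sub_zero]; linarith⟩ ?_ ?_ ?_ ?_ ?_
  · intro l s' _
    exact ⟨trivial, trivial⟩
  · intro l s' hl hI _ _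
    obtain ⟨h1, h2, h3, z, h4, h5, h6⟩ := hI
    have e1 : (2 : ℝ) ^ (k - l) = 2 * 2 ^ (k - (l + 1)) := by
      rw [← pow_succ']
      congr 1
      omega
    rw [e1] at h1 h6
    refine (floorC_spec h3 h2 h1 h4 h5 h6 ⟨2 ^ (k - (l + 1)), by push_cast; rfl⟩).keep le_rfl
      (fun s'' hs'' hK => ⟨hs''.1, ?_, ?_, hs''.2⟩)
    · rw [hK.mem 19 (by decide)]
      exact h2
    · rw [hK.idx 1 (by decide)]
      exact h3
  · intro s' hI
    obtain ⟨h1, h2, h3, -⟩ := hI
    simp [Expr.val, sc, h3, h1]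
  · intro l s' hl hI _ hn
    obtain ⟨h1, h2, h3, z, h4, h5, h6⟩ := hI
    simp only [Expr.val, sc, h3, h1, Nat.cast_one, not_lt] at hn
    rw [h4]
    congr 1
    symm
    rw [Int.floor_eq_iff]
    exact ⟨h5, by linarith⟩
  · simp [Expr.cost, sc]
    omega

/-- the number of steps of `floorP` for a number less than `2 ^ m` -/
def floorCost (m : ℕ) : ℕ := 25 * m + 12

theorem floorP_spec {s : State} {y : ℝ} {m : ℕ} (hz : s.idx 1 = 0) (hu : s.mem 19 0 0 = y)
    (h0 : 0 ≤ y) (hm : y + 1 ≤ 2 ^ m) :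
    Spec floorP s (floorCost m) (fun s' => s'.mem 18 0 0 = (⌊y⌋ : ℤ)) := by
  refine Spec.seq (c := 2) (c' := 25 * m + 10) ?_ (by unfold floorCost; omega)
  refine Spec.store trivial (by simp [Expr.cost]) ?_
  rw [hz]
  set s1 := s.write 20 0 0 (Expr.val s (.const 1)) with hs1
  have k1 : s1.idx 1 = 0 := hz
  have k2 : s1.mem 19 0 0 = y := by rw [hs1, State.write_mem_ne _ _ _ _ (by decide)]; exact hu
  have k3 : s1.mem 20 0 0 = 1 := by rw [hs1, State.write_mem_self]; simp [Expr.val]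
  refine Spec.seq (c := 9 * m + 5) (c' := 16 * m + 5) ?_ (by omega)
  refine (floorA_spec k1 k2 hm k3).keep le_rfl ?_
  rintro s2 ⟨k, hkm, h1, h2⟩ hK
  have j1 : s2.idx 1 = 0 := by rw [hK.idx 1 (by decide)]; exact k1
  have j2 : s2.mem 19 0 0 = y := by rw [hK.mem 19 (by decide)]; exact k2
  refine Spec.seq (c := 2) (c' := 16 * m + 3) ?_ (by omega)
  refine Spec.store trivial (by simp [Expr.cost]) ?_
  rw [j1]
  set s3 := s2.write 18 0 0 (Expr.val s2 (.const 0)) with hs3
  have l1 : s3.idx 1 = 0 := j1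
  have l2 : s3.mem 19 0 0 = y := by rw [hs3, State.write_mem_ne _ _ _ _ (by decide)]; exact j2
  have l3 : s3.mem 20 0 0 = 2 ^ k := by
    rw [hs3, State.write_mem_ne _ _ _ _ (by decide)]; exact h1
  have l4 : s3.mem 18 0 0 = 0 := by rw [hs3, State.write_mem_self]; simp [Expr.val]
  exact (floorB_spec l1 l2 h0 h2 l3 l4).mono (by omega) (fun _ h => h)

end Pool.Agent.Y541
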