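import Pool.Agent.Y541.Asym
import Pool.Agent.Y541.Norms

/-!
# The condition of random matrices with two values
-/

set_option autoImplicit false

namespace Pool.Agent.Y541

open Finset Filter MeasureTheory Matrix
open scoped Topology ENNReal

/-- the matrices with a good condition -/
def good (n : ℕ) : Set (Matrix (Fin n) (Fin n) ℝ) :=
  {A | 3 ≤ n ∧ (∀ v, nrm v ≤ 256 * (n : ℝ) ^ 4 * nrm (A *ᵥ v)) ∧
    ∑ i, ∑ j, |A i j| ≤ (n : ℝ) ^ 4}

theorem continuous_nrm {n : ℕ} : Continuous (nrm : (Fin n → ℝ) → ℝ) := by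
  unfold nrm
  exact (PiLp.continuous_toLp 2 _).norm

/-- the matrix with the given entries -/
def mk {n : ℕ} (x : Fin n × Fin n → ℝ) : Matrix (Fin n) (Fin n) ℝ := Matrix.of fun i j => x (i, j)

theorem continuous_mk {n : ℕ} : Continuous (mk : (Fin n × Fin n → ℝ) → Matrix (Fin n) (Fin n) ℝ) := by
  unfold mk
  exact continuous_matrix fun i j => continuous_apply _

theorem measurableSet_good (n : ℕ) : MeasurableSet {x | mk x ∈ good n} := by
  by_cases hn : 3 ≤ n
  · have h1 : {x | mk x ∈ good n} =
        (⋂ v : Fin n → ℝ, {x | nrm v ≤ 256 * (n : ℝ) ^ 4 * nrm (mk x *ᵥ v)}) ∩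
          {x | ∑ i, ∑ j, |mk x i j| ≤ (n : ℝ) ^ 4} := by
      ext x
      simp [good, hn]
    rw [h1]
    refine ((isClosed_iInter fun v => ?_).inter ?_).measurableSet
    · refine isClosed_le continuous_const (continuous_const.mul (continuous_nrm.comp ?_))
      exact continuous_mk.matrix_mulVec continuous_const
    · refine isClosed_le ?_ continuous_const
      refine continuous_finset_sum _ fun i _ => continuous_finset_sum _ fun j _ => ?_
      exact (continuous_mk.matrix_elem i j).abs
  · have h1 : {x : Fin n × Fin n → ℝ | mk x ∈ good n} = ∅ := by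
      ext x
      simp [good, hn]
    rw [h1]
    exact MeasurableSet.empty

/-- the uniform distribution on the two numbers `u` and `v` -/
noncomputable def two (u v : ℝ) : Measure ℝ :=
  (1 / 2 : ℝ≥0∞) • Measure.dirac u + (1 / 2 : ℝ≥0∞) • Measure.dirac v

/-- the uniform distribution on the two truth values -/
noncomputable def coin : Measure Bool :=
  (1 / 2 : ℝ≥0∞) • Measure.dirac false + (1 / 2 : ℝ≥0∞) • Measure.dirac true

instance : IsProbabilityMeasure coin := ⟨by
  simp [coin, ENNReal.inv_two_add_inv_two]⟩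

instance (u v : ℝ) : IsProbabilityMeasure (two u v) := ⟨by
  simp [two, ENNReal.inv_two_add_inv_two]⟩

theorem map_coin (u v : ℝ) : coin.map (Two.val u v) = two u v := by
  have h : Measurable (Two.val u v) := measurable_of_finite _
  unfold coin two
  rw [Measure.map_add _ _ h, Measure.map_smul, Measure.map_smul, Measure.map_dirac' h,
    Measure.map_dirac' h]
  simp [Two.val]

theorem coin_singleton (c : Bool) : coin {c} = 1 / 2 := by
  unfold coin
  cases c <;> simp

theorem pi_two {ι : Type*} [Fintype ι] (u v : ℝ) {s : Set (ι → ℝ)} (hs : MeasurableSet s)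
    (F : Finset (ι → Bool)) (hF : ∀ c, (fun i => Two.val u v (c i)) ∈ s → c ∈ F) :
    Measure.pi (fun _ : ι => two u v) s ≤ #F * (1 / 2) ^ Fintype.card ι := by
  classical
  have h0 : Measurable (Two.val u v) := measurable_of_finite _
  have hsf : SigmaFinite (coin.map (Two.val u v)) := by
    rw [map_coin]
    infer_instance
  have h1 : Measure.pi (fun _ : ι => two u v) =
      (Measure.pi fun _ : ι => coin).map fun c i => Two.val u v (c i) := by
    have := Measure.pi_map_pi (μ := fun _ : ι => coin) (f := fun _ : ι => Two.val u v)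
      (fun i => h0.aemeasurable)
    rw [this, map_coin]
  have h4 : Measurable fun (c : ι → Bool) (i : ι) => Two.val u v (c i) :=
    measurable_pi_lambda _ fun i => h0.comp (measurable_pi_apply i)
  rw [h1, Measure.map_apply h4 hs]
  have h2 : (fun (c : ι → Bool) i => Two.val u v (c i)) ⁻¹' s ⊆ ⋃ c ∈ F, {c} := by
    intro c hc
    simp only [Set.mem_iUnion, Set.mem_singleton_iff, exists_prop, exists_eq_right']
    exact hF c hc
  refine (measure_mono h2).trans ((measure_biUnion_finset_le F _).trans ?_)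
  have h3 : ∀ c ∈ F, (Measure.pi fun _ : ι => coin) {c} = (1 / 2) ^ Fintype.card ι := by
    intro c _
    rw [Measure.pi_singleton, Finset.prod_congr rfl fun i _ => coin_singleton (c i),
      Finset.prod_const, Finset.card_univ]
  rw [Finset.sum_congr rfl h3, Finset.sum_const, nsmul_eq_mul]

theorem nrm_le_mul {n : ℕ} {v : Fin n → ℝ} {c : ℝ} (hc : 0 ≤ c) (h : ∀ i, |v i| ≤ c) :
    nrm v ≤ n * c := by
  refine le_of_sq_le_sq ?_ (by positivity)
  rw [nrm_sq, dotProduct]
  calc ∑ i, v i * v i ≤ ∑ _i : Fin n, c ^ 2 := by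
        refine Finset.sum_le_sum fun i _ => ?_
        have := abs_le_abs (h i) (by linarith [abs_nonneg (v i), h i])
        have h1 : v i ^ 2 ≤ c ^ 2 := by
          rw [← sq_abs (v i)]
          exact pow_le_pow_left₀ (abs_nonneg _) (h i) 2
        nlinarith
    _ = n * c ^ 2 := by simp
    _ ≤ (n * c) ^ 2 := by
        rw [mul_pow]
        refine mul_le_mul_of_nonneg_right ?_ (sq_nonneg _)
        rcases Nat.eq_zero_or_pos n with h | h
        · subst h; simp
        · have : (1 : ℝ) ≤ n := by exact_mod_cast h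
          nlinarith

/-- **Random matrices with two values are well conditioned.** -/
theorem two_good {u v : ℝ} (hu : |u| ≤ 1) (hv : |v| ≤ 1) (huv : 1 ≤ |v - u|) {n : ℕ} (hn : 3 ≤ n) :
    Measure.pi (fun _ : Fin n × Fin n => two u v) {x | mk x ∈ good n}ᶜ ≤
      ENNReal.ofReal (Two.rate n) := by
  classical
  have hn1 : (1 : ℝ) ≤ n := by exact_mod_cast (by omega : 1 ≤ n)
  have hn0 : (0 : ℝ) < n := by linarith
  set F : Finset (Fin n × Fin n → Bool) := {c | mk (fun p => Two.val u v (c p)) ∉ good n} with hF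
  refine (pi_two u v (measurableSet_good n).compl F (fun c hc => by simpa [hF] using hc)).trans ?_
  -- the matrices by columns
  set B : Finset (Fin n → Fin n → Bool) := F.image fun c j i => c (i, j) with hB
  have hcard : #F = #B := by
    rw [hB, Finset.card_image_of_injective]
    intro c c' h
    funext p
    exact congrFun (congrFun h p.2) p.1
  have hval : ∀ c : Bool, |Two.val u v c| ≤ 1 := by
    intro c
    unfold Two.val
    split_ifs
    · exact hv
    · exact hu
  have hBx : ∀ X ∈ B, ∃ x : Fin n → ℝ, (∃ i, |x i| = 1) ∧ (∀ i, |x i| ≤ 1) ∧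
      ∀ i, |∑ j, Two.val u v (X j i) * x j| ≤ 1 / (256 * (n : ℝ) ^ 3) := by
    intro X hX
    obtain ⟨c, hc, rfl⟩ := Finset.mem_image.1 hX
    have hc' : mk (fun p => Two.val u v (c p)) ∉ good n := by simpa [hF] using hc
    set A := mk (fun p => Two.val u v (c p)) with hA
    have hsum : ∑ i, ∑ j, |A i j| ≤ (n : ℝ) ^ 4 := by
      calc ∑ i, ∑ j, |A i j| ≤ ∑ _i : Fin n, ∑ _j : Fin n, (1 : ℝ) :=
            Finset.sum_le_sum fun i _ => Finset.sum_le_sum fun j _ => hval _
        _ = (n : ℝ) ^ 2 := by simp; ring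
        _ ≤ (n : ℝ) ^ 4 := pow_le_pow_right₀ hn1 (by norm_num)
    have hex : ∃ w, 256 * (n : ℝ) ^ 4 * nrm (A *ᵥ w) < nrm w := by
      by_contra hcon
      push Not at hcon
      exact hc' ⟨hn, hcon, hsum⟩
    obtain ⟨w, hw⟩ := hex
    obtain ⟨i0, -, hi0⟩ := Finset.exists_max_image (univ : Finset (Fin n)) (fun i => |w i|)
      ⟨⟨0, by omega⟩, mem_univ _⟩
    have hle : nrm w ≤ n * |w i0| := nrm_le_mul (abs_nonneg _) fun i => hi0 i (mem_univ _)
    have hnn := nrm_nonneg (A *ᵥ w)
    have hpos : 0 < |w i0| := by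
      by_contra hcon
      have h1 : |w i0| = 0 := le_antisymm (not_lt.1 hcon) (abs_nonneg _)
      rw [h1, mul_zero] at hle
      have : 0 ≤ 256 * (n : ℝ) ^ 4 * nrm (A *ᵥ w) := by positivity
      linarith
    refine ⟨fun i => w i / |w i0|, ⟨i0, ?_⟩, fun i => ?_, fun i => ?_⟩
    · rw [abs_div, abs_abs, div_self hpos.ne']
    · rw [abs_div, abs_abs, div_le_one hpos]
      exact hi0 i (mem_univ _)
    · have e1 : ∑ j, Two.val u v (c (i, j)) * (w j / |w i0|) = (A *ᵥ w) i / |w i0| := by
        rw [Matrix.mulVec, dotProduct, Finset.sum_div]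
        refine Finset.sum_congr rfl fun j _ => ?_
        rw [hA]
        simp only [mk, Matrix.of_apply]
        ring
      rw [e1, abs_div, abs_abs, div_le_div_iff₀ hpos (by positivity), one_mul]
      have e2 := abs_coord_le (A *ᵥ w) i
      have e3 : |(A *ᵥ w) i| * (256 * (n : ℝ) ^ 3) * n ≤ |w i0| * n := by
        calc |(A *ᵥ w) i| * (256 * (n : ℝ) ^ 3) * n = 256 * (n : ℝ) ^ 4 * |(A *ᵥ w) i| := by ring
          _ ≤ 256 * (n : ℝ) ^ 4 * nrm (A *ᵥ w) := mul_le_mul_of_nonneg_left e2 (by positivity)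
          _ ≤ |w i0| * n := by linarith
      exact le_of_mul_le_mul_right e3 hn0
  have hcount := Two.count_rate hn hu hv huv B hBx
  have h1 : (1 / 2 : ℝ≥0∞) ^ Fintype.card (Fin n × Fin n) =
      ENNReal.ofReal (1 / ((2 : ℝ) ^ n) ^ n) := by
    rw [Fintype.card_prod, Fintype.card_fin, ← pow_mul]
    rw [one_div, one_div, ENNReal.ofReal_inv_of_pos (by positivity),
      ENNReal.ofReal_pow (by norm_num), ENNReal.inv_pow]
    norm_num
  rw [hcard, h1, ← ENNReal.ofReal_natCast, ← ENNReal.ofReal_mul (by positivity)]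
  refine ENNReal.ofReal_le_ofReal ?_
  rw [mul_one_div, div_le_iff₀ (by positivity)]
  linarith

/-- the probability of the good matrices tends to one -/
theorem tendsto_two {u v : ℝ} (hu : |u| ≤ 1) (hv : |v| ≤ 1) (huv : 1 ≤ |v - u|) :
    Tendsto (fun n : ℕ => Measure.pi (fun _ : Fin n × Fin n => two u v) {x | mk x ∈ good n})
      atTop (𝓝 1) := by
  have h1 : Tendsto (fun n : ℕ => 1 - ENNReal.ofReal (Two.rate n)) atTop (𝓝 1) := by
    have h2 := (ENNReal.tendsto_ofReal Two.tendsto_rate)
    rw [ENNReal.ofReal_zero] at h2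
    have h3 := ENNReal.Tendsto.sub (tendsto_const_nhds (x := (1 : ℝ≥0∞))) h2
      (Or.inl ENNReal.one_ne_top)
    rwa [tsub_zero] at h3
  refine tendsto_of_tendsto_of_tendsto_of_le_of_le' h1 tendsto_const_nhds ?_
    (Eventually.of_forall fun n => prob_le_one)
  filter_upwards [eventually_ge_atTop 3] with n hn
  have h2 := two_good hu hv huv hn
  have h3 := prob_add_prob_compl (μ := Measure.pi (fun _ : Fin n × Fin n => two u v))
    (measurableSet_good n)
  rw [tsub_le_iff_right, ← h3]
  exact add_le_add_right h2 _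

end Pool.Agent.Y541
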