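import Pool.Agent.Y541.Mul

/-!
# Entrywise operations on matrices
-/

set_option autoImplicit false

namespace Pool.Agent.Y541

open Finset

/-- a program is performed for all pairs of indices (in the index registers `2`, `3`) -/
def mapP (body : Program) : Program := .loop 2 0 (.loop 3 0 body)

theorem mapP_arrs (body : Program) : (mapP body).arrs = body.arrs := rfl

theorem mapP_regs (body : Program) : (mapP body).regs = 2 :: 3 :: body.regs := rfl

/-- entrywise update of the array `c` -/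
theorem mapP_spec {body : Program} {s : State} {n c cb : ℕ} (h0 : s.idx 0 = n)
    (hr : 0 ∉ body.regs) (hr2 : 2 ∉ body.regs) (f : ℕ → ℕ → ℝ)
    (hbody : ∀ i < n, ∀ j < n, ∀ s', Keeps body.arrs (2 :: 3 :: body.regs) s s' →
      s'.idx 2 = i → s'.idx 3 = j → s'.mem c i j = s.mem c i j →
      Spec body s' cb (fun s'' => s''.mem c i j = f i j ∧
        ∀ i' j', (i', j') ≠ (i, j) → s''.mem c i' j' = s'.mem c i' j')) :
    Spec (mapP body) s (1 + n * (n * (cb + 1) + 2)) (fun s' =>
      ∀ i < n, ∀ j < n, s'.mem c i j = f i j) := by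
  refine Spec.loop (N := n) (c := 1 + n * (cb + 1))
    (fun i s' => ∀ i' j', (i' < i → j' < n → s'.mem c i' j' = f i' j') ∧
      (i ≤ i' → s'.mem c i' j' = s.mem c i' j')) h0 (fun i' j' => ⟨by simp, fun _ => rfl⟩) ?_
    (fun s' hI _ i hi j hj => (hI i j).1 hi hj) (by ring_nf; omega)
  intro i hi s1 hI hK
  have hK1 : Keeps body.arrs (2 :: 3 :: body.regs) s (s1.setIdx 2 i) :=
    Keeps.trans hK (keeps_setIdx _ _ _ _ (by simp))
  have e0 : (s1.setIdx 2 i).idx 0 = n := by
    rw [hK1.idx 0 (by simp [hr])]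
    exact h0
  refine Spec.loop (N := n) (c := cb)
    (fun j s' => ∀ i' j', (i' < i → j' < n → s'.mem c i' j' = f i' j') ∧
      (i' = i → j' < j → s'.mem c i' j' = f i' j') ∧
      ((i < i' ∨ (i' = i ∧ j ≤ j')) → s'.mem c i' j' = s.mem c i' j')) e0 ?_ ?_ ?_ le_rfl
  · intro i' j'
    refine ⟨(hI i' j').1, by simp, fun h => ?_⟩
    exact (hI i' j').2 (by omega)
  · intro j hj s2 hI2 hK2
    have hK2' : Keeps body.arrs (2 :: 3 :: body.regs) s (s2.setIdx 3 j) := by
      refine hK1.trans ((hK2.mono (fun _ h => h) ?_).trans (keeps_setIdx _ _ _ _ (by simp)))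
      intro x hx
      simp only [List.mem_cons] at hx ⊢
      tauto
    have e2 : (s2.setIdx 3 j).idx 2 = i := by
      rw [State.setIdx_idx_ne _ _ (by decide), hK2.idx 2 (by simp [hr2])]
      exact State.setIdx_idx_self _ _ _
    refine (hbody i hi j hj _ hK2' e2 (State.setIdx_idx_self _ _ _)
      ((hI2 i j).2.2 (Or.inr ⟨rfl, le_rfl⟩))).mono le_rfl ?_
    rintro s3 ⟨h1, h2⟩
    intro i' j'
    by_cases hij : (i', j') = (i, j)
    · obtain ⟨rfl, rfl⟩ := Prod.mk.inj hij
      refine ⟨fun h => absurd h (lt_irrefl _), fun _ _ => h1, fun h => ?_⟩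
      omega
    · rw [h2 i' j' hij]
      obtain ⟨g1, g2, g3⟩ := hI2 i' j'
      have hne : ¬ (i' = i ∧ j' = j) := fun h => hij (by rw [h.1, h.2])
      refine ⟨g1, fun ha hb => g2 ha (by omega), fun h => g3 (by omega)⟩
  · intro s2 hI2 _ i' j'
    obtain ⟨g1, g2, g3⟩ := hI2 i' j'
    refine ⟨fun ha hb => ?_, fun h => g3 (Or.inl (by omega))⟩
    rcases Nat.lt_succ_iff_lt_or_eq.1 ha with h | h
    · exact g1 h hb
    · exact g2 h hb

/-- an entrywise assignment -/
theorem store_map_spec {s : State} {n c : ℕ} (h0 : s.idx 0 = n) (e : Expr) (f : ℕ → ℕ → ℝ)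
    (he : ∀ i < n, ∀ j < n, ∀ s', Keeps [c] [2, 3] s s' → s'.idx 2 = i → s'.idx 3 = j →
      s'.mem c i j = s.mem c i j → e.Defined s' ∧ e.val s' = f i j) :
    Spec (mapP (.store c 2 3 e)) s (1 + n * (n * (e.cost + 2) + 2)) (fun s' =>
      ∀ i < n, ∀ j < n, s'.mem c i j = f i j) := by
  refine mapP_spec (cb := e.cost + 1) h0 (by simp [Program.regs]) (by simp [Program.regs]) f ?_
  intro i hi j hj s' hK h2 h3 hc
  obtain ⟨d1, d2⟩ := he i hi j hj s' hK h2 h3 hc
  refine Spec.store d1 le_rfl ?_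
  rw [h2, h3, d2]
  refine ⟨State.write_mem_self _ _ _ _ _, fun i' j' hne => ?_⟩
  rw [State.write_mem, if_neg]
  rintro ⟨rfl, rfl⟩
  exact hne rfl

/-- the absolute value of the expression `e` is added to the scalar `a` -/
def absP (a : ℕ) (e : Expr) : Program :=
  .ite e (.const 0) (put a (.sub (sc a) e)) (put a (.add (sc a) e))

theorem absP_spec {s : State} (hz : s.idx 1 = 0) {a : ℕ} {e : Expr} (he : e.Defined s) {v x : ℝ}
    (hv : s.mem a 0 0 = v) (hx : e.val s = x) :
    Spec (absP a e) s (2 * e.cost + 5) (fun s' => s'.mem a 0 0 = v + |x|) := by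
  refine Spec.ite (c := e.cost + 3) he trivial ?_ ?_ (by simp [Expr.cost]; omega)
  · intro h
    rw [hx] at h
    simp only [Expr.val, Nat.cast_zero] at h
    refine Spec.store ⟨trivial, he⟩ (by simp [Expr.cost, sc]; omega) ?_
    rw [hz, State.write_mem_self]
    simp only [Expr.val, sc, hz, hv, hx, abs_of_neg h]
    ring
  · intro h
    rw [hx] at h
    simp only [Expr.val, Nat.cast_zero, not_lt] at h
    refine Spec.store ⟨trivial, he⟩ (by simp [Expr.cost, sc]; omega) ?_
    rw [hz, State.write_mem_self]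
    simp only [Expr.val, sc, hz, hv, hx, abs_of_nonneg h]

/-- a quantity is accumulated over all pairs of indices -/
theorem sumP_spec {body : Program} {s : State} {n cb : ℕ} (h0 : s.idx 0 = n)
    (hr : 0 ∉ body.regs) (hr2 : 2 ∉ body.regs) (v : State → ℝ) (hv : ∀ s x c, v (State.setIdx s x c) = v s)
    (f : ℕ → ℕ → ℝ)
    (hbody : ∀ i < n, ∀ j < n, ∀ s', Keeps body.arrs (2 :: 3 :: body.regs) s s' →
      s'.idx 2 = i → s'.idx 3 = j → Spec body s' cb (fun s'' => v s'' = v s' + f i j)) :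
    Spec (mapP body) s (1 + n * (n * (cb + 1) + 2)) (fun s' =>
      v s' = v s + ∑ i ∈ range n, ∑ j ∈ range n, f i j) := by
  refine Spec.loop (N := n) (c := 1 + n * (cb + 1))
    (fun i s' => v s' = v s + ∑ i' ∈ range i, ∑ j ∈ range n, f i' j) h0 (by simp) ?_
    (fun s' hI _ => hI) (by ring_nf; omega)
  intro i hi s1 hI hK
  have hK1 : Keeps body.arrs (2 :: 3 :: body.regs) s (s1.setIdx 2 i) :=
    Keeps.trans hK (keeps_setIdx _ _ _ _ (by simp))
  have e0 : (s1.setIdx 2 i).idx 0 = n := by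
    rw [hK1.idx 0 (by simp [hr])]
    exact h0
  refine Spec.loop (N := n) (c := cb)
    (fun j s' => v s' = v s + ∑ i' ∈ range i, ∑ j ∈ range n, f i' j + ∑ j' ∈ range j, f i j')
    e0 (by rw [hv, hI]; simp) ?_ ?_ le_rfl
  · intro j hj s2 hI2 hK2
    have hK2' : Keeps body.arrs (2 :: 3 :: body.regs) s (s2.setIdx 3 j) := by
      refine hK1.trans ((hK2.mono (fun _ h => h) ?_).trans (keeps_setIdx _ _ _ _ (by simp)))
      intro x hx
      simp only [List.mem_cons] at hx ⊢
      tauto
    have e2 : (s2.setIdx 3 j).idx 2 = i := by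
      rw [State.setIdx_idx_ne _ _ (by decide), hK2.idx 2 (by simp [hr2])]
      exact State.setIdx_idx_self _ _ _
    refine (hbody i hi j hj _ hK2' e2 (State.setIdx_idx_self _ _ _)).mono le_rfl ?_
    intro s3 h3
    rw [h3, hv, hI2, Finset.sum_range_succ (fun j' => f i j')]
    ring
  · intro s2 hI2 _
    rw [hI2, Finset.sum_range_succ]
    ring

end Pool.Agent.Y541
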