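import Pool.Agent.Y541.Floor

/-!
# Multiplication of integer matrices with packed rows

The rows of the second factor are packed to numbers in base `B`; a row of the product is a
combination of these numbers, and its entries are extracted by comparisons.
-/

set_option autoImplicit false

namespace Pool.Agent.Y541

open Finset

/-- the number with the digits `d j, d (j + 1), …, d (j + c - 1)` (leading digit first) in base `B` -/
noncomputable def rh (d : ℕ → ℝ) (B : ℝ) : ℕ → ℕ → ℝ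
  | _, 0 => 0
  | j, c + 1 => d j * B ^ c + rh d B (j + 1) c

theorem rh_zero (d : ℕ → ℝ) (B : ℝ) (j : ℕ) : rh d B j 0 = 0 := rfl

theorem rh_succ (d : ℕ → ℝ) (B : ℝ) (j c : ℕ) :
    rh d B j (c + 1) = d j * B ^ c + rh d B (j + 1) c := rfl

theorem rh_last (d : ℕ → ℝ) (B : ℝ) (j c : ℕ) :
    rh d B j (c + 1) = rh d B j c * B + d (j + c) := by
  induction c generalizing j with
  | zero => simp [rh]
  | succ c ih =>
    rw [rh_succ, ih, rh_succ]
    have : j + 1 + c = j + (c + 1) := by omega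
    rw [this]
    ring

theorem rh_congr {d d' : ℕ → ℝ} (B : ℝ) {j c : ℕ} (h : ∀ i, j ≤ i → i < j + c → d i = d' i) :
    rh d B j c = rh d' B j c := by
  induction c generalizing j with
  | zero => rfl
  | succ c ih =>
    rw [rh_succ, rh_succ, h j le_rfl (by omega), ih (fun i h1 h2 => h i (by omega) (by omega))]

theorem rh_add (d d' : ℕ → ℝ) (B : ℝ) (j c : ℕ) :
    rh (fun i => d i + d' i) B j c = rh d B j c + rh d' B j c := by
  induction c generalizing j with
  | zero => simp [rh]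
  | succ c ih => rw [rh_succ, rh_succ, rh_succ, ih]; ring

theorem rh_mul (r : ℝ) (d : ℕ → ℝ) (B : ℝ) (j c : ℕ) :
    rh (fun i => r * d i) B j c = r * rh d B j c := by
  induction c generalizing j with
  | zero => simp [rh]
  | succ c ih => rw [rh_succ, rh_succ, ih]; ring

theorem rh_const_zero (B : ℝ) (j c : ℕ) : rh (fun _ => 0) B j c = 0 := by
  induction c generalizing j with
  | zero => rfl
  | succ c ih => rw [rh_succ, ih]; ring

theorem rh_sum (D : ℕ → ℕ → ℝ) (B : ℝ) (j c m : ℕ) :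
    rh (fun i => ∑ k ∈ range m, D k i) B j c = ∑ k ∈ range m, rh (D k) B j c := by
  induction m with
  | zero => simpa using rh_const_zero B j c
  | succ m ih =>
    simp only [Finset.sum_range_succ]
    rw [rh_add, ih]

theorem rh_bound {d : ℕ → ℝ} {B : ℝ} {j c : ℕ} (hB : 1 ≤ B)
    (h : ∀ i, j ≤ i → i < j + c → 0 ≤ d i ∧ d i ≤ B - 1) :
    0 ≤ rh d B j c ∧ rh d B j c ≤ B ^ c - 1 := by
  induction c generalizing j with
  | zero => simp [rh]
  | succ c ih =>
    obtain ⟨h1, h2⟩ := h j le_rfl (by omega)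
    obtain ⟨h3, h4⟩ := ih (j := j + 1) (fun i h1 h2 => h i (by omega) (by omega))
    have hp : 0 ≤ B ^ c := by positivity
    rw [rh_succ]
    constructor
    · positivity
    · have : d j * B ^ c ≤ (B - 1) * B ^ c := mul_le_mul_of_nonneg_right h2 hp
      rw [pow_succ]
      nlinarith

/-- the constants used by the multiplication: the number `n`, the offset `H`, the base `B = 2 H`, its
power `B ^ n` and the number with the digits `H, …, H` -/
structure Ctx (n : ℕ) (H : ℤ) (s : State) : Prop where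
  idx0 : s.idx 0 = n
  idx1 : s.idx 1 = 0
  H1 : 1 ≤ H
  mem7 : s.mem 7 0 0 = H
  mem8 : s.mem 8 0 0 = 2 * H
  mem9 : s.mem 9 0 0 = (2 * H : ℝ) ^ n
  mem15 : s.mem 15 0 0 = rh (fun _ => (H : ℝ)) (2 * H) 0 n

theorem Ctx.keeps {n : ℕ} {H : ℤ} {s s' : State} {A R : List ℕ} (h : Ctx n H s)
    (hk : Keeps A R s s') (h7 : 7 ∉ A) (h8 : 8 ∉ A) (h9 : 9 ∉ A) (h15 : 15 ∉ A) (h0 : 0 ∉ R)
    (h1 : 1 ∉ R) : Ctx n H s' :=
  ⟨by rw [hk.idx 0 h0]; exact h.idx0, by rw [hk.idx 1 h1]; exact h.idx1, h.H1,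
    by rw [hk.mem 7 h7]; exact h.mem7, by rw [hk.mem 8 h8]; exact h.mem8,
    by rw [hk.mem 9 h9]; exact h.mem9, by rw [hk.mem 15 h15]; exact h.mem15⟩

/-- packing of the rows of the array `b` to the numbers in the array `14` -/
def packP (b : ℕ) : Program :=
  .loop 4 0 (.seq (.store 14 4 1 (.const 0))
    (.loop 3 0 (.store 14 4 1 (.add (.mul (.entry 14 4 1) (sc 8)) (.entry b 4 3)))))

/-- the scratch arrays of the multiplication -/
def scr : List ℕ := [14, 16, 17, 18, 19, 20]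

/-- the packed row of the product -/
def rowA (a : ℕ) : Program :=
  .seq (put 16 (sc 15)) (.loop 4 0 (put 16 (.add (sc 16) (.mul (.entry a 2 4) (.entry 14 4 1)))))

/-- extraction of one digit -/
def digP (c : ℕ) : Program :=
  seqs (put 17 (.div (sc 17) (sc 8))) [put 19 (.div (sc 16) (sc 17)), floorP,
    put 16 (.sub (sc 16) (.mul (sc 18) (sc 17))), .store c 2 3 (.sub (sc 18) (sc 7))]

/-- extraction of the digits of a row -/
def rowB (c : ℕ) : Program := .seq (put 17 (sc 9)) (.loop 3 0 (digP c))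

/-- multiplication: the product of the integer matrices in the arrays `a`, `b` is written to `c` -/
def mulP (a b c : ℕ) : Program := .seq (packP b) (.loop 2 0 (.seq (rowA a) (rowB c)))

theorem digP_arrs (c : ℕ) : (digP c).arrs = [17, 19, 20, 20, 18, 20, 18, 18, 16, c] := rfl

theorem digP_regs (c : ℕ) : (digP c).regs = [] := rfl

theorem packP_spec {s : State} {n : ℕ} {H : ℤ} (h : Ctx n H s) {b : ℕ} (hb : b ≠ 14) :
    Spec (packP b) s (1 + n * (10 * n + 4)) (fun s' => ∀ k < n, s'.mem 14 k 0 =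
      rh (s.mem b k) (2 * H) 0 n) := by
  refine Spec.loop (N := n) (c := 3 + n * 10)
    (fun m s' => ∀ k < m, s'.mem 14 k 0 = rh (s.mem b k) (2 * H) 0 n) h.idx0 (by simp) ?_
    (fun s' hI _ => hI) (by ring_nf; omega)
  intro m hm s1 hI hK
  have hK' : Keeps [14, 14] [4, 3] s s1 := hK
  have hc1 : Ctx n H s1 := h.keeps hK' (by decide) (by decide) (by decide) (by decide) (by decide)
    (by decide)
  refine Spec.seq (c := 2) (c' := 1 + n * 10) ?_ (by omega)
  refine Spec.store trivial (by simp [Expr.cost]) ?_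
  have e4 : (s1.setIdx 4 m).idx 4 = m := s1.setIdx_idx_self 4 m
  have e1 : (s1.setIdx 4 m).idx 1 = 0 := hc1.idx1
  rw [e4, e1]
  set s2 := (s1.setIdx 4 m).write 14 m 0 (Expr.val (s1.setIdx 4 m) (.const 0)) with hs2
  have k4 : s2.idx 4 = m := e4
  have k1 : s2.idx 1 = 0 := e1
  have k0 : s2.idx 0 = n := hc1.idx0
  have kb : s2.mem b = s.mem b := by
    rw [hs2, State.write_mem_ne _ _ _ _ hb, State.setIdx_mem]
    exact hK.mem b (by simp [Program.arrs, hb])
  have k14 : ∀ k, k ≠ m → s2.mem 14 k 0 = s1.mem 14 k 0 := by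
    intro k hk
    rw [hs2, State.write_mem, if_neg (by simp [hk]), State.setIdx_mem]
  refine Spec.loop (N := n) (c := 9)
    (fun j s' => s'.mem 14 m 0 = rh (s.mem b m) (2 * H) 0 j ∧
      ∀ k, k ≠ m → s'.mem 14 k 0 = s1.mem 14 k 0) k0 ⟨?_, k14⟩ ?_ ?_ (by omega)
  · rw [hs2, State.write_mem_self]
    simp [Expr.val, rh]
  · intro j hj s3 hI3 hK3
    obtain ⟨i1, i2⟩ := hI3
    have hK3' : Keeps [14] [3] s2 s3 := hK3
    have e0 : (s3.setIdx 3 j).idx 4 = m := by
      rw [State.setIdx_idx_ne _ _ (by decide), hK3'.idx 4 (by decide)]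
      exact k4
    have e2 : (s3.setIdx 3 j).idx 1 = 0 := by
      rw [State.setIdx_idx_ne _ _ (by decide), hK3'.idx 1 (by decide)]
      exact k1
    have e3 : (s3.setIdx 3 j).idx 3 = j := s3.setIdx_idx_self 3 j
    have hb3 : s3.mem b = s.mem b := by
      rw [hK3.mem b (by simp [Program.arrs, hb])]
      exact kb
    have h8 : s3.mem 8 0 0 = 2 * H := by
      rw [hK3'.mem 8 (by decide), hs2, State.write_mem_ne _ _ _ _ (by decide), State.setIdx_mem]
      exact hc1.mem8
    refine Spec.store ⟨⟨trivial, trivial⟩, trivial⟩ (by simp [Expr.cost, sc]) ?_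
    rw [e0, e2]
    refine ⟨?_, fun k hk => ?_⟩
    · rw [State.write_mem_self]
      simp only [Expr.val, sc, e0, e2, e3, State.setIdx_mem, i1, h8, hb3]
      rw [rh_last, zero_add]
    · rw [State.write_mem, if_neg (by simp [hk]), State.setIdx_mem]
      exact i2 k hk
  · intro s3 hI3 hK3 k hk
    rcases Nat.lt_succ_iff_lt_or_eq.1 hk with hk' | rfl
    · rw [hI3.2 k (by omega)]
      exact hI k hk'
    · exact hI3.1

/-- the digits of the `i`-th row of the product -/
def prodZ (n : ℕ) (az bz : ℕ → ℕ → ℤ) (i j : ℕ) : ℤ := ∑ k ∈ range n, az i k * bz k j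

theorem rowA_spec {s : State} {n : ℕ} {H : ℤ} (h : Ctx n H s) {a : ℕ} (ha : a ≠ 16) {i : ℕ}
    (hi : s.idx 2 = i) {az bz : ℕ → ℕ → ℤ} (haz : ∀ j < n, s.mem a i j = az i j)
    (hp : ∀ k < n, s.mem 14 k 0 = rh (fun j => (bz k j : ℝ)) (2 * H) 0 n) :
    Spec (rowA a) s (n * 9 + 4) (fun s' => s'.mem 16 0 0 =
      rh (fun j => (prodZ n az bz i j + H : ℝ)) (2 * H) 0 n) := by
  refine Spec.seq (c := 2) (c' := 1 + n * 9) ?_ (by omega)
  refine Spec.store trivial (by simp [Expr.cost, sc]) ?_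
  rw [h.idx1]
  set s1 := s.write 16 0 0 (Expr.val s (sc 15)) with hs1
  have k0 : s1.idx 0 = n := h.idx0
  have k1 : s1.idx 1 = 0 := h.idx1
  have k2 : s1.idx 2 = i := hi
  have ka : s1.mem a = s.mem a := by rw [hs1, State.write_mem_ne _ _ _ _ ha]
  have k14 : s1.mem 14 = s.mem 14 := by rw [hs1, State.write_mem_ne _ _ _ _ (by decide)]
  refine Spec.loop (N := n) (c := 8)
    (fun m s' => s'.mem 16 0 0 = rh (fun _ => (H : ℝ)) (2 * H) 0 n +
      ∑ k ∈ range m, az i k * rh (fun j => (bz k j : ℝ)) (2 * H) 0 n) k0 ?_ ?_ ?_ (by omega)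
  · rw [hs1, State.write_mem_self]
    simp [Expr.val, sc, h.idx1, h.mem15]
  · intro m hm s2 hI hK
    have hK' : Keeps [16] [4] s1 s2 := hK
    have e4 : (s2.setIdx 4 m).idx 4 = m := s2.setIdx_idx_self 4 m
    have e2 : (s2.setIdx 4 m).idx 2 = i := by
      rw [State.setIdx_idx_ne _ _ (by decide), hK'.idx 2 (by decide)]
      exact k2
    have e1 : (s2.setIdx 4 m).idx 1 = 0 := by
      rw [State.setIdx_idx_ne _ _ (by decide), hK'.idx 1 (by decide)]
      exact k1
    have h14 : s2.mem 14 = s.mem 14 := by rw [hK'.mem 14 (by decide)]; exact k14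
    have hma : s2.mem a = s.mem a := by
      rw [hK.mem a (by simp [Program.arrs, put, ha])]
      exact ka
    refine Spec.store ⟨trivial, trivial, trivial⟩ (by simp [Expr.cost, sc]) ?_
    rw [e1, State.write_mem_self]
    simp only [Expr.val, sc, e4, e2, e1, State.setIdx_mem, hI, h14, hma]
    rw [haz m hm, hp m hm, Finset.sum_range_succ]
    ring
  · intro s2 hI _
    rw [hI, ← Finset.sum_congr rfl (fun k _ => rh_mul (az i k : ℝ) _ _ _ _), ← rh_sum, add_comm,
      ← rh_add]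
    refine rh_congr _ fun j _ _ => ?_
    simp [prodZ]

theorem digP_spec {s : State} {n : ℕ} {H : ℤ} (h : Ctx n H s) {c i j k m : ℕ} (hc : c ∉ scr)
    (hi : s.idx 2 = i) (hj : s.idx 3 = j) (hm : 2 * (H : ℝ) + 1 ≤ 2 ^ m) {d : ℕ → ℤ}
    (hd : ∀ l, j ≤ l → l < j + (k + 1) → |d l| < H)
    (h16 : s.mem 16 0 0 = rh (fun j => (d j + H : ℝ)) (2 * H) j (k + 1))
    (h17 : s.mem 17 0 0 = (2 * H : ℝ) ^ (k + 1)) :
    Spec (digP c) s (25 * m + 34) (fun s' =>
      s'.mem 16 0 0 = rh (fun j => (d j + H : ℝ)) (2 * H) (j + 1) k ∧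
      s'.mem 17 0 0 = (2 * H : ℝ) ^ k ∧ s'.mem c i j = d j ∧
      ∀ i' j', (i', j') ≠ (i, j) → s'.mem c i' j' = s.mem c i' j') := by
  have hH1 : (1 : ℝ) ≤ H := by exact_mod_cast h.H1
  have hB : (0 : ℝ) < 2 * H := by linarith
  have hdig : ∀ l, j ≤ l → l < j + (k + 1) → 0 ≤ (d l + H : ℝ) ∧ (d l + H : ℝ) ≤ 2 * H - 1 := by
    intro l h1 h2
    have h3 := abs_lt.1 (hd l h1 h2)
    have h4 : -(H : ℝ) < d l := by exact_mod_cast h3.1
    have h5 : (d l : ℝ) + 1 ≤ H := by exact_mod_cast h3.2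
    exact ⟨by linarith, by linarith⟩
  simp only [scr, List.mem_cons, List.not_mem_nil, or_false, not_or] at hc
  obtain ⟨c14, c16, c17, c18, c19, c20⟩ := hc
  -- pw := pw / B
  refine Spec.seq (c := 4) (c' := 25 * m + 30) ?_ (by omega)
  refine Spec.store ⟨trivial, trivial, ?_⟩ (by simp [Expr.cost, sc]) ?_
  · simp only [Expr.val, sc, h.idx1, h.mem8]
    exact hB.ne'
  have e17 : Expr.val s (.div (sc 17) (sc 8)) = (2 * H : ℝ) ^ k := by
    simp only [Expr.val, sc, h.idx1, h.mem8, h17]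
    rw [pow_succ]
    field_simp
  rw [e17, h.idx1]
  set s1 := s.write 17 0 0 ((2 * H : ℝ) ^ k) with hs1
  have hc1 : Ctx n H s1 := h.keeps (keeps_write s 17 0 0 _ (A := [17]) [] (by simp)) (by decide)
    (by decide) (by decide) (by decide) (by decide) (by decide)
  have a16 : s1.mem 16 0 0 = rh (fun j => (d j + H : ℝ)) (2 * H) j (k + 1) := by
    rw [hs1, State.write_mem_ne _ _ _ _ (by decide)]; exact h16
  have a17 : s1.mem 17 0 0 = (2 * H : ℝ) ^ k := by rw [hs1, State.write_mem_self]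
  have ac : s1.mem c = s.mem c := by rw [hs1, State.write_mem_ne _ _ _ _ c17]
  -- u := w / pw
  refine Spec.seq (c := 4) (c' := 25 * m + 26) ?_ (by omega)
  refine Spec.store ⟨trivial, trivial, ?_⟩ (by simp [Expr.cost, sc]) ?_
  · simp only [Expr.val, sc, hc1.idx1, a17]
    positivity
  set y : ℝ := rh (fun j => (d j + H : ℝ)) (2 * H) j (k + 1) / (2 * H) ^ k with hy
  have e19 : Expr.val s1 (.div (sc 16) (sc 17)) = y := by
    simp only [Expr.val, sc, hc1.idx1, a16, a17, hy]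
  rw [e19, hc1.idx1]
  set s2 := s1.write 19 0 0 y with hs2
  have hc2 : Ctx n H s2 := hc1.keeps (keeps_write s1 19 0 0 _ (A := [19]) [] (by simp)) (by decide)
    (by decide) (by decide) (by decide) (by decide) (by decide)
  have b16 : s2.mem 16 0 0 = rh (fun j => (d j + H : ℝ)) (2 * H) j (k + 1) := by
    rw [hs2, State.write_mem_ne _ _ _ _ (by decide)]; exact a16
  have b17 : s2.mem 17 0 0 = (2 * H : ℝ) ^ k := by
    rw [hs2, State.write_mem_ne _ _ _ _ (by decide)]; exact a17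
  have b19 : s2.mem 19 0 0 = y := by rw [hs2, State.write_mem_self]
  have bc : s2.mem c = s.mem c := by rw [hs2, State.write_mem_ne _ _ _ _ c19]; exact ac
  have hy' : y = (d j + H) + rh (fun j => (d j + H : ℝ)) (2 * H) (j + 1) k / (2 * H) ^ k := by
    rw [hy, rh_succ]
    field_simp
  obtain ⟨t1, t2⟩ := rh_bound (d := fun j => (d j + H : ℝ)) (B := 2 * H) (j := j + 1) (c := k)
    (by linarith) (fun l h1 h2 => hdig l (by omega) (by omega))
  have t3 : 0 ≤ rh (fun j => (d j + H : ℝ)) (2 * H) (j + 1) k / (2 * H) ^ k := by positivity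
  have t4 : rh (fun j => (d j + H : ℝ)) (2 * H) (j + 1) k / (2 * H) ^ k < 1 := by
    rw [div_lt_one (by positivity)]
    linarith
  obtain ⟨t5, t6⟩ := hdig j le_rfl (by omega)
  have hfl : ⌊y⌋ = d j + H := by
    rw [Int.floor_eq_iff]
    push_cast
    rw [hy']
    exact ⟨by linarith, by linarith⟩
  refine Spec.seq (c := floorCost m) (c' := 14) ?_ (by unfold floorCost; omega)
  refine (floorP_spec hc2.idx1 b19 (by rw [hy']; linarith) (m := m) (by rw [hy']; linarith)).keep
    le_rfl ?_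
  intro s3 h18 hK
  have hc3 : Ctx n H s3 := hc2.keeps hK (by decide) (by decide) (by decide) (by decide) (by decide)
    (by decide)
  have d16 : s3.mem 16 0 0 = rh (fun j => (d j + H : ℝ)) (2 * H) j (k + 1) := by
    rw [hK.mem 16 (by decide)]; exact b16
  have d17 : s3.mem 17 0 0 = (2 * H : ℝ) ^ k := by rw [hK.mem 17 (by decide)]; exact b17
  have dc : s3.mem c = s.mem c := by
    rw [hK.mem c (by
      have : floorP.arrs = [20, 20, 18, 20, 18, 18] := rfl
      rw [this]
      simp [c18, c20])]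
    exact bc
  have d2 : s3.idx 2 = i := by rw [hK.idx 2 (by decide)]; exact hi
  have d3 : s3.idx 3 = j := by rw [hK.idx 3 (by decide)]; exact hj
  rw [hfl] at h18
  push_cast at h18
  -- w := w - fl * pw
  refine Spec.seq (c := 6) (c' := 8) ?_ (by omega)
  refine Spec.store ⟨trivial, trivial, trivial⟩ (by simp [Expr.cost, sc]) ?_
  have e16 : Expr.val s3 (.sub (sc 16) (.mul (sc 18) (sc 17))) =
      rh (fun j => (d j + H : ℝ)) (2 * H) (j + 1) k := by
    simp only [Expr.val, sc, hc3.idx1, d16, d17, h18]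
    rw [rh_succ]
    ring
  rw [e16, hc3.idx1]
  set s4 := s3.write 16 0 0 (rh (fun j => (d j + H : ℝ)) (2 * H) (j + 1) k) with hs4
  have hc4 : Ctx n H s4 := hc3.keeps (keeps_write s3 16 0 0 _ (A := [16]) [] (by simp)) (by decide)
    (by decide) (by decide) (by decide) (by decide) (by decide)
  have f18 : s4.mem 18 0 0 = d j + H := by
    rw [hs4, State.write_mem_ne _ _ _ _ (by decide)]; exact h18
  have f17 : s4.mem 17 0 0 = (2 * H : ℝ) ^ k := by
    rw [hs4, State.write_mem_ne _ _ _ _ (by decide)]; exact d17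
  have f16 : s4.mem 16 0 0 = rh (fun j => (d j + H : ℝ)) (2 * H) (j + 1) k := by
    rw [hs4, State.write_mem_self]
  have fc : s4.mem c = s.mem c := by rw [hs4, State.write_mem_ne _ _ _ _ c16]; exact dc
  have f2 : s4.idx 2 = i := d2
  have f3 : s4.idx 3 = j := d3
  refine Spec.store ⟨trivial, trivial⟩ (by simp [Expr.cost, sc]) ?_
  rw [f2, f3]
  have ec : Expr.val s4 (.sub (sc 18) (sc 7)) = d j := by
    simp only [Expr.val, sc, hc4.idx1, f18, hc4.mem7]
    ring
  rw [ec]
  refine ⟨?_, ?_, State.write_mem_self _ _ _ _ _, ?_⟩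
  · rw [State.write_mem_ne _ _ _ _ (Ne.symm c16)]; exact f16
  · rw [State.write_mem_ne _ _ _ _ (Ne.symm c17)]; exact f17
  · intro i' j' hne
    rw [State.write_mem, if_neg (by
      rintro ⟨rfl, rfl⟩
      exact hne rfl), fc]

theorem rowB_spec {s : State} {n : ℕ} {H : ℤ} (h : Ctx n H s) {c i m : ℕ}
    (hc : c ∉ 7 :: 8 :: 9 :: 15 :: scr) (hi : s.idx 2 = i) (hm : 2 * (H : ℝ) + 1 ≤ 2 ^ m)
    {d : ℕ → ℤ} (hd : ∀ l < n, |d l| < H)
    (h16 : s.mem 16 0 0 = rh (fun j => (d j + H : ℝ)) (2 * H) 0 n) :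
    Spec (rowB c) s (n * (25 * m + 35) + 3) (fun s' => (∀ j < n, s'.mem c i j = d j) ∧
      ∀ i' j', i' ≠ i → s'.mem c i' j' = s.mem c i' j') := by
  simp only [scr, List.mem_cons, List.not_mem_nil, or_false, not_or] at hc
  obtain ⟨c7, c8, c9, c15, c14, c16, c17, c18, c19, c20⟩ := hc
  refine Spec.seq (c := 2) (c' := 1 + n * (25 * m + 35)) ?_ (by omega)
  refine Spec.store trivial (by simp [Expr.cost, sc]) ?_
  rw [h.idx1]
  set s1 := s.write 17 0 0 (Expr.val s (sc 9)) with hs1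
  have hc1 : Ctx n H s1 := h.keeps (keeps_write s 17 0 0 _ (A := [17]) [] (by simp)) (by decide)
    (by decide) (by decide) (by decide) (by decide) (by decide)
  have k2 : s1.idx 2 = i := hi
  have k16 : s1.mem 16 0 0 = rh (fun j => (d j + H : ℝ)) (2 * H) 0 n := by
    rw [hs1, State.write_mem_ne _ _ _ _ (by decide)]; exact h16
  have k17 : s1.mem 17 0 0 = (2 * H : ℝ) ^ n := by
    rw [hs1, State.write_mem_self]
    simp only [Expr.val, sc, h.idx1, h.mem9]
  have kc : s1.mem c = s.mem c := by rw [hs1, State.write_mem_ne _ _ _ _ c17]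
  refine Spec.loop (N := n) (c := 25 * m + 34)
    (fun j s' => s'.mem 16 0 0 = rh (fun j => (d j + H : ℝ)) (2 * H) j (n - j) ∧
      s'.mem 17 0 0 = (2 * H : ℝ) ^ (n - j) ∧ (∀ l < j, s'.mem c i l = d l) ∧
      ∀ i' j', i' ≠ i → s'.mem c i' j' = s.mem c i' j') hc1.idx0
    ⟨by simpa using k16, by simpa using k17, by simp, fun i' j' _ => by rw [kc]⟩ ?_
    (fun s' hI _ => ⟨hI.2.2.1, hI.2.2.2⟩) le_rfl
  intro j hj s2 hI hK
  obtain ⟨i1, i2, i3, i4⟩ := hI
  have harr : ∀ x, x ≠ c → x ∉ scr → x ∉ (digP c).arrs := by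
    intro x h1 h2
    simp only [scr, List.mem_cons, List.not_mem_nil, or_false, not_or] at h2
    rw [digP_arrs]
    simp only [List.mem_cons, List.not_mem_nil, or_false, not_or]
    tauto
  have hc2 : Ctx n H (s2.setIdx 3 j) := by
    have hk2 : Keeps ((digP c).arrs) (3 :: (digP c).regs) s1 (s2.setIdx 3 j) :=
      hK.trans (keeps_setIdx _ _ _ _ (by simp))
    exact hc1.keeps hk2 (harr 7 (Ne.symm c7) (by decide)) (harr 8 (Ne.symm c8) (by decide))
      (harr 9 (Ne.symm c9) (by decide)) (harr 15 (Ne.symm c15) (by decide)) (by rw [digP_regs]; decide)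
      (by rw [digP_regs]; decide)
  have hn : n - j = (n - (j + 1)) + 1 := by omega
  rw [hn] at i1 i2
  refine (digP_spec hc2 (c := c) (i := i) (j := j) (k := n - (j + 1)) (m := m)
    (by simp [scr, c14, c16, c17, c18, c19, c20]) ?_ (State.setIdx_idx_self _ _ _) hm
    (fun l h1 h2 => hd l (by omega)) i1 i2).mono le_rfl ?_
  · rw [State.setIdx_idx_ne _ _ (by decide), hK.idx 2 (by rw [digP_regs]; decide)]
    exact k2
  · rintro s3 ⟨j1, j2, j3, j4⟩
    refine ⟨j1, j2, fun l hl => ?_, fun i' j' hi' => ?_⟩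
    · rcases Nat.lt_succ_iff_lt_or_eq.1 hl with hl' | rfl
      · rw [j4 i l (by simp only [ne_eq, Prod.mk.injEq, not_and]; intro _; omega)]
        exact i3 l hl'
      · exact j3
    · rw [j4 i' j' (by simp [hi'])]
      exact i4 i' j' hi'

/-- the number of steps of `mulP` -/
def mulCost (n m : ℕ) : ℕ := n * n * (25 * m + 60) + n * 20 + 10

theorem mulP_arrs (a b c : ℕ) : (mulP a b c).arrs =
    [14, 14, 16, 16, 17, 17, 19, 20, 20, 18, 20, 18, 18, 16, c] := rfl

theorem mulP_regs (a b c : ℕ) : (mulP a b c).regs = [4, 3, 2, 4, 3] := rfl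

theorem mulP_spec {s : State} {n : ℕ} {H : ℤ} (h : Ctx n H s) {a b c m : ℕ}
    (ha : a ∉ scr) (hb : b ∉ scr) (hc : c ∉ 7 :: 8 :: 9 :: 15 :: scr) (hca : c ≠ a)
    (hm : 2 * (H : ℝ) + 1 ≤ 2 ^ m) {az bz : ℕ → ℕ → ℤ}
    (haz : ∀ i < n, ∀ j < n, s.mem a i j = az i j) (hbz : ∀ i < n, ∀ j < n, s.mem b i j = bz i j)
    (hd : ∀ i < n, ∀ j < n, |prodZ n az bz i j| < H) :
    Spec (mulP a b c) s (mulCost n m) (fun s' =>
      ∀ i < n, ∀ j < n, s'.mem c i j = prodZ n az bz i j) := by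
  have hc' := hc
  simp only [scr, List.mem_cons, List.not_mem_nil, or_false, not_or] at ha hb hc'
  obtain ⟨a14, a16, a17, a18, a19, a20⟩ := ha
  obtain ⟨b14, b16, b17, b18, b19, b20⟩ := hb
  obtain ⟨c7, c8, c9, c15, c14, c16, c17, c18, c19, c20⟩ := hc'
  refine Spec.seq (c := 1 + n * (10 * n + 4)) (c' := 1 + n * (n * (25 * m + 44) + 8)) ?_
    (by unfold mulCost; ring_nf; omega)
  refine (packP_spec h b14).keep le_rfl ?_
  intro s1 h14 hK1
  have hpa : (packP b).arrs = [14, 14] := rfl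
  have hpr : (packP b).regs = [4, 3] := rfl
  have hc1 : Ctx n H s1 := h.keeps hK1 (by rw [hpa]; decide) (by rw [hpa]; decide)
    (by rw [hpa]; decide) (by rw [hpa]; decide) (by rw [hpr]; decide) (by rw [hpr]; decide)
  have hma : s1.mem a = s.mem a := hK1.mem a (by rw [hpa]; simp [a14])
  have hpk : ∀ k < n, s1.mem 14 k 0 = rh (fun j => (bz k j : ℝ)) (2 * H) 0 n := by
    intro k hk
    rw [h14 k hk]
    exact rh_congr _ fun j _ hj => hbz k hk j (by omega)
  refine Spec.loop (N := n) (c := (n * 9 + 4) + (n * (25 * m + 35) + 3))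
    (fun i s' => ∀ i' < i, ∀ j < n, s'.mem c i' j = prodZ n az bz i' j) hc1.idx0 (by simp) ?_
    (fun s' hI _ => hI) (by ring_nf; omega)
  intro i hi s2 hI hK2
  have hba : (Program.seq (rowA a) (rowB c)).arrs = [16, 16, 17, 17, 19, 20, 20, 18, 20, 18, 18, 16, c] :=
    rfl
  have hbr : (Program.seq (rowA a) (rowB c)).regs = [4, 3] := rfl
  have hK2' : Keeps (Program.seq (rowA a) (rowB c)).arrs (2 :: (Program.seq (rowA a) (rowB c)).regs)
      s1 (s2.setIdx 2 i) := hK2.trans (keeps_setIdx _ _ _ _ (by simp))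
  rw [hba, hbr] at hK2'
  have hc2 : Ctx n H (s2.setIdx 2 i) := hc1.keeps hK2' (by simp [Ne.symm c7])
    (by simp [Ne.symm c8]) (by simp [Ne.symm c9]) (by simp [Ne.symm c15]) (by decide) (by decide)
  have hma2 : (s2.setIdx 2 i).mem a = s.mem a := by
    rw [hK2'.mem a (by simp [a16, a17, a18, a19, a20, Ne.symm hca])]
    exact hma
  have h14' : (s2.setIdx 2 i).mem 14 = s1.mem 14 := hK2'.mem 14 (by simp [Ne.symm c14])
  refine Spec.seq (c := n * 9 + 4) (c' := n * (25 * m + 35) + 3) ?_ le_rfl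
  refine (rowA_spec hc2 a16 (State.setIdx_idx_self _ _ _) (az := az) (bz := bz)
    (fun j hj => by rw [hma2]; exact haz i hi j hj) (fun k hk => by rw [h14']; exact hpk k hk)).keep
    le_rfl ?_
  intro s3 h16 hK3
  have hra : (rowA a).arrs = [16, 16] := rfl
  have hrr : (rowA a).regs = [4] := rfl
  rw [hra, hrr] at hK3
  have hc3 : Ctx n H s3 := hc2.keeps hK3 (by decide) (by decide) (by decide) (by decide)
    (by decide) (by decide)
  refine (rowB_spec hc3 hc (i := i) (by rw [hK3.idx 2 (by decide)]; exact State.setIdx_idx_self _ _ _)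
    hm (hd i hi) h16).mono le_rfl ?_
  rintro s4 ⟨h41, h42⟩
  intro i' hi' j hj
  rcases Nat.lt_succ_iff_lt_or_eq.1 hi' with hi'' | rfl
  · rw [h42 i' j (by omega), hK3.mem c (by simp [c16])]
    exact hI i' hi'' j hj
  · exact h41 j hj

end Pool.Agent.Y541
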