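import Pool.Agent.Y541.Stage

/-!
# The Newton iteration and the certificate
-/

set_option autoImplicit false

namespace Pool.Agent.Y541

open Finset

/-- one Newton step -/
def newtP : Program :=
  seqs (mulP 11 10 12)
    [mapP (.store 12 2 3 (.sub (.mul (.mul (.const 2) q2) (.entry 25 2 3)) (.entry 12 2 3))),
      mulP 12 11 13, updP]

/-- the state during the Newton iteration -/
structure SInv (n : ℕ) (a : ℕ → ℕ → ℝ) (σ : ℝ) (q : ℤ) (az xz : ℕ → ℕ → ℤ) (s : State) : Prop where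
  base : Base n a σ s
  ctx : Ctx n (offH n q) s
  m6 : s.mem 6 0 0 = q
  m10 : ∀ i < n, ∀ j < n, s.mem 10 i j = az i j
  m11 : ∀ i < n, ∀ j < n, s.mem 11 i j = xz i j

/-- the number of steps of `newtP` -/
def newtCost (n m : ℕ) : ℕ :=
  2 * mulCost n m + (1 + n * (n * 11 + 2)) + (1 + n * (n * (25 * m + 60) + 2))

theorem newt_abs_le {n : ℕ} {q : ℤ} (hq : 1 ≤ q) (az xz : ℕ → ℕ → ℤ) (i j : ℕ) :
    |newt n q az xz i j| ≤ q ^ 3 := by
  have h : (0 : ℤ) ≤ q ^ 3 := by positivity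
  rw [abs_le]
  unfold newt
  constructor
  · exact le_max_left _ _
  · exact max_le (by linarith) (min_le_left _ _)

theorem newtP_spec {s : State} {n m : ℕ} {a : ℕ → ℕ → ℝ} {σ : ℝ} {q : ℤ} {az xz : ℕ → ℕ → ℤ}
    (h : SInv n a σ q az xz s) (hn : 1 ≤ n) (hq : 1 ≤ q)
    (ha : ∀ i < n, ∀ j < n, |az i j| ≤ q) (hx : ∀ i < n, ∀ j < n, |xz i j| ≤ q ^ 3)
    (hm : 2 * (offH n q : ℝ) + 1 ≤ 2 ^ m) :
    Spec newtP s (newtCost n m) (SInv n a σ q az (newt n q az xz)) := by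
  obtain ⟨bd1, bd2⟩ := bounds hn hq ha hx
  refine Spec.seq (c := mulCost n m) (c' := mulCost n m + (1 + n * (n * 11 + 2)) +
    (1 + n * (n * (25 * m + 60) + 2))) ?_ (by unfold newtCost; omega)
  refine (mulP_spec h.ctx (a := 11) (b := 10) (c := 12) (by decide) (by decide) (by decide)
    (by decide) hm h.m11 h.m10 bd1).keep le_rfl ?_
  intro s1 r1 hK1
  rw [mulP_arrs, mulP_regs] at hK1
  have b1 : Base n a σ s1 := h.base.keeps hK1 (by decide) (by decide)
  have c1 : Ctx n (offH n q) s1 := h.ctx.keeps' hK1 (by decide) (by decide)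
  have e6 : s1.mem 6 0 0 = q := by rw [hK1.mem 6 (by decide)]; exact h.m6
  have e10 : ∀ i < n, ∀ j < n, s1.mem 10 i j = az i j := by
    rw [hK1.mem 10 (by decide)]; exact h.m10
  have e11 : ∀ i < n, ∀ j < n, s1.mem 11 i j = xz i j := by
    rw [hK1.mem 11 (by decide)]; exact h.m11
  refine Spec.seq (c := 1 + n * (n * 11 + 2)) (c' := mulCost n m +
    (1 + n * (n * (25 * m + 60) + 2))) ?_ (by omega)
  refine (store_map_spec (c := 12) b1.idx0
    (.sub (.mul (.mul (.const 2) q2) (.entry 25 2 3)) (.entry 12 2 3))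
    (fun i j => (pz n q az xz i j : ℝ)) ?_).keep (by simp [Expr.cost, sc, q2]) ?_
  · intro i hi j hj s' hK h2 h3 hc
    refine ⟨⟨⟨⟨trivial, q2_def _⟩, trivial⟩, trivial⟩, ?_⟩
    have k1 : s'.idx 1 = 0 := by rw [hK.idx 1 (by decide)]; exact b1.idx1
    have k6 : s'.mem 6 0 0 = q := by rw [hK.mem 6 (by decide)]; exact e6
    have k25 : s'.mem 25 i j = if i = j then 1 else 0 := by
      rw [hK.mem 25 (by decide)]; exact b1.mem25 i hi j hj
    have := q2_val k1 k6
    simp only [Expr.val, this, h2, h3, hc, r1 i hi j hj, k25, pz]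
    push_cast
    ring
  intro s2 r2 hK2
  rw [mapP_arrs, mapP_regs] at hK2
  have b2 : Base n a σ s2 := b1.keeps hK2 (by decide) (by decide)
  have c2 : Ctx n (offH n q) s2 := c1.keeps' hK2 (by decide) (by decide)
  have f6 : s2.mem 6 0 0 = q := by rw [hK2.mem 6 (by decide)]; exact e6
  have f10 : ∀ i < n, ∀ j < n, s2.mem 10 i j = az i j := by
    rw [hK2.mem 10 (by decide)]; exact e10
  have f11 : ∀ i < n, ∀ j < n, s2.mem 11 i j = xz i j := by
    rw [hK2.mem 11 (by decide)]; exact e11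
  refine Spec.seq (c := mulCost n m) (c' := 1 + n * (n * (25 * m + 60) + 2)) ?_ le_rfl
  refine (mulP_spec c2 (a := 12) (b := 11) (c := 13) (by decide) (by decide) (by decide)
    (by decide) hm r2 f11 bd2).keep le_rfl ?_
  intro s3 r3 hK3
  rw [mulP_arrs, mulP_regs] at hK3
  have b3 : Base n a σ s3 := b2.keeps hK3 (by decide) (by decide)
  have c3 : Ctx n (offH n q) s3 := c2.keeps' hK3 (by decide) (by decide)
  have g6 : s3.mem 6 0 0 = q := by rw [hK3.mem 6 (by decide)]; exact f6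
  have g10 : ∀ i < n, ∀ j < n, s3.mem 10 i j = az i j := by
    rw [hK3.mem 10 (by decide)]; exact f10
  refine (updP_spec c3 hq g6 r3 bd2 hm).keep le_rfl ?_
  intro s4 r4 hK4
  exact ⟨b3.keeps hK4 (by decide) (by decide), c3.keeps' hK4 (by decide) (by decide),
    by rw [hK4.mem 6 (by decide)]; exact g6, by rw [hK4.mem 10 (by decide)]; exact g10, r4⟩

/-- the sum of the absolute values of the entries -/
def absSum (n : ℕ) (x : ℕ → ℕ → ℤ) : ℝ := ∑ i ∈ range n, ∑ j ∈ range n, |(x i j : ℝ)|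

/-- the matrix `q² - X A` -/
def rz (n : ℕ) (q : ℤ) (az xz : ℕ → ℕ → ℤ) (i j : ℕ) : ℤ :=
  q ^ 2 * (if i = j then 1 else 0) - prodZ n xz az i j

/-- the value of the certificate -/
noncomputable def certV (n : ℕ) (q : ℤ) (az xz : ℕ → ℕ → ℤ) : ℝ :=
  (absSum n (rz n q az xz) + n * absSum n xz) / (q : ℝ) ^ 2

/-- computation of the certificate (scalar `5`) and of the sum of the absolute values of the entries
of the approximate inverse (scalar `24`) -/
def certP : Program :=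
  seqs (mulP 11 10 12) [put 5 (.const 0), put 24 (.const 0),
    mapP (absP 5 (.sub (.mul q2 (.entry 25 2 3)) (.entry 12 2 3))),
    mapP (absP 24 (.entry 11 2 3)),
    put 5 (.div (.add (sc 5) (.mul (sc 21) (sc 24))) q2)]

/-- the number of steps of `certP` -/
def certCost (n m : ℕ) : ℕ :=
  mulCost n m + (1 + n * (n * 20 + 2)) + (1 + n * (n * 8 + 2)) + 14

theorem certP_spec {s : State} {n m : ℕ} {a : ℕ → ℕ → ℝ} {σ : ℝ} {q : ℤ} {az xz : ℕ → ℕ → ℤ}
    (h : SInv n a σ q az xz s) (hn : 1 ≤ n) (hq : 1 ≤ q)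
    (ha : ∀ i < n, ∀ j < n, |az i j| ≤ q) (hx : ∀ i < n, ∀ j < n, |xz i j| ≤ q ^ 3)
    (hm : 2 * (offH n q : ℝ) + 1 ≤ 2 ^ m) :
    Spec certP s (certCost n m) (fun s' => SInv n a σ q az xz s' ∧
      s'.mem 5 0 0 = certV n q az xz ∧ s'.mem 24 0 0 = absSum n xz) := by
  obtain ⟨bd1, -⟩ := bounds hn hq ha hx
  refine Spec.seq (c := mulCost n m) (c' := (1 + n * (n * 20 + 2)) + (1 + n * (n * 8 + 2)) + 14)
    ?_ (by unfold certCost; omega)
  refine (mulP_spec h.ctx (a := 11) (b := 10) (c := 12) (by decide) (by decide) (by decide)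
    (by decide) hm h.m11 h.m10 bd1).keep le_rfl ?_
  intro s1 r1 hK1
  rw [mulP_arrs, mulP_regs] at hK1
  have b1 : Base n a σ s1 := h.base.keeps hK1 (by decide) (by decide)
  have c1 : Ctx n (offH n q) s1 := h.ctx.keeps' hK1 (by decide) (by decide)
  have e6 : s1.mem 6 0 0 = q := by rw [hK1.mem 6 (by decide)]; exact h.m6
  have e10 : ∀ i < n, ∀ j < n, s1.mem 10 i j = az i j := by
    rw [hK1.mem 10 (by decide)]; exact h.m10
  have e11 : ∀ i < n, ∀ j < n, s1.mem 11 i j = xz i j := by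
    rw [hK1.mem 11 (by decide)]; exact h.m11
  refine Spec.seq (c := 2) (c' := (1 + n * (n * 20 + 2)) + (1 + n * (n * 8 + 2)) + 12)
    ?_ (by omega)
  refine Spec.store trivial (by simp [Expr.cost]) ?_
  rw [b1.idx1]
  set s2 := s1.write 5 0 0 (Expr.val s1 (.const 0)) with hs2
  have k12 : Keeps [5] [] s1 s2 := keeps_write s1 5 0 0 _ _ (by simp)
  have v5 : s2.mem 5 0 0 = 0 := by rw [hs2, State.write_mem_self]; simp [Expr.val]
  have k1 : s2.idx 1 = 0 := b1.idx1
  refine Spec.seq (c := 2) (c' := (1 + n * (n * 20 + 2)) + (1 + n * (n * 8 + 2)) + 10)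
    ?_ (by omega)
  refine Spec.store trivial (by simp [Expr.cost]) ?_
  rw [k1]
  set s3 := s2.write 24 0 0 (Expr.val s2 (.const 0)) with hs3
  have k23 : Keeps [24] [] s2 s3 := keeps_write s2 24 0 0 _ _ (by simp)
  have w24 : s3.mem 24 0 0 = 0 := by rw [hs3, State.write_mem_self]; simp [Expr.val]
  have w5 : s3.mem 5 0 0 = 0 := by rw [k23.mem 5 (by decide)]; exact v5
  have k13 : Keeps [5, 24] [] s1 s3 :=
    (k12.mono (by simp) (by simp)).trans (k23.mono (by simp) (by simp))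
  have b3 : Base n a σ s3 := b1.keeps k13 (by decide) (by decide)
  have c3 : Ctx n (offH n q) s3 := c1.keeps' k13 (by decide) (by decide)
  have g6 : s3.mem 6 0 0 = q := by rw [k13.mem 6 (by decide)]; exact e6
  have g10 : ∀ i < n, ∀ j < n, s3.mem 10 i j = az i j := by
    rw [k13.mem 10 (by decide)]; exact e10
  have g11 : ∀ i < n, ∀ j < n, s3.mem 11 i j = xz i j := by
    rw [k13.mem 11 (by decide)]; exact e11
  have g12 : ∀ i < n, ∀ j < n, s3.mem 12 i j = prodZ n xz az i j := by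
    rw [k13.mem 12 (by decide)]; exact r1
  refine Spec.seq (c := 1 + n * (n * 20 + 2)) (c' := (1 + n * (n * 8 + 2)) + 10)
    ?_ (by omega)
  refine (sumP_spec (cb := 19) b3.idx0 (by decide) (by decide) (fun s => s.mem 5 0 0)
    (fun _ _ _ => rfl) (fun i j => |(rz n q az xz i j : ℝ)|) ?_).keep le_rfl ?_
  · intro i hi j hj s' hK h2 h3
    have hK' : Keeps [5, 5] [2, 3] s3 s' := hK
    have l1 : s'.idx 1 = 0 := by rw [hK'.idx 1 (by decide)]; exact b3.idx1
    have l6 : s'.mem 6 0 0 = q := by rw [hK'.mem 6 (by decide)]; exact g6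
    have l12 : s'.mem 12 i j = prodZ n xz az i j := by
      rw [hK'.mem 12 (by decide)]; exact g12 i hi j hj
    have l25 : s'.mem 25 i j = if i = j then 1 else 0 := by
      rw [hK'.mem 25 (by decide)]; exact b3.mem25 i hi j hj
    refine (absP_spec l1 (a := 5) (e := .sub (.mul q2 (.entry 25 2 3)) (.entry 12 2 3))
      (x := (rz n q az xz i j : ℝ)) ⟨⟨q2_def _, trivial⟩, trivial⟩ rfl ?_).mono (by simp [Expr.cost, q2, sc]) (fun _ h => h)
    have := q2_val l1 l6
    simp only [Expr.val, this, h2, h3, l12, l25, rz]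
    push_cast
    ring
  intro s4 r4 hK4
  have hK4' : Keeps [5, 5] [2, 3] s3 s4 := hK4
  have x24 : s4.mem 24 0 0 = 0 := by rw [hK4'.mem 24 (by decide)]; exact w24
  have b4 : Base n a σ s4 := b3.keeps hK4' (by decide) (by decide)
  have c4 : Ctx n (offH n q) s4 := c3.keeps' hK4' (by decide) (by decide)
  have h6 : s4.mem 6 0 0 = q := by rw [hK4'.mem 6 (by decide)]; exact g6
  have h10 : ∀ i < n, ∀ j < n, s4.mem 10 i j = az i j := by
    rw [hK4'.mem 10 (by decide)]; exact g10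
  have h11 : ∀ i < n, ∀ j < n, s4.mem 11 i j = xz i j := by
    rw [hK4'.mem 11 (by decide)]; exact g11
  refine Spec.seq (c := 1 + n * (n * 8 + 2)) (c' := 10) ?_ le_rfl
  refine (sumP_spec (cb := 7) b4.idx0 (by decide) (by decide) (fun s => s.mem 24 0 0)
    (fun _ _ _ => rfl) (fun i j => |(xz i j : ℝ)|) ?_).keep le_rfl ?_
  · intro i hi j hj s' hK h2 h3
    have hK' : Keeps [24, 24] [2, 3] s4 s' := hK
    have l1 : s'.idx 1 = 0 := by rw [hK'.idx 1 (by decide)]; exact b4.idx1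
    have l11 : s'.mem 11 i j = xz i j := by
      rw [hK'.mem 11 (by decide)]; exact h11 i hi j hj
    refine (absP_spec l1 (a := 24) (e := .entry 11 2 3) (x := (xz i j : ℝ)) trivial rfl ?_).mono
      (by simp [Expr.cost]) (fun _ h => h)
    simp only [Expr.val, h2, h3, l11]
  intro s5 r5 hK5
  have hK5' : Keeps [24, 24] [2, 3] s4 s5 := hK5
  have y5 : s5.mem 5 0 0 = absSum n (rz n q az xz) := by
    rw [hK5'.mem 5 (by decide), r4, w5, zero_add]
    rfl
  have y24 : s5.mem 24 0 0 = absSum n xz := by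
    rw [r5, x24, zero_add]
    rfl
  have b5 : Base n a σ s5 := b4.keeps hK5' (by decide) (by decide)
  have y6 : s5.mem 6 0 0 = q := by rw [hK5'.mem 6 (by decide)]; exact h6
  have hq0 : (q : ℝ) ^ 2 ≠ 0 := by
    have : (1 : ℝ) ≤ q := by exact_mod_cast hq
    positivity
  refine Spec.store ⟨⟨trivial, trivial, trivial⟩, q2_def _, by rw [q2_val b5.idx1 y6]; exact hq0⟩
    (by simp [Expr.cost, sc, q2]) ?_
  rw [b5.idx1]
  have e5 : Expr.val s5 (.div (.add (sc 5) (.mul (sc 21) (sc 24))) q2) = certV n q az xz := by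
    have := q2_val b5.idx1 y6
    simp only [Expr.val, sc, b5.idx1, this, y5, y24, b5.mem21, certV]
  rw [e5]
  set s6 := s5.write 5 0 0 (certV n q az xz) with hs6
  have k56 : Keeps [5] [] s5 s6 := keeps_write s5 5 0 0 _ _ (by simp)
  have k46 : Keeps [24, 5] [2, 3] s4 s6 :=
    (hK5'.mono (by simp) (by simp)).trans (k56.mono (by simp) (by simp))
  refine ⟨⟨b4.keeps k46 (by decide) (by decide), c4.keeps' k46 (by decide) (by decide),
    by rw [k46.mem 6 (by decide)]; exact h6, by rw [k46.mem 10 (by decide)]; exact h10,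
    by rw [k46.mem 11 (by decide)]; exact h11⟩, by rw [hs6, State.write_mem_self], ?_⟩
  rw [k56.mem 24 (by decide)]
  exact y24

/-- one stage; the number of bits is in the index register `5` and is doubled at the end -/
def stageP : Program :=
  seqs powP [ctxP, roundP, transP, .addIdx 7 5 5, .addIdx 7 7 7, .addIdx 7 7 7,
    .loop 8 7 newtP, certP, .addIdx 5 5 5]

/-- the rounded matrix -/
noncomputable def azf (a : ℕ → ℕ → ℝ) (σ : ℝ) (L : ℕ) (i j : ℕ) : ℤ :=
  ⌊(2 : ℝ) ^ L * a i j / σ⌋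

/-- the approximate inverse computed in one stage -/
noncomputable def xzf (n : ℕ) (a : ℕ → ℕ → ℝ) (σ : ℝ) (L : ℕ) : ℕ → ℕ → ℤ :=
  (newt n (2 ^ L) (azf a σ L))^[8 * L] (fun i j => azf a σ L j i)

theorem azf_abs_le {n : ℕ} {a : ℕ → ℕ → ℝ} {σ : ℝ} (hσ : 0 < σ) (L : ℕ)
    (ha : ∀ i < n, ∀ j < n, |a i j| ≤ σ) : ∀ i < n, ∀ j < n, |azf a σ L i j| ≤ 2 ^ L := by
  intro i hi j hj
  obtain ⟨h1, h2⟩ := abs_le.1 (ha i hi j hj)
  have hp : (0 : ℝ) < 2 ^ L := by positivity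
  have h3 : (2 : ℝ) ^ L * a i j / σ ≤ 2 ^ L := by
    rw [div_le_iff₀ hσ]
    nlinarith
  have h4 : -(2 : ℝ) ^ L ≤ (2 : ℝ) ^ L * a i j / σ := by
    rw [le_div_iff₀ hσ]
    nlinarith
  rw [abs_le]
  unfold azf
  constructor
  · apply Int.le_floor.2
    push_cast
    exact h4
  · have h5 : ((⌊(2 : ℝ) ^ L * a i j / σ⌋ : ℤ) : ℝ) ≤ ((2 ^ L : ℤ) : ℝ) := by
      push_cast
      exact (Int.floor_le _).trans h3
    exact_mod_cast h5

/-- the number of steps of one stage -/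
def stageCost (n m L : ℕ) : ℕ :=
  (5 * L + 3) + (11 * n + 29) + (1 + n * (n * (25 * m + 25) + 2)) + (1 + n * (n * 3 + 2)) + 3 +
    (1 + 8 * L * (newtCost n m + 1)) + certCost n m + 1

theorem stageP_spec {s : State} {n m L : ℕ} {a : ℕ → ℕ → ℝ} {σ : ℝ} (h : Base n a σ s)
    (hL : s.idx 5 = L) (hn : 1 ≤ n) (hσ : 0 < σ) (ha : ∀ i < n, ∀ j < n, |a i j| ≤ σ)
    (hm : 2 * (offH n (2 ^ L) : ℝ) + 1 ≤ 2 ^ m) :
    Spec stageP s (stageCost n m L) (fun s' => Base n a σ s' ∧ s'.idx 5 = L + L ∧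
      s'.mem 6 0 0 = (2 : ℝ) ^ L ∧ (∀ i < n, ∀ j < n, s'.mem 11 i j = xzf n a σ L i j) ∧
      s'.mem 5 0 0 = certV n (2 ^ L) (azf a σ L) (xzf n a σ L) ∧
      s'.mem 24 0 0 = absSum n (xzf n a σ L)) := by
  have hq : (1 : ℤ) ≤ 2 ^ L := one_le_pow₀ (by norm_num)
  have haz := azf_abs_le hσ L ha
  refine Spec.seq (c := 5 * L + 3) (c' := (11 * n + 29) + (1 + n * (n * (25 * m + 25) + 2)) +
    (1 + n * (n * 3 + 2)) + 3 + (1 + 8 * L * (newtCost n m + 1)) + certCost n m + 1) ?_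
    (by unfold stageCost; omega)
  refine (powP_spec h.idx1 hL).keep le_rfl ?_
  intro s1 r1 hK1
  have b1 : Base n a σ s1 := h.keeps hK1 (by decide) (by decide)
  have l1 : s1.idx 5 = L := by rw [hK1.idx 5 (by decide)]; exact hL
  have e6 : s1.mem 6 0 0 = ((2 ^ L : ℤ) : ℝ) := by rw [r1]; push_cast; rfl
  refine Spec.seq (c := 11 * n + 29) (c' := (1 + n * (n * (25 * m + 25) + 2)) +
    (1 + n * (n * 3 + 2)) + 3 + (1 + 8 * L * (newtCost n m + 1)) + certCost n m + 1) ?_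
    (by omega)
  refine (ctxP_spec b1.idx0 b1.idx1 b1.mem21 e6 hn hq).keep le_rfl ?_
  intro s2 c2 hK2
  have b2 : Base n a σ s2 := b1.keeps hK2 (by decide) (by decide)
  have l2 : s2.idx 5 = L := by rw [hK2.idx 5 (by decide)]; exact l1
  have f6 : s2.mem 6 0 0 = ((2 ^ L : ℤ) : ℝ) := by rw [hK2.mem 6 (by decide)]; exact e6
  refine Spec.seq (c := 1 + n * (n * (25 * m + 25) + 2)) (c' :=
    (1 + n * (n * 3 + 2)) + 3 + (1 + 8 * L * (newtCost n m + 1)) + certCost n m + 1) ?_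
    (by omega)
  have hqH : 2 * ((2 ^ L : ℤ) : ℝ) + 1 ≤ 2 ^ m := by
    refine le_trans ?_ hm
    have h1 : (2 : ℤ) ^ L ≤ offH n (2 ^ L) := by
      have h2 : (1 : ℤ) ≤ (n : ℤ) ^ 2 := one_le_pow₀ (by exact_mod_cast hn)
      have h3 : (2 ^ L : ℤ) ≤ (2 ^ L) ^ 7 := le_self_pow₀ hq (by norm_num)
      unfold offH
      nlinarith
    have h4 : ((2 ^ L : ℤ) : ℝ) ≤ (offH n (2 ^ L) : ℝ) := by exact_mod_cast h1
    linarith
  refine (roundP_spec b2 hσ f6 hq ha hqH).keep le_rfl ?_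
  intro s3 r3 hK3
  have b3 : Base n a σ s3 := b2.keeps hK3 (by decide) (by decide)
  have c3 : Ctx n (offH n (2 ^ L)) s3 := c2.keeps' hK3 (by decide) (by decide)
  have l3 : s3.idx 5 = L := by rw [hK3.idx 5 (by decide)]; exact l2
  have g6 : s3.mem 6 0 0 = ((2 ^ L : ℤ) : ℝ) := by rw [hK3.mem 6 (by decide)]; exact f6
  have g10 : ∀ i < n, ∀ j < n, s3.mem 10 i j = azf a σ L i j := by
    intro i hi j hj
    rw [r3 i hi j hj]
    unfold azf
    push_cast
    rfl
  refine Spec.seq (c := 1 + n * (n * 3 + 2)) (c' :=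
    3 + (1 + 8 * L * (newtCost n m + 1)) + certCost n m + 1) ?_ (by omega)
  refine (transP_spec b3.idx0 g10).keep le_rfl ?_
  intro s4 r4 hK4
  have b4 : Base n a σ s4 := b3.keeps hK4 (by decide) (by decide)
  have c4 : Ctx n (offH n (2 ^ L)) s4 := c3.keeps' hK4 (by decide) (by decide)
  have l4 : s4.idx 5 = L := by rw [hK4.idx 5 (by decide)]; exact l3
  have h6 : s4.mem 6 0 0 = ((2 ^ L : ℤ) : ℝ) := by rw [hK4.mem 6 (by decide)]; exact g6
  have h10 : ∀ i < n, ∀ j < n, s4.mem 10 i j = azf a σ L i j := by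
    rw [hK4.mem 10 (by decide)]; exact g10
  refine Spec.seq (c := 1) (c' := 2 + (1 + 8 * L * (newtCost n m + 1)) + certCost n m + 1) ?_
    (by omega)
  refine Spec.addIdx le_rfl ?_
  refine Spec.seq (c := 1) (c' := 1 + (1 + 8 * L * (newtCost n m + 1)) + certCost n m + 1) ?_
    (by omega)
  refine Spec.addIdx le_rfl ?_
  refine Spec.seq (c := 1) (c' := (1 + 8 * L * (newtCost n m + 1)) + certCost n m + 1) ?_
    (by omega)
  refine Spec.addIdx le_rfl ?_
  set s5 := s4.setIdx 7 (s4.idx 5 + s4.idx 5) with hs5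
  set s6 := s5.setIdx 7 (s5.idx 7 + s5.idx 7) with hs6
  set s7 := s6.setIdx 7 (s6.idx 7 + s6.idx 7) with hs7
  have k7 : s7.idx 7 = 8 * L := by
    rw [hs7, State.setIdx_idx_self, hs6, State.setIdx_idx_self, hs5, State.setIdx_idx_self, l4]
    ring
  have kk : Keeps [] [7] s4 s7 := ((keeps_setIdx s4 7 _ [] (by simp)).trans
    (keeps_setIdx s5 7 _ [] (by simp))).trans (keeps_setIdx s6 7 _ [] (by simp))
  have b7 : Base n a σ s7 := b4.keeps kk (by decide) (by decide)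
  have c7 : Ctx n (offH n (2 ^ L)) s7 := c4.keeps' kk (by decide) (by decide)
  have l7 : s7.idx 5 = L := by rw [kk.idx 5 (by decide)]; exact l4
  refine Spec.seq (c := 1 + 8 * L * (newtCost n m + 1)) (c' := certCost n m + 1) ?_ (by omega)
  have hinv : SInv n a σ (2 ^ L) (azf a σ L) (fun i j => azf a σ L j i) s7 :=
    ⟨b7, c7, h6, h10, r4⟩
  refine (Spec.loop (N := 8 * L) (c := newtCost n m)
    (fun k s' => SInv n a σ (2 ^ L) (azf a σ L)
      ((newt n (2 ^ L) (azf a σ L))^[k] (fun i j => azf a σ L j i)) s' ∧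
      ∀ i < n, ∀ j < n, |((newt n (2 ^ L) (azf a σ L))^[k] (fun i j => azf a σ L j i)) i j| ≤
        (2 ^ L) ^ 3) k7 ⟨hinv, ?_⟩ ?_
    (Q := fun s' => SInv n a σ (2 ^ L) (azf a σ L) (xzf n a σ L) s' ∧
      ∀ i < n, ∀ j < n, |xzf n a σ L i j| ≤ (2 ^ L) ^ 3)
    (fun s' hI _ => hI) le_rfl).keep le_rfl ?_
  · intro i hi j hj
    exact (haz j hj i hi).trans (le_self_pow₀ hq (by norm_num))
  · intro k _ s' hI _
    obtain ⟨hI1, hI2⟩ := hI
    have hkk : Keeps [] [8] s' (s'.setIdx 8 k) := keeps_setIdx s' 8 k [] (by simp)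
    have hI1' : SInv n a σ (2 ^ L) (azf a σ L)
        ((newt n (2 ^ L) (azf a σ L))^[k] (fun i j => azf a σ L j i)) (s'.setIdx 8 k) :=
      ⟨hI1.base.keeps hkk (by decide) (by decide), hI1.ctx.keeps' hkk (by decide) (by decide),
        hI1.m6, hI1.m10, hI1.m11⟩
    refine (newtP_spec hI1' hn hq haz hI2 hm).mono le_rfl ?_
    intro s'' hs''
    rw [Function.iterate_succ_apply']
    exact ⟨hs'', fun i _ j _ => newt_abs_le hq _ _ _ _⟩
  · intro s8 hI hK8
    obtain ⟨hI1, hI2⟩ := hI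
    have l8 : s8.idx 5 = L := by rw [hK8.idx 5 (by decide)]; exact l7
    refine Spec.seq (c := certCost n m) (c' := 1) ?_ le_rfl
    refine (certP_spec hI1 hn hq haz hI2 hm).keep le_rfl ?_
    rintro s9 ⟨j1, j2, j3⟩ hK9
    have l9 : s9.idx 5 = L := by rw [hK9.idx 5 (by decide)]; exact l8
    refine Spec.addIdx le_rfl ?_
    have hkk : Keeps [] [5] s9 (s9.setIdx 5 (s9.idx 5 + s9.idx 5)) :=
      keeps_setIdx s9 5 _ [] (by simp)
    refine ⟨j1.base.keeps hkk (by decide) (by decide), ?_, ?_, j1.m11, j2, j3⟩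
    · rw [State.setIdx_idx_self, l9]
    · have := j1.m6
      rw [State.setIdx_mem, this]
      push_cast
      rfl

end Pool.Agent.Y541
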