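import Pool.Agent.Y541.Two

/-!
# The Littlewood-Offord inequality
-/

set_option autoImplicit false

namespace Pool.Agent.Y541.Two

open Finset

variable {n : ℕ} {u v : ℝ}

theorem centralBinom_sq_le (k : ℕ) : k.centralBinom ^ 2 * (2 * k + 1) ≤ 16 ^ k := by
  induction k with
  | zero => simp
  | succ k ih =>
    have h := Nat.succ_mul_centralBinom_succ k
    have h1 : (k + 1) ^ 2 * ((k + 1).centralBinom ^ 2 * (2 * (k + 1) + 1)) ≤
        (k + 1) ^ 2 * 16 ^ (k + 1) := by
      calc (k + 1) ^ 2 * ((k + 1).centralBinom ^ 2 * (2 * (k + 1) + 1))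
          = ((k + 1) * (k + 1).centralBinom) ^ 2 * (2 * k + 3) := by ring
        _ = (2 * (2 * k + 1) * k.centralBinom) ^ 2 * (2 * k + 3) := by rw [h]
        _ = k.centralBinom ^ 2 * (2 * k + 1) * (4 * ((2 * k + 1) * (2 * k + 3))) := by ring
        _ ≤ 16 ^ k * (4 * (4 * (k + 1) ^ 2)) := by
            refine Nat.mul_le_mul ih (Nat.mul_le_mul_left _ ?_)
            nlinarith
        _ = (k + 1) ^ 2 * 16 ^ (k + 1) := by ring
    exact Nat.le_of_mul_le_mul_left h1 (by positivity)

/-- the set of the coordinates in `K` where the term of the sum is the larger one -/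
noncomputable def up (u v : ℝ) (w : Fin n → ℝ) (K : Finset (Fin n)) (c : Fin n → Bool) : Finset K :=
  {i : K | (c i = true ∧ 0 < w i * (v - u)) ∨ (c i = false ∧ w i * (v - u) < 0)}

theorem up_sum (w : Fin n → ℝ) (K : Finset (Fin n)) (c : Fin n → Bool)
    (hK : ∀ i ∈ K, w i * (v - u) ≠ 0) :
    ∑ i ∈ K, val u v (c i) * w i = ∑ i ∈ up u v w K c, |w i * (v - u)| +
      ∑ i : K, min (u * w i) (v * w i) := by
  classical
  have h1 : ∑ i ∈ K, val u v (c i) * w i = ∑ i : K, val u v (c i) * w i :=
    (Finset.sum_coe_sort K (fun i => val u v (c i) * w i)).symm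
  have h2 : ∑ i ∈ up u v w K c, |w i * (v - u)| =
      ∑ i : K, if i ∈ up u v w K c then |w i * (v - u)| else 0 := by
    rw [← Finset.sum_filter]
    congr 1
    ext i
    simp
  rw [h1, h2, ← Finset.sum_add_distrib]
  refine Finset.sum_congr rfl fun i _ => ?_
  have hi := hK i i.2
  rcases lt_or_gt_of_ne hi with h | h
  · have hlt : v * w i < u * w i := by nlinarith
    by_cases hc : c i
    · have hn : i ∉ up u v w K c := by
        simp only [up, mem_filter, mem_univ, true_and, not_or, not_and, not_lt]
        exact ⟨fun _ => h.le, fun h' => by rw [hc] at h'; exact absurd h' (by simp)⟩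
      rw [if_neg hn, min_eq_right hlt.le, val, if_pos hc]
      ring
    · have hc' : c i = false := by simpa using hc
      have hn : i ∈ up u v w K c := by
        simp only [up, mem_filter, mem_univ, true_and]
        exact Or.inr ⟨hc', h⟩
      rw [if_pos hn, min_eq_right hlt.le, val, if_neg hc, abs_of_neg h]
      ring
  · have hlt : u * w i < v * w i := by nlinarith
    by_cases hc : c i
    · have hn : i ∈ up u v w K c := by
        simp only [up, mem_filter, mem_univ, true_and]
        exact Or.inl ⟨hc, h⟩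
      rw [if_pos hn, min_eq_left hlt.le, val, if_pos hc, abs_of_pos h]
      ring
    · have hc' : c i = false := by simpa using hc
      have hn : i ∉ up u v w K c := by
        simp only [up, mem_filter, mem_univ, true_and, not_or, not_and, not_lt]
        exact ⟨fun h' => by rw [hc'] at h'; exact absurd h' (by simp), fun _ => h.le⟩
      rw [if_neg hn, min_eq_left hlt.le, val, if_neg hc]
      ring

/-- **The Littlewood-Offord inequality** -/
theorem offord {w : Fin n → ℝ} {η t : ℝ} {q : ℕ} (hη : 0 < η) (huv : 0 < |v - u|)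
    (ht : 2 * t < η * |v - u|) (hK : 2 * q ≤ #{i | η ≤ |w i|}) :
    (#{c : Fin n → Bool | |S u v w c| ≤ t}) ^ 2 * (2 * q + 1) ≤ (2 ^ n) ^ 2 := by
  classical
  obtain ⟨K, hKs, hKc⟩ := Finset.exists_subset_card_eq hK
  have hKw : ∀ i ∈ K, η ≤ |w i| := fun i hi => by simpa using hKs hi
  set T : Finset (Fin n → Bool) := {c | |S u v w c| ≤ t} with hT
  let f : (Fin n → Bool) → ({i // i ∉ K} → Bool) := fun c i => c i
  have hne : ∀ i ∈ K, w i * (v - u) ≠ 0 := by
    intro i hi h0
    rcases mul_eq_zero.1 h0 with h | h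
    · have := hKw i hi
      rw [h, abs_zero] at this
      linarith
    · rw [h, abs_zero] at huv
      exact lt_irrefl _ huv
  have hfib : ∀ a ∈ T.image f, #{x ∈ T | f x = a} ≤ q.centralBinom := by
    intro a _
    set F : Finset (Fin n → Bool) := {x ∈ T | f x = a} with hF
    have hS : ∀ c ∈ F, S u v w c = ∑ i ∈ up u v w K c, |w i * (v - u)| +
        (∑ i : K, min (u * w i) (v * w i) + ∑ i : {i // i ∉ K}, val u v (a i) * w i) := by
      intro c hc
      have hca : f c = a := (mem_filter.1 hc).2
      have e1 : S u v w c = ∑ i ∈ K, val u v (c i) * w i + ∑ i ∈ Kᶜ, val u v (c i) * w i :=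
        (Finset.sum_add_sum_compl K _).symm
      have e2 : ∑ i ∈ Kᶜ, val u v (c i) * w i = ∑ i : {i // i ∉ K}, val u v (a i) * w i := by
        rw [← hca]
        exact (Finset.sum_subtype Kᶜ (by simp) (fun i => val u v (c i) * w i))
      rw [e1, e2, up_sum w K c hne]
      ring
    have hinj : Set.InjOn (up u v w K) (F : Set (Fin n → Bool)) := by
      intro c hc c' hc' hcc
      have h1 : f c = f c' := by
        rw [(mem_filter.1 (mem_coe.1 hc)).2, (mem_filter.1 (mem_coe.1 hc')).2]
      funext i
      by_cases hi : i ∈ K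
      · have h2 : (⟨i, hi⟩ : K) ∈ up u v w K c ↔ (⟨i, hi⟩ : K) ∈ up u v w K c' := by rw [hcc]
        simp only [up, mem_filter, mem_univ, true_and] at h2
        rcases lt_or_gt_of_ne (hne i hi) with h | h
        · simp only [h, not_lt.2 h.le, and_false, and_true, false_or] at h2
          cases h3 : c i <;> cases h4 : c' i <;> simp_all
        · simp only [h, not_lt.2 h.le, and_false, and_true, or_false] at h2
          cases h3 : c i <;> cases h4 : c' i <;> simp_all
      · exact congrFun h1 ⟨i, hi⟩
    have hanti : IsAntichain (· ⊆ ·) ((F.image (up u v w K) : Finset (Finset K)) :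
        Set (Finset K)) := by
      intro a' ha' b' hb' hab hsub
      rw [mem_coe, mem_image] at ha' hb'
      obtain ⟨x, hx, rfl⟩ := ha'
      obtain ⟨y, hy, rfl⟩ := hb'
      have hx' := hS x hx
      have hy' := hS y hy
      have hxt : |S u v w x| ≤ t := by
        have := (mem_filter.1 hx).1
        simpa [hT] using this
      have hyt : |S u v w y| ≤ t := by
        have := (mem_filter.1 hy).1
        simpa [hT] using this
      have hss : up u v w K x ⊂ up u v w K y := Finset.ssubset_iff_subset_ne.2 ⟨hsub, hab⟩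
      obtain ⟨j, hj, hjn⟩ := Finset.exists_of_ssubset hss
      have h1 : ∑ i ∈ insert j (up u v w K x), |w i * (v - u)| ≤
          ∑ i ∈ up u v w K y, |w i * (v - u)| :=
        Finset.sum_le_sum_of_subset_of_nonneg (Finset.insert_subset hj hsub)
          (fun i _ _ => abs_nonneg _)
      rw [Finset.sum_insert hjn] at h1
      have h2 : η * |v - u| ≤ |w j * (v - u)| := by
        rw [abs_mul]
        exact mul_le_mul_of_nonneg_right (hKw j j.2) (abs_nonneg _)
      have h3 := (abs_le.1 hxt).1
      have h4 := (abs_le.1 hyt).2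
      linarith
    have hs := hanti.sperner
    rw [Finset.card_image_of_injOn hinj, Fintype.card_coe, hKc] at hs
    rw [Nat.centralBinom_eq_two_mul_choose]
    have : 2 * q / 2 = q := by omega
    rwa [this] at hs
  have h1 : #T ≤ q.centralBinom * #(T.image f) := Finset.card_le_mul_card_image T _ hfib
  have h2 : #(T.image f) ≤ 2 ^ (n - 2 * q) := by
    refine (Finset.card_le_univ _).trans (le_of_eq ?_)
    rw [Fintype.card_fun, Fintype.card_bool, Fintype.card_subtype_compl, Fintype.card_fin,
      Fintype.card_coe, hKc]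
  have h3 : 2 * q ≤ n := by
    rw [← hKc]
    simpa using Finset.card_le_univ K
  calc (#T) ^ 2 * (2 * q + 1) ≤ (q.centralBinom * 2 ^ (n - 2 * q)) ^ 2 * (2 * q + 1) :=
        Nat.mul_le_mul_right _ (Nat.pow_le_pow_left (h1.trans (Nat.mul_le_mul_left _ h2)) 2)
    _ = (q.centralBinom ^ 2 * (2 * q + 1)) * (2 ^ (n - 2 * q)) ^ 2 := by ring
    _ ≤ 16 ^ q * (2 ^ (n - 2 * q)) ^ 2 := Nat.mul_le_mul_right _ (centralBinom_sq_le q)
    _ = (2 ^ n) ^ 2 := by
        have : (16 : ℕ) ^ q = (2 ^ (2 * q)) ^ 2 := by
          rw [← pow_mul, show (16 : ℕ) = 2 ^ 4 by norm_num, ← pow_mul]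
          congr 1
          ring
        rw [this, ← mul_pow, ← pow_add]
        congr 2
        omega

end Pool.Agent.Y541.Two
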