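import Mathlib

/-!
# A uniform real random access machine

The machine has index registers, which hold natural numbers and are used for addressing, and arrays
of real numbers. It performs the exact operations `+`, `-`, `*`, `/` on real numbers and tests of the
form `x < y`; a division by zero is not allowed. Index registers can be set to a constant and to a
sum of two index registers. A program is a finite text (it does not depend on the size of the input),
and each operation, each test, each access to the memory and each constant costs one step.
-/

set_option autoImplicit false

namespace Pool.Agent.Y541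

/-- A state of the machine: `idx x` is the natural number in the index register `x`, and `mem a i j`
is the real number at the place `(i, j)` of the array `a`. -/
structure State where
  idx : ℕ → ℕ
  mem : ℕ → ℕ → ℕ → ℝ

/-- the state after writing the number `c` to the index register `x` -/
def State.setIdx (s : State) (x c : ℕ) : State where
  idx := fun y => if y = x then c else s.idx y
  mem := s.mem

/-- the state after writing the real number `v` to the place `(i, j)` of the array `a` -/
noncomputable def State.write (s : State) (a i j : ℕ) (v : ℝ) : State where
  idx := s.idx
  mem := fun a' i' j' => if a' = a ∧ i' = i ∧ j' = j then v else s.mem a' i' j'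

/-- Expressions: natural numbers as constants, `entry a i j` (the real number in the array `a` at the
place given by the index registers `i` and `j`), and the four arithmetic operations. -/
inductive Expr
  | const (c : ℕ)
  | entry (a i j : ℕ)
  | add (e f : Expr)
  | sub (e f : Expr)
  | mul (e f : Expr)
  | div (e f : Expr)

/-- the value of an expression -/
noncomputable def Expr.val (s : State) : Expr → ℝ
  | .const c => c
  | .entry a i j => s.mem a (s.idx i) (s.idx j)
  | .add e f => e.val s + f.val s
  | .sub e f => e.val s - f.val s
  | .mul e f => e.val s * f.val s
  | .div e f => e.val s / f.val s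

/-- there is no division by zero in the evaluation of the expression -/
def Expr.Defined (s : State) : Expr → Prop
  | .const _ => True
  | .entry _ _ _ => True
  | .add e f => e.Defined s ∧ f.Defined s
  | .sub e f => e.Defined s ∧ f.Defined s
  | .mul e f => e.Defined s ∧ f.Defined s
  | .div e f => e.Defined s ∧ f.Defined s ∧ f.val s ≠ 0

/-- the number of steps for the evaluation of an expression: one for each constant, each access to
the memory and each arithmetic operation -/
def Expr.cost : Expr → ℕ
  | .const _ => 1
  | .entry _ _ _ => 1
  | .add e f => e.cost + f.cost + 1
  | .sub e f => e.cost + f.cost + 1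
  | .mul e f => e.cost + f.cost + 1
  | .div e f => e.cost + f.cost + 1

/-- Programs: `setIdx x c` writes the constant `c` to the index register `x`, `addIdx x y z` writes
the sum of the index registers `y` and `z` to the index register `x`, `store a i j e` writes the value
of the expression `e` to the array `a` at the place given by the index registers `i` and `j`,
`seq p q` is `p` followed by `q`, `ite e f p q` is `p` if `e < f` and `q` otherwise, `whileLt e f p`
repeats `p` as long as `e < f`, and `loop x y p` performs `p` for the numbers
`0, 1, ..., (number in the index register y) - 1` in the index register `x`. -/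
inductive Program
  | setIdx (x c : ℕ)
  | addIdx (x y z : ℕ)
  | store (a i j : ℕ) (e : Expr)
  | seq (p q : Program)
  | ite (e f : Expr) (p q : Program)
  | whileLt (e f : Expr) (p : Program)
  | loop (x y : ℕ) (p : Program)

/-- `Run p s t s'`: started in the state `s`, the program `p` halts after exactly `t` steps in the
state `s'`. -/
inductive Run : Program → State → ℕ → State → Prop
  | setIdx (x c : ℕ) (s : State) : Run (.setIdx x c) s 1 (s.setIdx x c)
  | addIdx (x y z : ℕ) (s : State) : Run (.addIdx x y z) s 1 (s.setIdx x (s.idx y + s.idx z))
  | store (a i j : ℕ) (e : Expr) (s : State) (h : e.Defined s) :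
      Run (.store a i j e) s (e.cost + 1) (s.write a (s.idx i) (s.idx j) (e.val s))
  | seq (p q : Program) (s s' s'' : State) (t t' : ℕ) (h : Run p s t s') (h' : Run q s' t' s'') :
      Run (.seq p q) s (t + t') s''
  | iteTrue (e f : Expr) (p q : Program) (s s' : State) (t : ℕ) (he : e.Defined s)
      (hf : f.Defined s) (h : e.val s < f.val s) (hp : Run p s t s') :
      Run (.ite e f p q) s (e.cost + f.cost + 1 + t) s'
  | iteFalse (e f : Expr) (p q : Program) (s s' : State) (t : ℕ) (he : e.Defined s)
      (hf : f.Defined s) (h : ¬ e.val s < f.val s) (hq : Run q s t s') :
      Run (.ite e f p q) s (e.cost + f.cost + 1 + t) s'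
  | whileTrue (e f : Expr) (p : Program) (s s' s'' : State) (t t' : ℕ) (he : e.Defined s)
      (hf : f.Defined s) (h : e.val s < f.val s) (hp : Run p s t s')
      (hw : Run (.whileLt e f p) s' t' s'') :
      Run (.whileLt e f p) s (e.cost + f.cost + 1 + t + t') s''
  | whileFalse (e f : Expr) (p : Program) (s : State) (he : e.Defined s) (hf : f.Defined s)
      (h : ¬ e.val s < f.val s) : Run (.whileLt e f p) s (e.cost + f.cost + 1) s
  | loop (x y : ℕ) (p : Program) (σ : ℕ → State) (t : ℕ → ℕ)
      (h : ∀ m < (σ 0).idx y, Run p ((σ m).setIdx x m) (t m) (σ (m + 1))) :
      Run (.loop x y p) (σ 0) (1 + ∑ m ∈ Finset.range ((σ 0).idx y), (t m + 1))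
        (σ ((σ 0).idx y))

/-- The initial state for the system `A x = b` and the accuracy `ε`: the index register `0` holds
`n`, the array `0` holds the matrix `A`, the array `1` holds the vector `b` (in its column `0`), the
array `2` holds `ε` (at the place `(0, 0)`), and everything else is zero. -/
noncomputable def State.init (n : ℕ) (A : Matrix (Fin n) (Fin n) ℝ) (b : Fin n → ℝ) (ε : ℝ) :
    State where
  idx := fun x => if x = 0 then n else 0
  mem := fun a i j =>
    if a = 0 then (if h : i < n ∧ j < n then A ⟨i, h.1⟩ ⟨j, h.2⟩ else 0)
    else if a = 1 then (if h : i < n ∧ j = 0 then b ⟨i, h.1⟩ else 0)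
    else if a = 2 ∧ i = 0 ∧ j = 0 then ε else 0

/-- The output vector: the column `0` of the array `3`. -/
def State.output (n : ℕ) (s : State) : Fin n → ℝ := fun i => s.mem 3 i 0

end Pool.Agent.Y541
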