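import Pool.Agent.Y541.Newton

/-!
# Initialisation and iterative refinement
-/

set_option autoImplicit false

namespace Pool.Agent.Y541

open Finset

/-- a single loop that writes to the places `(i, 0)` of the array `c` -/
theorem vecP_spec {body : Program} {s : State} {n c cb : ℕ} (h0 : s.idx 0 = n)
    (hr : 0 ∉ body.regs) (f : ℕ → ℝ)
    (hbody : ∀ i < n, ∀ s', Keeps body.arrs (2 :: body.regs) s s' → s'.idx 2 = i →
      s'.mem c i 0 = s.mem c i 0 →
      Spec body s' cb (fun s'' => s''.mem c i 0 = f i ∧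
        ∀ i', i' ≠ i → s''.mem c i' 0 = s'.mem c i' 0)) :
    Spec (.loop 2 0 body) s (1 + n * (cb + 1)) (fun s' => ∀ i < n, s'.mem c i 0 = f i) := by
  refine Spec.loop (N := n) (c := cb)
    (fun i s' => ∀ i', (i' < i → s'.mem c i' 0 = f i') ∧ (i ≤ i' → s'.mem c i' 0 = s.mem c i' 0))
    h0 (fun i' => ⟨by simp, fun _ => rfl⟩) ?_ (fun s' hI _ i hi => (hI i).1 hi) le_rfl
  intro i hi s1 hI hK
  have hK1 : Keeps body.arrs (2 :: body.regs) s (s1.setIdx 2 i) :=
    Keeps.trans hK (keeps_setIdx _ _ _ _ (by simp))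
  refine (hbody i hi _ hK1 (State.setIdx_idx_self _ _ _) ((hI i).2 le_rfl)).mono le_rfl ?_
  rintro s2 ⟨h1, h2⟩
  intro i'
  by_cases hii : i' = i
  · subst hii
    exact ⟨fun _ => h1, fun h => absurd h (by omega)⟩
  · rw [h2 i' hii]
    exact ⟨fun h => (hI i').1 (by omega), fun h => (hI i').2 (by omega)⟩

/-- accumulation over one loop -/
theorem accP_spec {body : Program} {s : State} {n cb : ℕ} (h0 : s.idx 0 = n)
    (hr : 0 ∉ body.regs) (v : State → ℝ) (hv : ∀ s x c, v (State.setIdx s x c) = v s) (f : ℕ → ℝ)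
    (hbody : ∀ j < n, ∀ s', Keeps body.arrs (3 :: body.regs) s s' → s'.idx 3 = j →
      Spec body s' cb (fun s'' => v s'' = v s' + f j)) :
    Spec (.loop 3 0 body) s (1 + n * (cb + 1)) (fun s' => v s' = v s + ∑ j ∈ range n, f j) := by
  refine Spec.loop (N := n) (c := cb) (fun j s' => v s' = v s + ∑ j' ∈ range j, f j') h0 (by simp)
    ?_ (fun s' hI _ => hI) le_rfl
  intro j hj s1 hI hK
  have hK1 : Keeps body.arrs (3 :: body.regs) s (s1.setIdx 3 j) :=
    Keeps.trans hK (keeps_setIdx _ _ _ _ (by simp))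
  refine (hbody j hj _ hK1 (State.setIdx_idx_self _ _ _)).mono le_rfl ?_
  intro s2 h2
  rw [h2, hv, hI, Finset.sum_range_succ]
  ring

/-- the residual `b - A x` is written to the array `23` -/
def resP : Program :=
  .loop 2 0 (.seq (.store 23 2 1 (.entry 1 2 1))
    (.loop 3 0 (.store 23 2 1 (.sub (.entry 23 2 1) (.mul (.entry 0 2 3) (.entry 3 3 1))))))

theorem resP_spec {s : State} {n : ℕ} (h0 : s.idx 0 = n) (h1 : s.idx 1 = 0) :
    Spec resP s (1 + n * (n * 7 + 4)) (fun s' => ∀ i < n, s'.mem 23 i 0 =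
      s.mem 1 i 0 - ∑ j ∈ range n, s.mem 0 i j * s.mem 3 j 0) := by
  refine (vecP_spec (c := 23) (cb := 2 + (1 + n * 7)) h0 (by decide)
    (fun i => s.mem 1 i 0 - ∑ j ∈ range n, s.mem 0 i j * s.mem 3 j 0) ?_).mono
    (by ring_nf; omega) (fun _ h => h)
  intro i hi s1 hK h2 _
  have hK' : Keeps [23, 23] [2, 3] s s1 := hK
  have e1 : s1.idx 1 = 0 := by rw [hK'.idx 1 (by decide)]; exact h1
  have e0 : s1.idx 0 = n := by rw [hK'.idx 0 (by decide)]; exact h0
  refine Spec.seq (c := 2) (c' := 1 + n * 7) ?_ le_rfl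
  refine Spec.store trivial (by simp [Expr.cost]) ?_
  have ev : Expr.val s1 (.entry 1 2 1) = s.mem 1 i 0 := by
    simp only [Expr.val, h2, e1]
    rw [hK'.mem 1 (by decide)]
  rw [ev, h2, e1]
  set s2 := s1.write 23 i 0 (s.mem 1 i 0) with hs2
  have k12 : Keeps [23] [] s1 s2 := keeps_write _ _ _ _ _ _ (by simp)
  have f1 : s2.idx 1 = 0 := e1
  have f2 : s2.idx 2 = i := h2
  refine Spec.loop (N := n) (c := 6)
    (fun j s' => s'.mem 23 i 0 = s.mem 1 i 0 - ∑ j' ∈ range j, s.mem 0 i j' * s.mem 3 j' 0 ∧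
      ∀ i', i' ≠ i → s'.mem 23 i' 0 = s1.mem 23 i' 0) e0 ⟨?_, ?_⟩ ?_ (fun s' hI _ => hI) le_rfl
  · rw [hs2, State.write_mem_self]
    simp
  · intro i' hi'
    rw [hs2, State.write_mem, if_neg (by simp [hi'])]
  · intro j hj s3 hI hK3
    have hK3' : Keeps [23] [3] s2 s3 := hK3
    obtain ⟨i1, i2⟩ := hI
    have g1 : (s3.setIdx 3 j).idx 1 = 0 := by
      rw [State.setIdx_idx_ne _ _ (by decide), hK3'.idx 1 (by decide)]
      exact f1
    have g2 : (s3.setIdx 3 j).idx 2 = i := by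
      rw [State.setIdx_idx_ne _ _ (by decide), hK3'.idx 2 (by decide)]
      exact f2
    have g3 : (s3.setIdx 3 j).idx 3 = j := State.setIdx_idx_self _ _ _
    have m0 : s3.mem 0 = s.mem 0 := by
      rw [hK3'.mem 0 (by decide), k12.mem 0 (by decide), hK'.mem 0 (by decide)]
    have m3 : s3.mem 3 = s.mem 3 := by
      rw [hK3'.mem 3 (by decide), k12.mem 3 (by decide), hK'.mem 3 (by decide)]
    refine Spec.store ⟨trivial, trivial, trivial⟩ (by simp [Expr.cost]) ?_
    rw [g2, g1]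
    refine ⟨?_, fun i' hi' => ?_⟩
    · rw [State.write_mem_self]
      simp only [Expr.val, g1, g2, g3, State.setIdx_mem, i1, m0, m3]
      rw [Finset.sum_range_succ]
      ring
    · rw [State.write_mem, if_neg (by simp [hi']), State.setIdx_mem]
      exact i2 i' hi'

/-- the correction of the approximate solution -/
def stepP : Program :=
  .loop 2 0 (seqs (put 16 (.const 0))
    [.loop 3 0 (put 16 (.add (sc 16) (.mul (.entry 11 2 3) (.entry 23 3 1)))),
      .store 3 2 1 (.add (.entry 3 2 1) (.div (sc 16) (.mul (sc 6) (sc 4))))])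

theorem stepP_spec {s : State} {n : ℕ} {q σ : ℝ} (h0 : s.idx 0 = n) (h1 : s.idx 1 = 0)
    (h6 : s.mem 6 0 0 = q) (h4 : s.mem 4 0 0 = σ) (hq : 0 < q) (hσ : 0 < σ) :
    Spec stepP s (1 + n * (n * 7 + 12)) (fun s' => ∀ i < n, s'.mem 3 i 0 =
      s.mem 3 i 0 + (∑ j ∈ range n, s.mem 11 i j * s.mem 23 j 0) / (q * σ)) := by
  refine (vecP_spec (c := 3) (cb := 2 + ((1 + n * 7) + 8)) h0 (by decide)
    (fun i => s.mem 3 i 0 + (∑ j ∈ range n, s.mem 11 i j * s.mem 23 j 0) / (q * σ)) ?_).mono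
    (by ring_nf; omega) (fun _ h => h)
  intro i hi s1 hK h2 h3i
  have hK' : Keeps [16, 16, 3] [2, 3] s s1 := hK
  have e1 : s1.idx 1 = 0 := by rw [hK'.idx 1 (by decide)]; exact h1
  have e0 : s1.idx 0 = n := by rw [hK'.idx 0 (by decide)]; exact h0
  refine Spec.seq (c := 2) (c' := (1 + n * 7) + 8) ?_ le_rfl
  refine Spec.store trivial (by simp [Expr.cost]) ?_
  rw [e1]
  set s2 := s1.write 16 0 0 (Expr.val s1 (.const 0)) with hs2
  have k12 : Keeps [16] [] s1 s2 := keeps_write _ _ _ _ _ _ (by simp)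
  have z16 : s2.mem 16 0 0 = 0 := by rw [hs2, State.write_mem_self]; simp [Expr.val]
  have f1 : s2.idx 1 = 0 := e1
  have f2 : s2.idx 2 = i := h2
  refine Spec.seq (c := 1 + n * 7) (c' := 8) ?_ le_rfl
  refine (accP_spec (cb := 6) (s := s2) e0 (by decide) (fun s => s.mem 16 0 0) (fun _ _ _ => rfl)
    (fun j => s.mem 11 i j * s.mem 23 j 0) ?_).keep le_rfl ?_
  · intro j hj s3 hK3 g3
    have hK3' : Keeps [16] [3] s2 s3 := hK3
    have g1 : s3.idx 1 = 0 := by rw [hK3'.idx 1 (by decide)]; exact f1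
    have g2 : s3.idx 2 = i := by rw [hK3'.idx 2 (by decide)]; exact f2
    have m11 : s3.mem 11 = s.mem 11 := by
      rw [hK3'.mem 11 (by decide), k12.mem 11 (by decide), hK'.mem 11 (by decide)]
    have m23 : s3.mem 23 = s.mem 23 := by
      rw [hK3'.mem 23 (by decide), k12.mem 23 (by decide), hK'.mem 23 (by decide)]
    refine Spec.store ⟨trivial, trivial, trivial⟩ (by simp [Expr.cost, sc]) ?_
    rw [g1]
    simp only [State.write_mem_self, Expr.val, sc, g1, g2, g3, m11, m23]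
  · intro s3 r3 hK3
    have hK3' : Keeps [16] [3] s2 s3 := hK3
    rw [z16, zero_add] at r3
    have g1 : s3.idx 1 = 0 := by rw [hK3'.idx 1 (by decide)]; exact f1
    have g2 : s3.idx 2 = i := by rw [hK3'.idx 2 (by decide)]; exact f2
    have m6 : s3.mem 6 0 0 = q := by
      rw [hK3'.mem 6 (by decide), k12.mem 6 (by decide), hK'.mem 6 (by decide)]; exact h6
    have m4 : s3.mem 4 0 0 = σ := by
      rw [hK3'.mem 4 (by decide), k12.mem 4 (by decide), hK'.mem 4 (by decide)]; exact h4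
    have m3 : s3.mem 3 = s1.mem 3 := by
      rw [hK3'.mem 3 (by decide), k12.mem 3 (by decide)]
    refine Spec.store ⟨trivial, trivial, ⟨trivial, trivial⟩, ?_⟩ (by simp [Expr.cost, sc]) ?_
    · simp only [Expr.val, sc, g1, m6, m4]
      positivity
    rw [g2, g1]
    refine ⟨?_, fun i' hi' => ?_⟩
    · rw [State.write_mem_self]
      simp only [Expr.val, sc, g1, g2, m6, m4, r3, m3, h3i]
    · rw [State.write_mem, if_neg (by simp [hi']), m3]

/-- initialisation: the real number `n`, the identity matrix, the scale, the number of bits -/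
def initP : Program :=
  seqs (put 21 (.const 0)) [.loop 2 0 (put 21 (.add (sc 21) (.const 1))),
    mapP (.store 25 2 3 (.const 0)), .loop 2 0 (.store 25 2 2 (.const 1)),
    put 4 (.const 0), mapP (absP 4 (.entry 0 2 3)), put 4 (.add (sc 4) (sc 4)),
    .setIdx 5 1, put 5 (.const 1)]

theorem initP_spec {s : State} {n : ℕ} {a : ℕ → ℕ → ℝ} (h0 : s.idx 0 = n) (h1 : s.idx 1 = 0)
    (ha : ∀ i < n, ∀ j < n, s.mem 0 i j = a i j) :
    Spec initP s (n * (n * 11 + 12) + 17)
      (fun s' => Base n a (2 * ∑ i ∈ range n, ∑ j ∈ range n, |a i j|) s' ∧ s'.idx 5 = 1 ∧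
        s'.mem 5 0 0 = 1) := by
  refine Spec.seq (c := 2) (c' := n * (n * 11 + 12) + 15) ?_ (by omega)
  refine Spec.store trivial (by simp [Expr.cost]) ?_
  rw [h1]
  set s1 := s.write 21 0 0 (Expr.val s (.const 0)) with hs1
  have k1 : Keeps [21] [] s s1 := keeps_write _ _ _ _ _ _ (by simp)
  have z21 : s1.mem 21 0 0 = 0 := by rw [hs1, State.write_mem_self]; simp [Expr.val]
  have a0 : s1.idx 0 = n := h0
  have a1 : s1.idx 1 = 0 := h1
  refine Spec.seq (c := 1 + n * 5) (c' := n * (n * 11 + 7) + 14) ?_ (by ring_nf; omega)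
  refine (Spec.loop (N := n) (c := 4) (fun m s' => s'.mem 21 0 0 = m) a0 (by simpa using z21)
    ?_ (Q := fun s' => s'.mem 21 0 0 = n) (fun s' hI _ => hI) le_rfl).keep le_rfl ?_
  · intro m _ s2 hI hK
    have e1 : (s2.setIdx 2 m).idx 1 = 0 := by
      rw [State.setIdx_idx_ne _ _ (by decide), hK.idx 1 (by decide)]
      exact a1
    refine Spec.store ⟨trivial, trivial⟩ (by simp [Expr.cost, sc]) ?_
    rw [e1, State.write_mem_self]
    simp only [Expr.val, sc, e1, State.setIdx_mem, hI]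
    push_cast
    ring
  intro s2 r2 hK2
  have b0 : s2.idx 0 = n := by rw [hK2.idx 0 (by decide)]; exact a0
  have b1 : s2.idx 1 = 0 := by rw [hK2.idx 1 (by decide)]; exact a1
  have bm0 : s2.mem 0 = s.mem 0 := by rw [hK2.mem 0 (by decide), k1.mem 0 (by decide)]
  refine Spec.seq (c := 1 + n * (n * 3 + 2)) (c' := n * (n * 8 + 5) + 13) ?_ (by ring_nf; omega)
  refine (store_map_spec (c := 25) b0 (.const 0) (fun _ _ => 0)
    (fun i _ j _ s' _ _ _ _ => ⟨trivial, by simp [Expr.val]⟩)).keep (by simp [Expr.cost]) ?_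
  intro s3 r3 hK3
  rw [mapP_arrs, mapP_regs] at hK3
  have c0 : s3.idx 0 = n := by rw [hK3.idx 0 (by decide)]; exact b0
  have c1 : s3.idx 1 = 0 := by rw [hK3.idx 1 (by decide)]; exact b1
  have cm0 : s3.mem 0 = s.mem 0 := by rw [hK3.mem 0 (by decide)]; exact bm0
  have cm21 : s3.mem 21 0 0 = n := by rw [hK3.mem 21 (by decide)]; exact r2
  refine Spec.seq (c := 1 + n * 3) (c' := n * (n * 8 + 2) + 12) ?_ (by ring_nf; omega)
  refine (Spec.loop (N := n) (c := 2) (fun m s' => ∀ i < n, ∀ j < n, s'.mem 25 i j =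
    if i = j ∧ i < m then 1 else 0) c0 ?_ ?_
    (Q := fun s' => ∀ i < n, ∀ j < n, s'.mem 25 i j = if i = j then 1 else 0) ?_ le_rfl).keep
    le_rfl ?_
  · intro i hi j hj
    rw [r3 i hi j hj]
    simp
  · intro m hm s' hI hK
    refine Spec.store trivial (by simp [Expr.cost]) ?_
    rw [State.setIdx_idx_self]
    intro i hi j hj
    rw [State.write_mem, State.setIdx_mem, hI i hi j hj]
    simp only [Expr.val, Nat.cast_one]
    by_cases h : i = m ∧ j = m
    · obtain ⟨rfl, rfl⟩ := h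
      simp
    · rw [if_neg h]
      by_cases hij : i = j
      · subst hij
        have : i ≠ m := fun hh => h ⟨hh, hh⟩
        simp only [true_and]
        congr 1
        rw [eq_iff_iff]
        omega
      · simp [hij]
  · intro s' hI _ i hi j hj
    rw [hI i hi j hj]
    simp [hi]
  intro s4 r4 hK4
  have d0 : s4.idx 0 = n := by rw [hK4.idx 0 (by decide)]; exact c0
  have d1 : s4.idx 1 = 0 := by rw [hK4.idx 1 (by decide)]; exact c1
  have dm0 : s4.mem 0 = s.mem 0 := by rw [hK4.mem 0 (by decide)]; exact cm0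
  have dm21 : s4.mem 21 0 0 = n := by rw [hK4.mem 21 (by decide)]; exact cm21
  refine Spec.seq (c := 2) (c' := n * (n * 8 + 2) + 10) ?_ (by omega)
  refine Spec.store trivial (by simp [Expr.cost]) ?_
  rw [d1]
  set s5 := s4.write 4 0 0 (Expr.val s4 (.const 0)) with hs5
  have k5 : Keeps [4] [] s4 s5 := keeps_write _ _ _ _ _ _ (by simp)
  have z4 : s5.mem 4 0 0 = 0 := by rw [hs5, State.write_mem_self]; simp [Expr.val]
  have e0 : s5.idx 0 = n := d0
  have e1 : s5.idx 1 = 0 := d1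
  have em0 : s5.mem 0 = s.mem 0 := by rw [k5.mem 0 (by decide)]; exact dm0
  refine Spec.seq (c := 1 + n * (n * 8 + 2)) (c' := 9) ?_ (by omega)
  refine (sumP_spec (cb := 7) e0 (by decide) (by decide) (fun s => s.mem 4 0 0)
    (fun _ _ _ => rfl) (fun i j => |a i j|) ?_).keep le_rfl ?_
  · intro i hi j hj s' hK h2 h3
    have hK' : Keeps [4, 4] [2, 3] s5 s' := hK
    have l1 : s'.idx 1 = 0 := by rw [hK'.idx 1 (by decide)]; exact e1
    refine (absP_spec l1 (a := 4) (e := .entry 0 2 3) (x := a i j) trivial rfl ?_).mono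
      (by simp [Expr.cost]) (fun _ h => h)
    simp only [Expr.val, h2, h3]
    rw [hK'.mem 0 (by decide), em0]
    exact ha i hi j hj
  intro s6 r6 hK6
  have hK6' : Keeps [4, 4] [2, 3] s5 s6 := hK6
  rw [z4, zero_add] at r6
  have k46 : Keeps [4] [2, 3] s4 s6 :=
    (k5.mono (by simp) (by simp)).trans (hK6'.mono (by simp) (by simp))
  have g1 : s6.idx 1 = 0 := by rw [k46.idx 1 (by decide)]; exact d1
  refine Spec.seq (c := 4) (c' := 3) ?_ (by omega)
  refine Spec.store ⟨trivial, trivial⟩ (by simp [Expr.cost, sc]) ?_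
  have ev : Expr.val s6 (.add (sc 4) (sc 4)) = 2 * ∑ i ∈ range n, ∑ j ∈ range n, |a i j| := by
    simp only [Expr.val, sc, g1, r6]
    ring
  rw [ev, g1]
  set s7 := s6.write 4 0 0 (2 * ∑ i ∈ range n, ∑ j ∈ range n, |a i j|) with hs7
  have k67 : Keeps [4] [] s6 s7 := keeps_write _ _ _ _ _ _ (by simp)
  have k47 : Keeps [4] [2, 3] s4 s7 := k46.trans (k67.mono (by simp) (by simp))
  refine Spec.seq (c := 1) (c' := 2) ?_ (by omega)
  refine Spec.setIdx le_rfl ?_
  have k48 : Keeps [4] [2, 3, 5] s4 (s7.setIdx 5 1) :=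
    (k47.mono (by simp) (by simp)).trans (keeps_setIdx _ _ _ _ (by simp))
  refine Spec.store trivial (by simp [Expr.cost]) ?_
  have i1 : (s7.setIdx 5 1).idx 1 = 0 := by rw [k48.idx 1 (by decide)]; exact d1
  rw [i1]
  have k49 : Keeps [4, 5] [2, 3, 5] s4
      ((s7.setIdx 5 1).write 5 0 0 (Expr.val (s7.setIdx 5 1) (.const 1))) :=
    (k48.mono (by simp) (by simp)).trans (keeps_write _ _ _ _ _ _ (by simp))
  refine ⟨⟨by rw [k49.idx 0 (by decide)]; exact d0, by rw [k49.idx 1 (by decide)]; exact d1,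
    fun i hi j hj => by rw [k49.mem 0 (by decide), dm0]; exact ha i hi j hj, ?_,
    by rw [k49.mem 21 (by decide)]; exact dm21,
    fun i hi j hj => by rw [k49.mem 25 (by decide)]; exact r4 i hi j hj⟩, ?_, ?_⟩
  · rw [State.write_mem_ne _ _ _ _ (by decide), State.setIdx_mem, hs7, State.write_mem_self]
  · rw [State.write_idx, State.setIdx_idx_self]
  · rw [State.write_mem_self]
    simp [Expr.val]

end Pool.Agent.Y541
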