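import Pool.Agent.Y541.Refine
import Pool.Agent.Y541.Conv

/-!
# The solver
-/

set_option autoImplicit false

namespace Pool.Agent.Y541

open Finset Matrix
open scoped Matrix.Norms.L2Operator

/-- the loop over the stages -/
def loopA : Program := .whileLt (.const 1) (.add (sc 5) (sc 5)) stageP

/-- the body of the refinement loop -/
def bodyB : Program := seqs resP [stepP, put 22 (.div (sc 22) (.const 2))]

/-- the refinement loop -/
def loopB : Program := .whileLt (.const 1) (sc 22) bodyB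

/-- the solver -/
def solveP : Program :=
  seqs initP [loopA, .loop 2 0 (.store 3 2 1 (.const 0)),
    put 22 (.div (.add (.const 1) (.div (sc 24) (sc 6))) (.entry 2 1 1)), loopB]

/-- the number of binary digits of the packed digits -/
def bits (l L : ℕ) : ℕ := 2 * l + 7 * L + 4

theorem bits_spec {n l L : ℕ} (hl : n ≤ 2 ^ l) :
    2 * (offH n (2 ^ L) : ℝ) + 1 ≤ 2 ^ bits l L := by
  have h1 : (n : ℝ) ≤ 2 ^ l := by exact_mod_cast hl
  have h2 : (n : ℝ) ^ 2 ≤ (2 ^ l) ^ 2 := pow_le_pow_left₀ (by positivity) h1 2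
  have h3 : (2 : ℝ) ^ bits l L = 16 * (2 ^ l) ^ 2 * (2 ^ L) ^ 7 := by
    rw [bits, pow_add, pow_add, ← pow_mul, ← pow_mul]
    ring_nf
  have h4 : (1 : ℝ) ≤ (2 ^ L) ^ 7 := one_le_pow₀ (one_le_pow₀ (by norm_num))
  have h5 : (1 : ℝ) ≤ (2 ^ l) ^ 2 := one_le_pow₀ (one_le_pow₀ (by norm_num))
  have h6 : ((offH n (2 ^ L) : ℤ) : ℝ) = 4 * (n : ℝ) ^ 2 * (2 ^ L) ^ 7 := by
    unfold offH
    push_cast
    ring
  rw [h6, h3]
  have h7 : (n : ℝ) ^ 2 * (2 ^ L) ^ 7 ≤ (2 ^ l) ^ 2 * (2 ^ L) ^ 7 :=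
    mul_le_mul_of_nonneg_right h2 (by positivity)
  have h8 : (1 : ℝ) ≤ (2 ^ l) ^ 2 * (2 ^ L) ^ 7 := by nlinarith
  nlinarith

theorem xzf_abs_le {n : ℕ} {a : ℕ → ℕ → ℝ} {σ : ℝ} (hσ : 0 < σ) (L : ℕ)
    (ha : ∀ i < n, ∀ j < n, |a i j| ≤ σ) :
    ∀ i < n, ∀ j < n, |xzf n a σ L i j| ≤ (2 ^ L) ^ 3 := by
  have hq : (1 : ℤ) ≤ 2 ^ L := one_le_pow₀ (by norm_num)
  unfold xzf
  cases h : 8 * L with
  | zero =>
    intro i hi j hj
    simp only [Function.iterate_zero, id_eq]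
    exact (azf_abs_le hσ L ha j hj i hi).trans (le_self_pow₀ hq (by norm_num))
  | succ k =>
    intro i _ j _
    rw [Function.iterate_succ_apply']
    exact newt_abs_le hq _ _ _ _

theorem mulCost_le {n m u : ℕ} (hn : 1 ≤ n) (hu : 2 ≤ u) (hm : m ≤ 9 * u) :
    mulCost n m ≤ 270 * (n * n * u) := by
  unfold mulCost
  have h1 : n ≤ n * n := Nat.le_mul_of_pos_left n hn
  have h2 : n * n * (25 * m + 60) ≤ n * n * (225 * u + 60) := Nat.mul_le_mul_left _ (by omega)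
  have h3 : n * n * (225 * u + 60) = 225 * (n * n * u) + 60 * (n * n) := by ring
  have h4 : n * n * 2 ≤ n * n * u := Nat.mul_le_mul_left _ hu
  omega

theorem newtCost_le {n m u : ℕ} (hn : 1 ≤ n) (hu : 2 ≤ u) (hm : m ≤ 9 * u) :
    newtCost n m ≤ 810 * (n * n * u) := by
  have h0 := mulCost_le hn hu hm
  unfold newtCost
  have h1 : n ≤ n * n := Nat.le_mul_of_pos_left n hn
  have h2 : n * (n * (25 * m + 60) + 2) ≤ n * (n * (225 * u + 60) + 2) :=
    Nat.mul_le_mul_left _ (Nat.add_le_add_right (Nat.mul_le_mul_left _ (by omega)) _)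
  have h3 : n * (n * (225 * u + 60) + 2) = 225 * (n * n * u) + 60 * (n * n) + 2 * n := by ring
  have h4 : n * n * 2 ≤ n * n * u := Nat.mul_le_mul_left _ hu
  have h5 : n * (n * 11 + 2) = 11 * (n * n) + 2 * n := by ring
  omega

theorem certCost_le {n m u : ℕ} (hn : 1 ≤ n) (hu : 2 ≤ u) (hm : m ≤ 9 * u) :
    certCost n m ≤ 300 * (n * n * u) := by
  have h0 := mulCost_le hn hu hm
  unfold certCost
  have h1 : n ≤ n * n := Nat.le_mul_of_pos_left n hn
  have h4 : n * n * 2 ≤ n * n * u := Nat.mul_le_mul_left _ hu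
  have h5 : n * (n * 20 + 2) = 20 * (n * n) + 2 * n := by ring
  have h6 : n * (n * 8 + 2) = 8 * (n * n) + 2 * n := by ring
  omega

theorem stageCost_le {n l L : ℕ} (hn : 1 ≤ n) (hl : 1 ≤ l) (hL : 1 ≤ L) :
    stageCost n (bits l L) L ≤ 7500 * (n * n * (L * (l + L))) := by
  set u := l + L with hu
  have hu2 : 2 ≤ u := by omega
  have hm : bits l L ≤ 9 * u := by unfold bits; omega
  have h0 := newtCost_le hn hu2 hm
  have h1 := certCost_le hn hu2 hm
  have h2 : n ≤ n * n := Nat.le_mul_of_pos_left n hn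
  have h3 : n * n * 2 ≤ n * n * u := Nat.mul_le_mul_left _ hu2
  have h4 : u ≤ L * u := Nat.le_mul_of_pos_left u hL
  have h5 : n * n * u ≤ n * n * (L * u) := Nat.mul_le_mul_left _ h4
  have h6 : L ≤ n * n * (L * u) := by
    calc L ≤ L * u := Nat.le_mul_of_pos_right L (by omega)
      _ ≤ n * n * (L * u) := Nat.le_mul_of_pos_left _ (by positivity)
  have h7 : n * (n * (25 * bits l L + 25) + 2) ≤ n * (n * (225 * u + 25) + 2) :=
    Nat.mul_le_mul_left _ (Nat.add_le_add_right (Nat.mul_le_mul_left _ (by omega)) _)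
  have h8 : n * (n * (225 * u + 25) + 2) = 225 * (n * n * u) + 25 * (n * n) + 2 * n := by ring
  have h9 : n * (n * 3 + 2) = 3 * (n * n) + 2 * n := by ring
  have h10 : 8 * L * (newtCost n (bits l L) + 1) ≤ 8 * L * (810 * (n * n * u) + 1) := by gcongr
  have h11 : 8 * L * (810 * (n * n * u) + 1) = 6480 * (n * n * (L * u)) + 8 * L := by ring
  unfold stageCost
  omega

theorem loopA_spec {s : State} {n l m0 : ℕ} {a : ℕ → ℕ → ℝ} {σ : ℝ} (h : Base n a σ s)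
    (hL : s.idx 5 = 1) (h5 : s.mem 5 0 0 = 1) (hn : 1 ≤ n) (hσ : 0 < σ)
    (ha : ∀ i < n, ∀ j < n, |a i j| ≤ σ) (hl : n ≤ 2 ^ l) (hl1 : 1 ≤ l)
    (hgood : certV n (2 ^ (2 ^ m0)) (azf a σ (2 ^ m0)) (xzf n a σ (2 ^ m0)) ≤ 1 / 2) :
    Spec loopA s (15020 * (n * n * (2 ^ m0 * (l + 2 ^ m0)))) (fun s' => ∃ L ≤ 2 ^ m0,
      Base n a σ s' ∧ s'.mem 6 0 0 = (2 : ℝ) ^ L ∧
      (∀ i < n, ∀ j < n, s'.mem 11 i j = xzf n a σ L i j) ∧
      certV n (2 ^ L) (azf a σ L) (xzf n a σ L) ≤ 1 / 2 ∧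
      s'.mem 24 0 0 = absSum n (xzf n a σ L)) := by
  refine Spec.whileLt (fun m s' => Base n a σ s' ∧ s'.idx 5 = 2 ^ m ∧
    ((m = 0 ∧ s'.mem 5 0 0 = 1) ∨ ∃ k, m = k + 1 ∧ s'.mem 6 0 0 = (2 : ℝ) ^ (2 ^ k) ∧
      (∀ i < n, ∀ j < n, s'.mem 11 i j = xzf n a σ (2 ^ k) i j) ∧
      s'.mem 5 0 0 = certV n (2 ^ (2 ^ k)) (azf a σ (2 ^ k)) (xzf n a σ (2 ^ k)) ∧
      s'.mem 24 0 0 = absSum n (xzf n a σ (2 ^ k)))) (m0 + 1)
    (fun m => stageCost n (bits l (2 ^ m)) (2 ^ m)) ⟨h, by simpa using hL, Or.inl ⟨rfl, h5⟩⟩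
    ?_ ?_ ?_ ?_ ?_
  · intro m s' _
    exact ⟨trivial, trivial, trivial⟩
  · rintro m s' _ ⟨h1, h2, -⟩ _ _
    refine (stageP_spec h1 h2 hn hσ ha (bits_spec hl)).mono le_rfl ?_
    rintro s'' ⟨j1, j2, j3, j4, j5, j6⟩
    exact ⟨j1, by rw [j2]; ring, Or.inr ⟨m, rfl, j3, j4, j5, j6⟩⟩
  · rintro s' ⟨h1, h2, h3⟩
    rcases h3 with ⟨h3, -⟩ | ⟨k, hk, k1, k2, k3, k4⟩
    · omega
    · have hk' : k = m0 := by omega
      subst hk'
      simp only [Expr.val, sc, h1.idx1, k3]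
      push_cast
      linarith
  · rintro m s' hm ⟨h1, h2, h3⟩ _ hn'
    rcases h3 with ⟨h3, h4⟩ | ⟨k, hk, k1, k2, k3, k4⟩
    · simp only [Expr.val, sc, h1.idx1, h4] at hn'
      norm_num at hn'
    · refine ⟨2 ^ k, Nat.pow_le_pow_right (by norm_num) (by omega), h1, k1, k2, ?_, k4⟩
      simp only [Expr.val, sc, h1.idx1, k3] at hn'
      push_cast at hn'
      linarith
  · have h1 : ∀ m ∈ range (m0 + 1), stageCost n (bits l (2 ^ m)) (2 ^ m) +
        ((Expr.const 1).cost + ((sc 5).add (sc 5)).cost + 1) ≤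
        7505 * (n * n * (l + 2 ^ m0)) * 2 ^ m := by
      intro m hm
      have hm' : m ≤ m0 := by have := Finset.mem_range.1 hm; omega
      have e1 := stageCost_le (L := 2 ^ m) hn hl1 (Nat.one_le_two_pow)
      have e2 : n * n * (2 ^ m * (l + 2 ^ m)) ≤ n * n * (2 ^ m * (l + 2 ^ m0)) := by
        gcongr
        norm_num
      have e3 : n * n * (2 ^ m * (l + 2 ^ m0)) = (n * n * (l + 2 ^ m0)) * 2 ^ m := by ring
      have e4 : 1 ≤ (n * n * (l + 2 ^ m0)) * 2 ^ m := by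
        have : 0 < (n * n * (l + 2 ^ m0)) * 2 ^ m := by positivity
        omega
      have e5 : 7505 * (n * n * (l + 2 ^ m0)) * 2 ^ m = 7505 * ((n * n * (l + 2 ^ m0)) * 2 ^ m) := by
        ring
      have e6 : (Expr.const 1).cost + ((sc 5).add (sc 5)).cost + 1 = 5 := rfl
      rw [e5, e6]
      omega
    refine (Nat.add_le_add_right (Finset.sum_le_sum h1) _).trans ?_
    rw [← Finset.mul_sum]
    have h2 : ∑ m ∈ range (m0 + 1), 2 ^ m ≤ 2 * 2 ^ m0 := by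
      have := Nat.geomSum_eq (le_refl 2) (m0 + 1)
      rw [this, pow_succ]
      omega
    have h3 : 7505 * (n * n * (l + 2 ^ m0)) * ∑ m ∈ range (m0 + 1), 2 ^ m ≤
        7505 * (n * n * (l + 2 ^ m0)) * (2 * 2 ^ m0) := Nat.mul_le_mul_left _ h2
    have h4 : 7505 * (n * n * (l + 2 ^ m0)) * (2 * 2 ^ m0) =
        15010 * (n * n * (2 ^ m0 * (l + 2 ^ m0))) := by ring
    have h5 : 1 ≤ n * n * (2 ^ m0 * (l + 2 ^ m0)) := by
      have : 0 < n * n * (2 ^ m0 * (l + 2 ^ m0)) := by positivity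
      omega
    have e6 : (Expr.const 1).cost + ((sc 5).add (sc 5)).cost + 1 = 5 := rfl
    rw [e6]
    omega

/-- the error of the iterative refinement -/
theorem refine_math {n : ℕ} {A X : Matrix (Fin n) (Fin n) ℝ} {b xst : Fin n → ℝ} {σ : ℝ}
    (hσ : 0 < σ) (hA : ‖A‖ ≤ σ / 2) (hX : ‖1 - X * ((1 / σ) • A)‖ ≤ 1 / 2)
    (hb : A *ᵥ xst = b) (x : ℕ → Fin n → ℝ) (h0 : x 0 = 0)
    (hs : ∀ k, x (k + 1) = x k + (1 / σ) • (X *ᵥ (b - A *ᵥ x k))) (k : ℕ) :
    nrm (x k - xst) ≤ (1 / 2) ^ k * nrm xst ∧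
      nrm (A *ᵥ x k - b) ≤ ‖X‖ * ((1 / 2) ^ k * nrm b) := by
  have hk : ∀ k, nrm (x k - xst) ≤ (1 / 2) ^ k * nrm xst := by
    intro k
    induction k with
    | zero =>
      rw [h0, zero_sub, nrm_neg]
      simp
    | succ k ih =>
      have e : x (k + 1) - xst = (1 - X * ((1 / σ) • A)) *ᵥ (x k - xst) := by
        rw [hs, ← hb, ← Matrix.mulVec_sub, Matrix.sub_mulVec, Matrix.one_mulVec,
          Matrix.mul_smul, Matrix.smul_mulVec, ← Matrix.mulVec_mulVec]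
        have : A *ᵥ (x k - xst) = -(A *ᵥ (xst - x k)) := by
          rw [← Matrix.mulVec_neg, neg_sub]
        rw [this, Matrix.mulVec_neg, smul_neg]
        abel
      rw [e, pow_succ]
      refine (nrm_mulVec_le _ _).trans ?_
      have h1 := nrm_nonneg (x k - xst)
      have h2 := norm_nonneg (1 - X * ((1 / σ) • A))
      nlinarith
  refine ⟨hk k, ?_⟩
  have hxst : σ * nrm xst ≤ 2 * ‖X‖ * nrm b := by
    have e : xst = (1 - X * ((1 / σ) • A)) *ᵥ xst + (1 / σ) • (X *ᵥ b) := by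
      rw [Matrix.sub_mulVec, Matrix.one_mulVec, Matrix.mul_smul, Matrix.smul_mulVec,
        ← Matrix.mulVec_mulVec, hb]
      abel
    have h1 : nrm xst ≤ 1 / 2 * nrm xst + (1 / σ) * (‖X‖ * nrm b) := by
      calc nrm xst = nrm ((1 - X * ((1 / σ) • A)) *ᵥ xst + (1 / σ) • (X *ᵥ b)) := by rw [← e]
        _ ≤ nrm ((1 - X * ((1 / σ) • A)) *ᵥ xst) + nrm ((1 / σ) • (X *ᵥ b)) := nrm_add_le _ _
        _ ≤ 1 / 2 * nrm xst + (1 / σ) * (‖X‖ * nrm b) := by
          refine add_le_add ((nrm_mulVec_le _ _).trans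
            (mul_le_mul_of_nonneg_right hX (nrm_nonneg _))) ?_
          rw [nrm_smul, abs_of_pos (by positivity)]
          exact mul_le_mul_of_nonneg_left (nrm_mulVec_le _ _) (by positivity)
    have h2 : (1 / σ) * (‖X‖ * nrm b) = ‖X‖ * nrm b / σ := by ring
    rw [h2] at h1
    have h3 : nrm xst ≤ 2 * (‖X‖ * nrm b / σ) := by linarith
    have h4 : σ * nrm xst ≤ σ * (2 * (‖X‖ * nrm b / σ)) := mul_le_mul_of_nonneg_left h3 hσ.le
    have h5 : σ * (2 * (‖X‖ * nrm b / σ)) = 2 * ‖X‖ * nrm b := by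
      field_simp
    linarith
  have e : A *ᵥ x k - b = A *ᵥ (x k - xst) := by rw [Matrix.mulVec_sub, hb]
  rw [e]
  calc nrm (A *ᵥ (x k - xst)) ≤ ‖A‖ * nrm (x k - xst) := nrm_mulVec_le _ _
    _ ≤ (σ / 2) * ((1 / 2) ^ k * nrm xst) :=
        mul_le_mul hA (hk k) (nrm_nonneg _) (by positivity)
    _ = (1 / 2) ^ k * (1 / 2) * (σ * nrm xst) := by ring
    _ ≤ (1 / 2) ^ k * (1 / 2) * (2 * ‖X‖ * nrm b) :=
        mul_le_mul_of_nonneg_left hxst (by positivity)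
    _ = ‖X‖ * ((1 / 2) ^ k * nrm b) := by ring

/-- the iterates of the refinement -/
noncomputable def xIter {n : ℕ} (A X : Matrix (Fin n) (Fin n) ℝ) (b : Fin n → ℝ) (σ : ℝ) :
    ℕ → Fin n → ℝ
  | 0 => 0
  | k + 1 => xIter A X b σ k + (1 / σ) • (X *ᵥ (b - A *ᵥ xIter A X b σ k))

theorem loopB_spec {s : State} {n L : ℕ} {A : Matrix (Fin n) (Fin n) ℝ} {b : Fin n → ℝ}
    {a : ℕ → ℕ → ℝ} {σ τ : ℝ} {xz : ℕ → ℕ → ℤ} (h : Base n a σ s) (hσ : 0 < σ)
    (hA : ∀ i j : Fin n, a i j = A i j) (hb : ∀ i : Fin n, s.mem 1 i 0 = b i)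
    (h6 : s.mem 6 0 0 = (2 : ℝ) ^ L) (h11 : ∀ i < n, ∀ j < n, s.mem 11 i j = xz i j)
    (h3 : ∀ i : Fin n, s.mem 3 i 0 = 0) (h22 : s.mem 22 0 0 = τ) {M : ℕ} (hM : τ ≤ 2 ^ M) :
    Spec loopB s (M * (n * (n * 14 + 16) + 9) + 3) (fun s' => ∃ k : ℕ, τ ≤ 2 ^ k ∧
      ∀ i : Fin n, s'.mem 3 i 0 = xIter A (scM n (2 ^ L) xz) b σ k i) := by
  have hq0 : (0 : ℝ) < 2 ^ L := by positivity
  refine Spec.whileLt (fun k s' => s'.mem 22 0 0 = τ / 2 ^ k ∧ s'.idx 1 = 0 ∧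
    ∀ i : Fin n, s'.mem 3 i 0 = xIter A (scM n (2 ^ L) xz) b σ k i) M
    (fun _ => (1 + n * (n * 7 + 4)) + ((1 + n * (n * 7 + 12)) + 4))
    ⟨by simpa using h22, h.idx1, fun i => by rw [h3]; rfl⟩ ?_ ?_ ?_ ?_ ?_
  · intro k s' _
    exact ⟨trivial, trivial⟩
  · rintro k s1 _ ⟨i1, i2, i3⟩ hK _
    have harr : bodyB.arrs = [23, 23, 16, 16, 3, 22] := rfl
    have hreg : bodyB.regs = [2, 3, 2, 3] := rfl
    rw [harr, hreg] at hK
    have e0 : s1.idx 0 = n := by rw [hK.idx 0 (by decide)]; exact h.idx0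
    have m0 : s1.mem 0 = s.mem 0 := hK.mem 0 (by decide)
    have m1 : s1.mem 1 = s.mem 1 := hK.mem 1 (by decide)
    refine Spec.seq (c := 1 + n * (n * 7 + 4)) (c' := (1 + n * (n * 7 + 12)) + 4) ?_ le_rfl
    refine (resP_spec e0 i2).keep le_rfl ?_
    intro s2 r2 hK2
    have hK2' : Keeps [23, 23] [2, 3] s1 s2 := hK2
    have k2 : Keeps [23, 23, 16, 16, 3, 22] [2, 3, 2, 3] s s2 :=
      hK.trans (hK2'.mono (by simp) (by simp))
    have f0 : s2.idx 0 = n := by rw [k2.idx 0 (by decide)]; exact h.idx0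
    have f1 : s2.idx 1 = 0 := by rw [k2.idx 1 (by decide)]; exact h.idx1
    have f6 : s2.mem 6 0 0 = (2 : ℝ) ^ L := by rw [k2.mem 6 (by decide)]; exact h6
    have f4 : s2.mem 4 0 0 = σ := by rw [k2.mem 4 (by decide)]; exact h.mem4
    refine Spec.seq (c := 1 + n * (n * 7 + 12)) (c' := 4) ?_ le_rfl
    refine (stepP_spec f0 f1 f6 f4 hq0 hσ).keep le_rfl ?_
    intro s3 r3 hK3
    have hK3' : Keeps [16, 16, 3] [2, 3] s2 s3 := hK3
    have g1 : s3.idx 1 = 0 := by rw [hK3'.idx 1 (by decide)]; exact f1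
    have g22 : s3.mem 22 0 0 = τ / 2 ^ k := by
      rw [hK3'.mem 22 (by decide), hK2'.mem 22 (by decide)]; exact i1
    refine Spec.store ⟨trivial, trivial, by simp [Expr.val]⟩ (by simp [Expr.cost, sc]) ?_
    have ev : Expr.val s3 (.div (sc 22) (.const 2)) = τ / 2 ^ (k + 1) := by
      simp only [Expr.val, sc, g1, g22]
      rw [pow_succ]
      push_cast
      field_simp
    rw [ev, g1]
    refine ⟨by rw [State.write_mem_self], g1, fun i => ?_⟩
    rw [State.write_mem_ne _ _ _ _ (by decide), r3 i i.2]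
    have hr : ∀ j : Fin n, s2.mem 23 j 0 = (b - A *ᵥ xIter A (scM n (2 ^ L) xz) b σ k) j := by
      intro j
      rw [r2 j j.2, m1, hb, m0, Pi.sub_apply, Matrix.mulVec, dotProduct, Finset.sum_range]
      congr 1
      refine Finset.sum_congr rfl fun l _ => ?_
      rw [h.mem0 j j.2 l l.2, hA, i3]
    have h3' : s2.mem 3 i 0 = xIter A (scM n (2 ^ L) xz) b σ k i := by
      rw [hK2'.mem 3 (by decide)]
      exact i3 i
    have h11' : ∀ j : Fin n, s2.mem 11 i j = xz i j := by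
      intro j
      rw [k2.mem 11 (by decide)]
      exact h11 i i.2 j j.2
    rw [h3', Finset.sum_range, xIter, Pi.add_apply, Pi.smul_apply, Matrix.mulVec, dotProduct]
    congr 1
    have e : ∀ j : Fin n, s2.mem 11 i j * s2.mem 23 j 0 =
        2 ^ L * (scM n (2 ^ L) xz i j * (b - A *ᵥ xIter A (scM n (2 ^ L) xz) b σ k) j) := by
      intro j
      rw [h11', hr, scM, Matrix.smul_apply, toM_apply, smul_eq_mul]
      push_cast
      field_simp
    rw [Finset.sum_congr rfl fun j _ => e j, ← Finset.mul_sum, smul_eq_mul]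
    field_simp
  · rintro s' ⟨i1, i2, -⟩
    simp only [Expr.val, sc, i2, i1, Nat.cast_one, not_lt]
    rw [div_le_one (by positivity)]
    exact hM
  · rintro k s' _ ⟨i1, i2, i3⟩ _ hn'
    simp only [Expr.val, sc, i2, i1, Nat.cast_one, not_lt] at hn'
    rw [div_le_one (by positivity)] at hn'
    exact ⟨k, hn', i3⟩
  · simp only [Finset.sum_const, Finset.card_range, smul_eq_mul, Expr.cost, sc]
    have : (1 + n * (n * 7 + 4)) + ((1 + n * (n * 7 + 12)) + 4) + (1 + 1 + 1) =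
        n * (n * 14 + 16) + 9 := by ring
    rw [this]

/-- **The solver.** -/
theorem solveP_spec {n l L0 e : ℕ} (hn : 1 ≤ n) (hl : n ≤ 2 ^ l) (hl1 : 1 ≤ l) (hL0 : 1 ≤ L0)
    (A : Matrix (Fin n) (Fin n) ℝ) (b : Fin n → ℝ) {ε sA : ℝ} (hsA : 0 < sA)
    (hlow : ∀ v, sA * nrm v ≤ nrm (A *ᵥ v))
    (hq : 256 * (n : ℝ) ^ 3 * (∑ i, ∑ j, |A i j|) ^ 2 ≤ sA ^ 2 * 2 ^ L0)
    (hε : 0 < ε) (he : 1 / ε ≤ 2 ^ e) {xst : Fin n → ℝ} (hx : A *ᵥ xst = b) :
    Spec solveP (State.init n A b ε) (70000 * (n ^ 2 * ((l + L0) ^ 2 + e))) (fun s' =>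
      nrm (s'.output n - xst) ≤ ε * nrm xst ∧ nrm (A *ᵥ s'.output n - b) ≤ ε * nrm b) := by
  set s := State.init n A b ε with hs
  set a : ℕ → ℕ → ℝ := s.mem 0 with ha
  have haA : ∀ i j : Fin n, a i j = A i j := by
    intro i j
    simp [ha, hs, State.init]
  have hb1 : ∀ i : Fin n, s.mem 1 i 0 = b i := by
    intro i
    simp [hs, State.init]
  have h2 : s.mem 2 0 0 = ε := by simp [hs, State.init]
  have hi0 : s.idx 0 = n := by simp [hs, State.init]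
  have hi1 : s.idx 1 = 0 := by simp [hs, State.init]
  set S : ℝ := ∑ i, ∑ j, |A i j| with hS
  have hSa : ∑ i ∈ range n, ∑ j ∈ range n, |a i j| = S := by
    rw [hS, Finset.sum_range]
    refine Finset.sum_congr rfl fun i _ => ?_
    rw [Finset.sum_range]
    exact Finset.sum_congr rfl fun j _ => by rw [haA]
  -- the matrix is not zero
  have hAn : sA ≤ ‖A‖ := by
    have h1 := hlow (Pi.single ⟨0, hn⟩ 1)
    have h2 := nrm_mulVec_le A (Pi.single ⟨0, hn⟩ 1)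
    rw [nrm_single] at h1 h2
    linarith
  have hAS : ‖A‖ ≤ S := norm_le_sum A
  have hSpos : 0 < S := by linarith
  set σ : ℝ := 2 * S with hσdef
  have hσ : 0 < σ := by positivity
  have habs : ∀ i < n, ∀ j < n, |a i j| ≤ σ := by
    intro i hi j hj
    have h1 : |A ⟨i, hi⟩ ⟨j, hj⟩| ≤ ‖A‖ := abs_entry_le A _ _
    rw [← haA] at h1
    have h2 : |a i j| ≤ ‖A‖ := h1
    linarith
  -- the number of stages
  set m0 := Nat.clog 2 L0 with hm0
  have hm1 : L0 ≤ 2 ^ m0 := Nat.le_pow_clog (by norm_num) L0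
  have hm2 : 2 ^ m0 ≤ 2 * L0 := by
    rcases Nat.lt_or_ge 1 L0 with h1 | h1
    · have h3 := Nat.pow_pred_clog_lt_self (b := 2) (by norm_num) h1
      have h4 : 0 < Nat.clog 2 L0 := Nat.clog_pos (by norm_num) h1
      have h5 : 2 ^ m0 = 2 * 2 ^ (m0 - 1) := by
        rw [← pow_succ']
        congr 1
        omega
      rw [h5]
      have h6 : 2 ^ (m0 - 1) < L0 := h3
      omega
    · have : L0 = 1 := by omega
      rw [hm0, this]
      simp
  -- the rounded matrix for sufficiently many bits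
  have hround : ∀ L : ℕ, ∀ i j : Fin n,
      |((1 / σ) • A) i j - scM n (2 ^ L) (azf a σ L) i j| ≤ 1 / ((2 ^ L : ℤ) : ℝ) := by
    intro L i j
    have hq0 : (0 : ℝ) < 2 ^ L := by positivity
    rw [Matrix.smul_apply, smul_eq_mul, scM, Matrix.smul_apply, toM_apply, smul_eq_mul, azf, haA]
    push_cast
    have h1 := Int.floor_le ((2 : ℝ) ^ L * A i j / σ)
    have h2 := Int.lt_floor_add_one ((2 : ℝ) ^ L * A i j / σ)
    have e1 : 1 / σ * A i j - ((2 : ℝ) ^ L)⁻¹ * (⌊(2 : ℝ) ^ L * A i j / σ⌋ : ℝ) =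
        ((2 : ℝ) ^ L * A i j / σ - ⌊(2 : ℝ) ^ L * A i j / σ⌋) / 2 ^ L := by
      field_simp
    rw [e1, abs_div, abs_of_pos hq0]
    apply div_le_div_of_nonneg_right _ hq0.le
    rw [abs_le]
    constructor <;> linarith
  have hgood : certV n (2 ^ (2 ^ m0)) (azf a σ (2 ^ m0)) (xzf n a σ (2 ^ m0)) ≤ 1 / 2 := by
    set L := 2 ^ m0 with hL
    have hn1 : (1 : ℝ) ≤ n := by exact_mod_cast hn
    have hQ1 : (1 : ℝ) ≤ 2 ^ L := one_le_pow₀ (by norm_num)
    have hQ0 : (0 : ℝ) < 2 ^ L := by linarith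
    set s' : ℝ := sA / σ with hs'
    have hs'0 : 0 < s' := by positivity
    have hs'1 : s' ≤ 1 / 2 := by
      rw [hs', div_le_iff₀ hσ, hσdef]
      linarith
    have hLL : (2 : ℝ) ^ L0 ≤ 2 ^ L := pow_le_pow_right₀ (by norm_num) hm1
    -- 64 n³ ≤ s'² 2^L
    have hmain : 64 * (n : ℝ) ^ 3 ≤ s' ^ 2 * 2 ^ L := by
      have h1 : 64 * (n : ℝ) ^ 3 * σ ^ 2 ≤ sA ^ 2 * 2 ^ L := by
        calc 64 * (n : ℝ) ^ 3 * σ ^ 2 = 256 * (n : ℝ) ^ 3 * S ^ 2 := by rw [hσdef]; ring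
          _ ≤ sA ^ 2 * 2 ^ L0 := hq
          _ ≤ sA ^ 2 * 2 ^ L := mul_le_mul_of_nonneg_left hLL (by positivity)
      rw [hs', div_pow, div_mul_eq_mul_div, le_div_iff₀ (by positivity)]
      exact h1
    have hn3 : (n : ℝ) ≤ (n : ℝ) ^ 3 := le_self_pow₀ hn1 (by norm_num)
    have hδ : (n : ℝ) * (1 / 2 ^ L) ≤ s' / 2 := by
      rw [mul_one_div, div_le_iff₀ hQ0]
      have h1 : s' ^ 2 * 2 ^ L ≤ s' * 2 ^ L := by nlinarith
      nlinarith
    have hdiff : ‖scM n (2 ^ L) (azf a σ L) - (1 / σ) • A‖ ≤ s' / 2 := by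
      refine le_trans (norm_le_of_entries (e := 1 / 2 ^ L) (by positivity) fun i j => ?_) hδ
      have := hround L i j
      push_cast at this
      rw [Matrix.sub_apply, abs_sub_comm]
      exact this
    have hA'n : ‖(1 / σ) • A‖ ≤ 1 / 2 := by
      rw [norm_smul, Real.norm_of_nonneg (by positivity), one_div_mul_eq_div, div_le_iff₀ hσ]
      linarith
    have hAtn : ‖scM n (2 ^ L) (azf a σ L)‖ ≤ 1 := by
      have e1 : scM n (2 ^ L) (azf a σ L) =
          (scM n (2 ^ L) (azf a σ L) - (1 / σ) • A) + (1 / σ) • A := by abel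
      rw [e1]
      refine (norm_add_le _ _).trans ?_
      linarith
    have hlow' : ∀ v, s' / 2 * nrm v ≤ nrm (scM n (2 ^ L) (azf a σ L) *ᵥ v) := by
      intro v
      have h1 : s' * nrm v ≤ nrm (((1 / σ) • A) *ᵥ v) := by
        rw [Matrix.smul_mulVec, nrm_smul, abs_of_pos (by positivity), hs', one_div_mul_eq_div,
          div_mul_eq_mul_div]
        exact div_le_div_of_nonneg_right (hlow v) hσ.le
      have h2 : ((1 / σ) • A) *ᵥ v = scM n (2 ^ L) (azf a σ L) *ᵥ v -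
          (scM n (2 ^ L) (azf a σ L) - (1 / σ) • A) *ᵥ v := by
        rw [Matrix.sub_mulVec]
        abel
      rw [h2] at h1
      have h3 := nrm_sub_le (scM n (2 ^ L) (azf a σ L) *ᵥ v)
        ((scM n (2 ^ L) (azf a σ L) - (1 / σ) • A) *ᵥ v)
      have h4 := (nrm_mulVec_le (scM n (2 ^ L) (azf a σ L) - (1 / σ) • A) v).trans
        (mul_le_mul_of_nonneg_right hdiff (nrm_nonneg v))
      linarith
    exact cert_complete hn (by positivity) (by linarith) hAtn hlow' (by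
      have : (s' / 2) ^ 2 = s' ^ 2 / 4 := by ring
      rw [this]
      linarith)
  -- the run
  have hcost : (n * (n * 11 + 12) + 17) + (15020 * (n * n * (2 ^ m0 * (l + 2 ^ m0))) +
      ((1 + n * 3) + (8 + ((2 * l + 4 * L0 + 1 + e) * (n * (n * 14 + 16) + 9) + 3)))) ≤
      70000 * (n ^ 2 * ((l + L0) ^ 2 + e)) := by
    set N := n * n with hN
    set u := l + L0 with hu
    have hnn : n ≤ N := Nat.le_mul_of_pos_left n hn
    have hN1 : 1 ≤ N := by
      have : 0 < N := by positivity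
      omega
    have c1 : n * (n * 11 + 12) + 17 ≤ 40 * N := by
      have : n * (n * 11 + 12) = 11 * N + 12 * n := by rw [hN]; ring
      omega
    have c2 : 2 ^ m0 * (l + 2 ^ m0) ≤ 2 * L0 * (2 * u) := by
      refine Nat.mul_le_mul hm2 ?_
      omega
    have c3 : 2 * L0 * (2 * u) ≤ 4 * (u * u) := by
      have : L0 ≤ u := by omega
      have h1 : L0 * u ≤ u * u := Nat.mul_le_mul_right _ this
      have h2 : 2 * L0 * (2 * u) = 4 * (L0 * u) := by ring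
      omega
    have c4 : 15020 * (N * (2 ^ m0 * (l + 2 ^ m0))) ≤ 15020 * (N * (4 * (u * u))) :=
      Nat.mul_le_mul_left _ (Nat.mul_le_mul_left _ (c2.trans c3))
    have c5 : n * (n * 14 + 16) + 9 ≤ 39 * N := by
      have : n * (n * 14 + 16) = 14 * N + 16 * n := by rw [hN]; ring
      omega
    have c6 : 2 * l + 4 * L0 + 1 + e ≤ 5 * (u * u) + e := by
      have h2 : 2 ≤ u := by omega
      have h3 : 2 * u ≤ u * u := Nat.mul_le_mul_right _ h2
      omega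
    have c7 : (2 * l + 4 * L0 + 1 + e) * (n * (n * 14 + 16) + 9) ≤
        (5 * (u * u) + e) * (39 * N) := Nat.mul_le_mul c6 c5
    have c8 : (5 * (u * u) + e) * (39 * N) = 195 * (N * (u * u)) + 39 * (N * e) := by ring
    have c9 : 15020 * (N * (4 * (u * u))) = 60080 * (N * (u * u)) := by ring
    have c10 : 70000 * (n ^ 2 * (u ^ 2 + e)) = 70000 * (N * (u * u)) + 70000 * (N * e) := by
      rw [hN]; ring
    have c11 : N ≤ N * (u * u) := by
      refine Nat.le_mul_of_pos_right _ ?_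
      have : 0 < u := by omega
      positivity
    rw [c10]
    clear_value u
    generalize (2 * l + 4 * L0 + 1 + e) * (n * (n * 14 + 16) + 9) = W at *
    generalize 15020 * (N * (2 ^ m0 * (l + 2 ^ m0))) = W2 at *
    omega
  refine Spec.seq (c := n * (n * 11 + 12) + 17) (c' := 15020 * (n * n * (2 ^ m0 * (l + 2 ^ m0))) +
      ((1 + n * 3) + (8 + ((2 * l + 4 * L0 + 1 + e) * (n * (n * 14 + 16) + 9) + 3)))) ?_ hcost
  refine (initP_spec hi0 hi1 (a := a) (fun _ _ _ _ => rfl)).keep le_rfl ?_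
  rintro s1 ⟨r1, r2, r3⟩ hK1
  rw [hSa] at r1
  have hia : initP.arrs = [21, 21, 25, 25, 4, 4, 4, 4, 5] := rfl
  have hir : initP.regs = [2, 2, 3, 2, 2, 3, 5] := rfl
  rw [hia, hir] at hK1
  have b1 : ∀ i : Fin n, s1.mem 1 i 0 = b i := by
    intro i
    rw [hK1.mem 1 (by decide)]
    exact hb1 i
  have b2 : s1.mem 2 0 0 = ε := by rw [hK1.mem 2 (by decide)]; exact h2
  refine Spec.seq (c := 15020 * (n * n * (2 ^ m0 * (l + 2 ^ m0)))) (c' :=
    (1 + n * 3) + (8 + ((2 * l + 4 * L0 + 1 + e) * (n * (n * 14 + 16) + 9) + 3))) ?_ le_rfl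
  refine (loopA_spec r1 r2 r3 hn hσ habs hl hl1 hgood).keep le_rfl ?_
  rintro s2 ⟨L, hLm, t1, t2, t3, t4, t5⟩ hK2
  have hka : 1 ∉ loopA.arrs := by decide
  have hkb : 2 ∉ loopA.arrs := by decide
  have d1 : ∀ i : Fin n, s2.mem 1 i 0 = b i := by
    intro i
    rw [hK2.mem 1 hka]
    exact b1 i
  have d2 : s2.mem 2 0 0 = ε := by rw [hK2.mem 2 hkb]; exact b2
  refine Spec.seq (c := 1 + n * 3) (c' :=
    8 + ((2 * l + 4 * L0 + 1 + e) * (n * (n * 14 + 16) + 9) + 3)) ?_ le_rfl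
  refine (vecP_spec (body := .store 3 2 1 (.const 0)) (c := 3) (cb := 2) t1.idx0 (by decide)
    (fun _ => 0) ?_).keep le_rfl ?_
  · intro i hi s' hK h2' _
    refine Spec.store trivial (by simp [Expr.cost]) ?_
    have e1 : s'.idx 1 = 0 := by rw [hK.idx 1 (by decide)]; exact t1.idx1
    rw [h2', e1]
    refine ⟨by rw [State.write_mem_self]; simp [Expr.val], fun i' hi' => ?_⟩
    rw [State.write_mem, if_neg (by simp [hi'])]
  intro s3 r4 hK3
  have hK3' : Keeps [3] [2] s2 s3 := hK3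
  have g1 : s3.idx 1 = 0 := by rw [hK3'.idx 1 (by decide)]; exact t1.idx1
  have g2 : s3.mem 2 0 0 = ε := by rw [hK3'.mem 2 (by decide)]; exact d2
  have g6 : s3.mem 6 0 0 = (2 : ℝ) ^ L := by rw [hK3'.mem 6 (by decide)]; exact t2
  have g24 : s3.mem 24 0 0 = absSum n (xzf n a σ L) := by
    rw [hK3'.mem 24 (by decide)]; exact t5
  have hq0 : (0 : ℝ) < 2 ^ L := by positivity
  refine Spec.seq (c := 8) (c' := (2 * l + 4 * L0 + 1 + e) * (n * (n * 14 + 16) + 9) + 3) ?_ le_rfl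
  refine Spec.store ⟨⟨trivial, trivial, trivial, ?_⟩, trivial, ?_⟩ (by simp [Expr.cost, sc]) ?_
  · simp only [Expr.val, sc, g1, g6]
    positivity
  · simp only [Expr.val, g1, g2]
    exact hε.ne'
  set ξ : ℝ := absSum n (xzf n a σ L) / 2 ^ L with hξ
  have ev : Expr.val s3 (.div (.add (.const 1) (.div (sc 24) (sc 6))) (.entry 2 1 1)) =
      (1 + ξ) / ε := by
    simp only [Expr.val, sc, g1, g2, g6, g24, hξ]
    push_cast
    rfl
  rw [ev, g1]
  set s4 := s3.write 22 0 0 ((1 + ξ) / ε) with hs4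
  have k34 : Keeps [22] [] s3 s4 := keeps_write _ _ _ _ _ _ (by simp)
  have k24 : Keeps [3, 22] [2] s2 s4 :=
    (hK3'.mono (by simp) (by simp)).trans (k34.mono (by simp) (by simp))
  -- bounds for ξ
  have hξ0 : 0 ≤ ξ := by
    rw [hξ]
    refine div_nonneg ?_ hq0.le
    exact Finset.sum_nonneg fun _ _ => Finset.sum_nonneg fun _ _ => abs_nonneg _
  have hXξ : ‖scM n (2 ^ L) (xzf n a σ L)‖ ≤ ξ := by
    refine (norm_le_sum _).trans (le_of_eq ?_)
    rw [hξ, absSum_eq, Finset.sum_div]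
    refine Finset.sum_congr rfl fun i _ => ?_
    rw [Finset.sum_div]
    refine Finset.sum_congr rfl fun j _ => ?_
    rw [scM, Matrix.smul_apply, smul_eq_mul, abs_mul, abs_inv]
    push_cast
    rw [abs_of_pos hq0]
    ring
  have hξ1 : 1 + ξ ≤ 2 ^ (2 * l + 4 * L0 + 1) := by
    have hx3 := xzf_abs_le hσ L habs
    have h1 : absSum n (xzf n a σ L) ≤ (n : ℝ) ^ 2 * (2 ^ L) ^ 3 := by
      unfold absSum
      calc ∑ i ∈ range n, ∑ j ∈ range n, |(xzf n a σ L i j : ℝ)| ≤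
          ∑ _i ∈ range n, ∑ _j ∈ range n, ((2 : ℝ) ^ L) ^ 3 := by
            refine Finset.sum_le_sum fun i hi => Finset.sum_le_sum fun j hj => ?_
            have := hx3 i (Finset.mem_range.1 hi) j (Finset.mem_range.1 hj)
            exact_mod_cast this
        _ = (n : ℝ) ^ 2 * (2 ^ L) ^ 3 := by simp; ring
    have h2 : ξ ≤ (n : ℝ) ^ 2 * (2 ^ L) ^ 2 := by
      rw [hξ, div_le_iff₀ hq0]
      refine h1.trans (le_of_eq ?_)
      ring
    have h3 : (n : ℝ) ≤ 2 ^ l := by exact_mod_cast hl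
    have h4 : (n : ℝ) ^ 2 * (2 ^ L) ^ 2 ≤ (2 ^ l) ^ 2 * (2 ^ (2 * L0)) ^ 2 := by
      have h5 : (2 : ℝ) ^ L ≤ 2 ^ (2 * L0) :=
        pow_le_pow_right₀ (by norm_num) (by omega)
      gcongr
    have h6 : (2 : ℝ) ^ (2 * l + 4 * L0 + 1) = 2 * ((2 ^ l) ^ 2 * (2 ^ (2 * L0)) ^ 2) := by
      rw [← pow_mul, ← pow_mul, pow_succ, pow_add]
      ring_nf
    have h7 : (1 : ℝ) ≤ (2 ^ l) ^ 2 * (2 ^ (2 * L0)) ^ 2 := by
      have h8 : (1 : ℝ) ≤ (2 ^ l) ^ 2 := one_le_pow₀ (one_le_pow₀ (by norm_num))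
      have h9 : (1 : ℝ) ≤ (2 ^ (2 * L0)) ^ 2 := one_le_pow₀ (one_le_pow₀ (by norm_num))
      nlinarith
    rw [h6]
    linarith
  have hτ : (1 + ξ) / ε ≤ 2 ^ (2 * l + 4 * L0 + 1 + e) := by
    rw [pow_add, div_eq_mul_one_div]
    exact mul_le_mul hξ1 he (by positivity) (by positivity)
  have hb4 : Base n a σ s4 := t1.keeps k24 (by decide) (by decide)
  refine (loopB_spec (A := A) (b := b) (xz := xzf n a σ L) hb4 hσ haA
    (by intro i; rw [k24.mem 1 (by decide)]; exact d1 i)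
    (by rw [k24.mem 6 (by decide)]; exact t2)
    (by rw [k24.mem 11 (by decide)]; exact t3)
    (by intro i; rw [k34.mem 3 (by decide)]; exact r4 i i.2)
    (by rw [hs4, State.write_mem_self]) hτ).mono le_rfl ?_
  rintro s5 ⟨k, hk, hout⟩
  have hout' : s5.output n = xIter A (scM n (2 ^ L) (xzf n a σ L)) b σ k := by
    funext i
    exact hout i
  have hcert : ‖1 - scM n (2 ^ L) (xzf n a σ L) * ((1 / σ) • A)‖ ≤ 1 / 2 :=
    (cert_sound (one_le_pow₀ (by norm_num)) _ _ (hround L)).trans t4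
  obtain ⟨e1, e2⟩ := refine_math hσ (by rw [hσdef]; linarith) hcert hx
    (xIter A (scM n (2 ^ L) (xzf n a σ L)) b σ) rfl (fun _ => rfl) k
  rw [hout']
  have hk2 : ((1 : ℝ) / 2) ^ k * (1 + ξ) ≤ ε := by
    rw [div_le_iff₀ hε] at hk
    rw [_root_.one_div_pow, one_div_mul_eq_div, div_le_iff₀ (by positivity)]
    linarith
  have hp : (0 : ℝ) ≤ (1 / 2) ^ k := by positivity
  constructor
  · refine e1.trans (mul_le_mul_of_nonneg_right ?_ (nrm_nonneg _))
    nlinarith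
  · refine e2.trans ?_
    have h1 := nrm_nonneg b
    have h2 : ‖scM n (2 ^ L) (xzf n a σ L)‖ * ((1 / 2) ^ k * nrm b) ≤
        ξ * ((1 / 2) ^ k * nrm b) := mul_le_mul_of_nonneg_right hXξ (by positivity)
    have h3 : ξ * ((1 / 2) ^ k * nrm b) ≤ ((1 / 2) ^ k * (1 + ξ)) * nrm b := by nlinarith
    exact h2.trans (h3.trans (mul_le_mul_of_nonneg_right hk2 h1))

end Pool.Agent.Y541
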