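import Pool.Agent.Y541.Ram

/-!
# Verification rules for programs of the real random access machine
-/

set_option autoImplicit false

namespace Pool.Agent.Y541

/-- started in `s`, the program `p` halts after at most `c` steps in a state with the property `Q` -/
def Spec (p : Program) (s : State) (c : ℕ) (Q : State → Prop) : Prop :=
  ∃ t s', Run p s t s' ∧ t ≤ c ∧ Q s'

/-- the arrays to which a program writes -/
def Program.arrs : Program → List ℕ
  | .setIdx _ _ => []
  | .addIdx _ _ _ => []
  | .store a _ _ _ => [a]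
  | .seq p q => p.arrs ++ q.arrs
  | .ite _ _ p q => p.arrs ++ q.arrs
  | .whileLt _ _ p => p.arrs
  | .loop _ _ p => p.arrs

/-- the index registers to which a program writes -/
def Program.regs : Program → List ℕ
  | .setIdx x _ => [x]
  | .addIdx x _ _ => [x]
  | .store _ _ _ _ => []
  | .seq p q => p.regs ++ q.regs
  | .ite _ _ p q => p.regs ++ q.regs
  | .whileLt _ _ p => p.regs
  | .loop x _ p => x :: p.regs

/-- the states agree outside the arrays in `A` and the index registers in `R` -/
structure Keeps (A R : List ℕ) (s s' : State) : Prop where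
  mem : ∀ a, a ∉ A → s'.mem a = s.mem a
  idx : ∀ x, x ∉ R → s'.idx x = s.idx x

theorem Keeps.refl (A R : List ℕ) (s : State) : Keeps A R s s := ⟨fun _ _ => rfl, fun _ _ => rfl⟩

theorem Keeps.trans {A R : List ℕ} {s s' s'' : State} (h : Keeps A R s s') (h' : Keeps A R s' s'') :
    Keeps A R s s'' :=
  ⟨fun a ha => (h'.mem a ha).trans (h.mem a ha), fun x hx => (h'.idx x hx).trans (h.idx x hx)⟩

theorem Keeps.mono {A R A' R' : List ℕ} {s s' : State} (h : Keeps A R s s') (hA : A ⊆ A')
    (hR : R ⊆ R') : Keeps A' R' s s' :=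
  ⟨fun a ha => h.mem a (fun hh => ha (hA hh)), fun x hx => h.idx x (fun hh => hx (hR hh))⟩

theorem State.setIdx_idx_self (s : State) (x c : ℕ) : (s.setIdx x c).idx x = c := by
  simp [State.setIdx]

theorem State.setIdx_idx_ne (s : State) {x y : ℕ} (c : ℕ) (h : y ≠ x) :
    (s.setIdx x c).idx y = s.idx y := by
  simp [State.setIdx, h]

@[simp] theorem State.setIdx_mem (s : State) (x c : ℕ) : (s.setIdx x c).mem = s.mem := rfl

@[simp] theorem State.write_idx (s : State) (a i j : ℕ) (v : ℝ) : (s.write a i j v).idx = s.idx :=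
  rfl

theorem State.write_mem_ne (s : State) {a b : ℕ} (i j : ℕ) (v : ℝ) (h : b ≠ a) :
    (s.write a i j v).mem b = s.mem b := by
  funext i' j'
  simp [State.write, h]

theorem State.write_mem (s : State) (a i j : ℕ) (v : ℝ) (i' j' : ℕ) :
    (s.write a i j v).mem a i' j' = if i' = i ∧ j' = j then v else s.mem a i' j' := by
  simp [State.write]

@[simp] theorem State.write_mem_self (s : State) (a i j : ℕ) (v : ℝ) :
    (s.write a i j v).mem a i j = v := by
  simp [State.write]

theorem keeps_setIdx (s : State) (x c : ℕ) (A : List ℕ) {R : List ℕ} (h : x ∈ R) :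
    Keeps A R s (s.setIdx x c) :=
  ⟨fun _ _ => rfl, fun y hy => s.setIdx_idx_ne c (by rintro rfl; exact hy h)⟩

theorem keeps_write (s : State) (a i j : ℕ) (v : ℝ) {A : List ℕ} (R : List ℕ) (h : a ∈ A) :
    Keeps A R s (s.write a i j v) :=
  ⟨fun b hb => s.write_mem_ne i j v (by rintro rfl; exact hb h), fun _ _ => rfl⟩

theorem Run.keeps {p : Program} {s s' : State} {t : ℕ} (h : Run p s t s') :
    Keeps p.arrs p.regs s s' := by
  induction h with
  | setIdx x c s => exact keeps_setIdx s x c _ (by simp [Program.regs])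
  | addIdx x y z s => exact keeps_setIdx s x _ _ (by simp [Program.regs])
  | store a i j e s h => exact keeps_write s a _ _ _ _ (by simp [Program.arrs])
  | seq p q s s' s'' t t' _ _ ih1 ih2 =>
    exact (ih1.mono (List.subset_append_left _ _) (List.subset_append_left _ _)).trans
      (ih2.mono (List.subset_append_right _ _) (List.subset_append_right _ _))
  | iteTrue e f p q s s' t _ _ _ _ ih =>
    exact ih.mono (List.subset_append_left _ _) (List.subset_append_left _ _)
  | iteFalse e f p q s s' t _ _ _ _ ih =>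
    exact ih.mono (List.subset_append_right _ _) (List.subset_append_right _ _)
  | whileTrue e f p s s' s'' t t' _ _ _ _ _ ih1 ih2 => exact ih1.trans ih2
  | whileFalse e f p s _ _ _ => exact Keeps.refl _ _ _
  | loop x y p σ t h ih =>
    have key : ∀ m ≤ (σ 0).idx y, Keeps (Program.loop x y p).arrs (Program.loop x y p).regs
        (σ 0) (σ m) := by
      intro m
      induction m with
      | zero => exact fun _ => Keeps.refl _ _ _
      | succ m ihm =>
        intro hm
        refine (ihm (by omega)).trans (Keeps.trans ?_ ((ih m (by omega)).mono (fun _ h => h)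
          (fun _ h => List.mem_cons_of_mem _ h)))
        exact keeps_setIdx _ _ _ _ (by simp [Program.regs])
    exact key _ le_rfl

/-- the run of a program is unique -/
theorem Run.unique {p : Program} {s s₁ : State} {t₁ : ℕ} (h₁ : Run p s t₁ s₁) :
    ∀ {t₂ : ℕ} {s₂ : State}, Run p s t₂ s₂ → t₁ = t₂ ∧ s₁ = s₂ := by
  induction h₁ with
  | setIdx x c s => intro t₂ s₂ h; cases h; exact ⟨rfl, rfl⟩
  | addIdx x y z s => intro t₂ s₂ h; cases h; exact ⟨rfl, rfl⟩
  | store a i j e s _ => intro t₂ s₂ h; cases h; exact ⟨rfl, rfl⟩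
  | seq p q s s' s'' t t' _ _ ih1 ih2 =>
    intro t₂ s₂ h
    cases h with
    | seq _ _ _ u _ a b h1 h2 =>
      obtain ⟨rfl, rfl⟩ := ih1 h1
      obtain ⟨rfl, rfl⟩ := ih2 h2
      exact ⟨rfl, rfl⟩
  | iteTrue e f p q s s' t _ _ hlt _ ih =>
    intro t₂ s₂ h
    cases h with
    | iteTrue _ _ _ _ _ _ a _ _ _ hp => obtain ⟨rfl, rfl⟩ := ih hp; exact ⟨rfl, rfl⟩
    | iteFalse _ _ _ _ _ _ a _ _ hn _ => exact absurd hlt hn
  | iteFalse e f p q s s' t _ _ hlt _ ih =>
    intro t₂ s₂ h
    cases h with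
    | iteTrue _ _ _ _ _ _ a _ _ hn _ => exact absurd hn hlt
    | iteFalse _ _ _ _ _ _ a _ _ _ hp => obtain ⟨rfl, rfl⟩ := ih hp; exact ⟨rfl, rfl⟩
  | whileTrue e f p s s' s'' t t' _ _ hlt _ _ ih1 ih2 =>
    intro t₂ s₂ h
    cases h with
    | whileTrue _ _ _ _ u _ a b _ _ _ h1 h2 =>
      obtain ⟨rfl, rfl⟩ := ih1 h1
      obtain ⟨rfl, rfl⟩ := ih2 h2
      exact ⟨rfl, rfl⟩
    | whileFalse _ _ _ _ _ _ hn => exact absurd hlt hn
  | whileFalse e f p s _ _ hlt =>
    intro t₂ s₂ h
    cases h with
    | whileTrue _ _ _ _ u _ a b _ _ hn h1 h2 => exact absurd hn hlt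
    | whileFalse _ _ _ _ _ _ _ => exact ⟨rfl, rfl⟩
  | loop x y p σ t h ih =>
    intro t₂ s₂ h2
    generalize hs : σ 0 = s₀ at h2
    cases h2 with
    | loop _ _ _ σ' t' h' =>
      have key : ∀ m ≤ (σ 0).idx y, σ m = σ' m ∧ ∀ k < m, t k = t' k := by
        intro m
        induction m with
        | zero => exact fun _ => ⟨hs, fun k hk => absurd hk (Nat.not_lt_zero k)⟩
        | succ m ihm =>
          intro hm
          obtain ⟨h1, h3⟩ := ihm (by omega)
          have h4 := h' m (by rw [← hs]; omega)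
          rw [← h1] at h4
          obtain ⟨h5, h6⟩ := ih m (by omega) h4
          refine ⟨h6, fun k hk => ?_⟩
          rcases Nat.lt_succ_iff_lt_or_eq.1 hk with hk | rfl
          · exact h3 k hk
          · exact h5
      obtain ⟨h1, h3⟩ := key _ le_rfl
      refine ⟨?_, ?_⟩
      · rw [← hs]
        congr 1
        refine Finset.sum_congr rfl fun k hk => ?_
        rw [h3 k (Finset.mem_range.1 hk)]
      · rw [← hs]
        exact h1

theorem Spec.mono {p : Program} {s : State} {c c' : ℕ} {Q Q' : State → Prop} (h : Spec p s c Q)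
    (hc : c ≤ c') (hQ : ∀ s', Q s' → Q' s') : Spec p s c' Q' := by
  obtain ⟨t, s', h1, h2, h3⟩ := h
  exact ⟨t, s', h1, h2.trans hc, hQ s' h3⟩

/-- the rule of consequence together with the frame rule -/
theorem Spec.keep {p : Program} {s : State} {c c' : ℕ} {Q Q' : State → Prop} (h : Spec p s c Q)
    (hc : c ≤ c') (hQ : ∀ s', Q s' → Keeps p.arrs p.regs s s' → Q' s') : Spec p s c' Q' := by
  obtain ⟨t, s', h1, h2, h3⟩ := h
  exact ⟨t, s', h1, h2.trans hc, hQ s' h3 h1.keeps⟩

theorem Spec.setIdx {x c : ℕ} {s : State} {n : ℕ} {Q : State → Prop} (hc : 1 ≤ n)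
    (h : Q (s.setIdx x c)) : Spec (.setIdx x c) s n Q :=
  ⟨1, _, Run.setIdx x c s, hc, h⟩

theorem Spec.addIdx {x y z : ℕ} {s : State} {n : ℕ} {Q : State → Prop} (hc : 1 ≤ n)
    (h : Q (s.setIdx x (s.idx y + s.idx z))) : Spec (.addIdx x y z) s n Q :=
  ⟨1, _, Run.addIdx x y z s, hc, h⟩

theorem Spec.store {a i j : ℕ} {e : Expr} {s : State} {n : ℕ} {Q : State → Prop}
    (he : e.Defined s) (hc : e.cost + 1 ≤ n)
    (h : Q (s.write a (s.idx i) (s.idx j) (e.val s))) : Spec (.store a i j e) s n Q :=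
  ⟨_, _, Run.store a i j e s he, hc, h⟩

theorem Spec.seq {p q : Program} {s : State} {c c' n : ℕ} {Q : State → Prop}
    (h : Spec p s c (fun s' => Spec q s' c' Q)) (hn : c + c' ≤ n) : Spec (.seq p q) s n Q := by
  obtain ⟨t, s', h1, h2, t', s'', h3, h4, h5⟩ := h
  exact ⟨t + t', s'', Run.seq _ _ _ _ _ _ _ h1 h3, by omega, h5⟩

theorem Spec.ite {e f : Expr} {p q : Program} {s : State} {c n : ℕ} {Q : State → Prop}
    (he : e.Defined s) (hf : f.Defined s) (hp : e.val s < f.val s → Spec p s c Q)
    (hq : ¬ e.val s < f.val s → Spec q s c Q) (hn : e.cost + f.cost + 1 + c ≤ n) :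
    Spec (.ite e f p q) s n Q := by
  by_cases h : e.val s < f.val s
  · obtain ⟨t, s', h1, h2, h3⟩ := hp h
    exact ⟨_, s', Run.iteTrue e f p q s s' t he hf h h1, by omega, h3⟩
  · obtain ⟨t, s', h1, h2, h3⟩ := hq h
    exact ⟨_, s', Run.iteFalse e f p q s s' t he hf h h1, by omega, h3⟩

/-- the rule for `loop` -/
theorem Spec.loop {x y : ℕ} {p : Program} {s : State} {N c n : ℕ} {Q : State → Prop}
    (I : ℕ → State → Prop) (hN : s.idx y = N) (h0 : I 0 s)
    (hstep : ∀ m < N, ∀ s', I m s' → Keeps p.arrs (x :: p.regs) s s' →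
      Spec p (s'.setIdx x m) c (I (m + 1)))
    (hQ : ∀ s', I N s' → Keeps p.arrs (x :: p.regs) s s' → Q s') (hc : 1 + N * (c + 1) ≤ n) :
    Spec (.loop x y p) s n Q := by
  have key : ∀ M ≤ N, ∃ (σ : ℕ → State) (t : ℕ → ℕ), σ 0 = s ∧
      (∀ m < M, Run p ((σ m).setIdx x m) (t m) (σ (m + 1))) ∧ (∀ m < M, t m ≤ c) ∧
      I M (σ M) ∧ Keeps p.arrs (x :: p.regs) s (σ M) := by
    intro M
    induction M with
    | zero =>
      intro _
      exact ⟨fun _ => s, fun _ => 0, rfl, by simp, by simp, h0, Keeps.refl _ _ _⟩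
    | succ M ih =>
      intro hM
      obtain ⟨σ, t, h1, h2, h3, h4, h5⟩ := ih (by omega)
      obtain ⟨u, s', h6, h7, h8⟩ := hstep M (by omega) _ h4 h5
      refine ⟨fun m => if m ≤ M then σ m else s', fun m => if m < M then t m else u, ?_, ?_, ?_,
        ?_, ?_⟩
      · simp [h1]
      · intro m hm
        rcases Nat.lt_succ_iff_lt_or_eq.1 hm with hm' | rfl
        · have e1 : m ≤ M := by omega
          have e2 : m + 1 ≤ M := by omega
          simp only [e1, e2, hm', if_true]
          exact h2 m hm'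
        · simp only [le_refl, if_true, lt_irrefl, if_false, Nat.not_succ_le_self]
          exact h6
      · intro m hm
        dsimp only
        split_ifs with h
        · exact h3 m h
        · exact h7
      · have e : ¬ M + 1 ≤ M := by omega
        simp only [e, if_false]
        exact h8
      · have e : ¬ M + 1 ≤ M := by omega
        simp only [e, if_false]
        refine h5.trans ((keeps_setIdx _ x M _ (by simp)).trans (h6.keeps.mono (fun _ h => h)
          (fun _ h => List.mem_cons_of_mem _ h)))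
  obtain ⟨σ, t, h1, h2, h3, h4, h5⟩ := key N le_rfl
  have hN' : (σ 0).idx y = N := by rw [h1, hN]
  have hrun := Run.loop x y p σ t (by rw [hN']; exact h2)
  rw [hN', h1] at hrun
  refine ⟨_, _, hrun, ?_, hQ _ h4 h5⟩
  refine le_trans (Nat.add_le_add_left ?_ 1) hc
  calc ∑ m ∈ Finset.range N, (t m + 1) ≤ ∑ _m ∈ Finset.range N, (c + 1) :=
        Finset.sum_le_sum fun m hm => Nat.add_le_add_right (h3 m (Finset.mem_range.1 hm)) 1
    _ = N * (c + 1) := by simp

/-- the rule for `whileLt` -/
theorem Spec.whileLt {e f : Expr} {p : Program} {s : State} {n : ℕ} {Q : State → Prop}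
    (I : ℕ → State → Prop) (M : ℕ) (c : ℕ → ℕ) (h0 : I 0 s)
    (hd : ∀ m s', I m s' → e.Defined s' ∧ f.Defined s')
    (hstep : ∀ m s', m < M → I m s' → Keeps p.arrs p.regs s s' → e.val s' < f.val s' →
      Spec p s' (c m) (I (m + 1)))
    (hM : ∀ s', I M s' → ¬ e.val s' < f.val s')
    (hQ : ∀ m s', m ≤ M → I m s' → Keeps p.arrs p.regs s s' → ¬ e.val s' < f.val s' → Q s')
    (hc : ∑ m ∈ Finset.range M, (c m + (e.cost + f.cost + 1)) + (e.cost + f.cost + 1) ≤ n) :
    Spec (.whileLt e f p) s n Q := by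
  have key : ∀ k m : ℕ, m + k = M → ∀ s', I m s' → Keeps p.arrs p.regs s s' →
      Spec (.whileLt e f p) s' (∑ i ∈ Finset.range k, (c (m + i) + (e.cost + f.cost + 1)) +
        (e.cost + f.cost + 1)) Q := by
    intro k
    induction k with
    | zero =>
      intro m hm s' hI hK
      have hm' : m = M := by omega
      subst hm'
      have h1 := hM s' hI
      obtain ⟨d1, d2⟩ := hd _ _ hI
      exact ⟨_, s', Run.whileFalse e f p s' d1 d2 h1, by simp, hQ m s' le_rfl hI hK h1⟩
    | succ k ih =>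
      intro m hm s' hI hK
      obtain ⟨d1, d2⟩ := hd _ _ hI
      by_cases h1 : e.val s' < f.val s'
      · obtain ⟨t, s'', h2, h3, h4⟩ := hstep m s' (by omega) hI hK h1
        obtain ⟨t', s''', h5, h6, h7⟩ := ih (m + 1) (by omega) s'' h4 (hK.trans h2.keeps)
        refine ⟨_, s''', Run.whileTrue e f p s' s'' s''' t t' d1 d2 h1 h2 h5, ?_, h7⟩
        rw [Finset.sum_range_succ']
        have h8 : ∑ i ∈ Finset.range k, (c (m + (i + 1)) + (e.cost + f.cost + 1)) =
            ∑ i ∈ Finset.range k, (c (m + 1 + i) + (e.cost + f.cost + 1)) :=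
          Finset.sum_congr rfl fun i _ => by rw [show m + (i + 1) = m + 1 + i by omega]
        rw [h8, add_zero]
        omega
      · refine ⟨_, s', Run.whileFalse e f p s' d1 d2 h1, by omega, hQ m s' (by omega) hI hK h1⟩
  refine (key M 0 (by omega) s h0 (Keeps.refl _ _ _)).mono ?_ (fun _ h => h)
  simpa using hc

/-- a sequence of programs -/
def seqs : Program → List Program → Program
  | p, [] => p
  | p, q :: l => .seq p (seqs q l)

end Pool.Agent.Y541
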