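import Pool.Agent.Y541.Maps

/-!
# One stage: Newton iteration with a given number of bits
-/

set_option autoImplicit false

namespace Pool.Agent.Y541

open Finset

/-- the constants of the whole computation -/
structure Base (n : ℕ) (a : ℕ → ℕ → ℝ) (σ : ℝ) (s : State) : Prop where
  idx0 : s.idx 0 = n
  idx1 : s.idx 1 = 0
  mem0 : ∀ i < n, ∀ j < n, s.mem 0 i j = a i j
  mem4 : s.mem 4 0 0 = σ
  mem21 : s.mem 21 0 0 = n
  mem25 : ∀ i < n, ∀ j < n, s.mem 25 i j = if i = j then 1 else 0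

theorem Base.keeps {n : ℕ} {a : ℕ → ℕ → ℝ} {σ : ℝ} {s s' : State} {A R : List ℕ}
    (h : Base n a σ s) (hk : Keeps A R s s') (hA : ∀ x ∈ [0, 4, 21, 25], x ∉ A)
    (hR : ∀ x ∈ [0, 1], x ∉ R) : Base n a σ s' :=
  ⟨by rw [hk.idx 0 (hR 0 (by simp))]; exact h.idx0, by rw [hk.idx 1 (hR 1 (by simp))]; exact h.idx1,
    by rw [hk.mem 0 (hA 0 (by simp))]; exact h.mem0, by rw [hk.mem 4 (hA 4 (by simp))]; exact h.mem4,
    by rw [hk.mem 21 (hA 21 (by simp))]; exact h.mem21,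
    by rw [hk.mem 25 (hA 25 (by simp))]; exact h.mem25⟩

theorem Ctx.keeps' {n : ℕ} {H : ℤ} {s s' : State} {A R : List ℕ} (h : Ctx n H s)
    (hk : Keeps A R s s') (hA : ∀ x ∈ [7, 8, 9, 15], x ∉ A) (hR : ∀ x ∈ [0, 1], x ∉ R) :
    Ctx n H s' :=
  h.keeps hk (hA 7 (by simp)) (hA 8 (by simp)) (hA 9 (by simp)) (hA 15 (by simp))
    (hR 0 (by simp)) (hR 1 (by simp))

/-- `q ^ 2` -/
def q2 : Expr := .mul (sc 6) (sc 6)
/-- `q ^ 3` -/
def q3 : Expr := .mul q2 (sc 6)
/-- `q ^ 7` -/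
def q7 : Expr := .mul (.mul q2 q2) q3

theorem q2_val {s : State} (hz : s.idx 1 = 0) {q : ℝ} (h : s.mem 6 0 0 = q) : q2.val s = q ^ 2 := by
  simp only [q2, Expr.val, sc, hz, h]
  ring

theorem q3_val {s : State} (hz : s.idx 1 = 0) {q : ℝ} (h : s.mem 6 0 0 = q) : q3.val s = q ^ 3 := by
  simp only [q3, q2, Expr.val, sc, hz, h]
  ring

theorem q7_val {s : State} (hz : s.idx 1 = 0) {q : ℝ} (h : s.mem 6 0 0 = q) : q7.val s = q ^ 7 := by
  simp only [q7, q3, q2, Expr.val, sc, hz, h]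
  ring

theorem q2_def (s : State) : q2.Defined s := ⟨trivial, trivial⟩
theorem q3_def (s : State) : q3.Defined s := ⟨q2_def s, trivial⟩
theorem q7_def (s : State) : q7.Defined s := ⟨⟨q2_def s, q2_def s⟩, q3_def s⟩

/-- the scalar `6` becomes `2 ^ L`, `L` in the index register `5` -/
def powP : Program := .seq (put 6 (.const 1)) (.loop 6 5 (put 6 (.add (sc 6) (sc 6))))

theorem powP_spec {s : State} {L : ℕ} (hz : s.idx 1 = 0) (hL : s.idx 5 = L) :
    Spec powP s (5 * L + 3) (fun s' => s'.mem 6 0 0 = (2 : ℝ) ^ L) := by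
  refine Spec.seq (c := 2) (c' := 1 + L * 5) ?_ (by omega)
  refine Spec.store trivial (by simp [Expr.cost]) ?_
  rw [hz]
  set s1 := s.write 6 0 0 (Expr.val s (.const 1)) with hs1
  refine Spec.loop (N := L) (c := 4) (fun m s' => s'.mem 6 0 0 = (2 : ℝ) ^ m) hL ?_ ?_
    (fun s' hI _ => hI) le_rfl
  · rw [hs1, State.write_mem_self]
    simp [Expr.val]
  · intro m _ s2 hI hK
    have e1 : (s2.setIdx 6 m).idx 1 = 0 := by
      rw [State.setIdx_idx_ne _ _ (by decide), hK.idx 1 (by decide)]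
      exact hz
    refine Spec.store ⟨trivial, trivial⟩ (by simp [Expr.cost, sc]) ?_
    rw [e1, State.write_mem_self]
    simp only [Expr.val, sc, e1, State.setIdx_mem, hI]
    ring

/-- the offset, the base, and its powers -/
def ctxP : Program :=
  seqs (put 7 (.mul (.mul (.const 4) (.mul (sc 21) (sc 21))) q7))
    [put 8 (.add (sc 7) (sc 7)), put 9 (.const 1), put 15 (.const 0),
      .loop 3 0 (.seq (put 9 (.mul (sc 9) (sc 8))) (put 15 (.add (.mul (sc 15) (sc 8)) (sc 7))))]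

/-- the offset of the digits -/
def offH (n : ℕ) (q : ℤ) : ℤ := 4 * (n : ℤ) ^ 2 * q ^ 7

theorem ctxP_spec {s : State} {n : ℕ} {q : ℤ} (h0 : s.idx 0 = n) (hz : s.idx 1 = 0)
    (h21 : s.mem 21 0 0 = n) (h6 : s.mem 6 0 0 = q) (hn : 1 ≤ n) (hq : 1 ≤ q) :
    Spec ctxP s (11 * n + 29) (Ctx n (offH n q)) := by
  have hH : (1 : ℤ) ≤ offH n q := by
    have h1 : (1 : ℤ) ≤ (n : ℤ) ^ 2 := one_le_pow₀ (by exact_mod_cast hn)
    have h2 : (1 : ℤ) ≤ q ^ 7 := one_le_pow₀ hq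
    unfold offH
    nlinarith
  refine Spec.seq (c := 20) (c' := 11 * n + 9) ?_ (by omega)
  refine Spec.store ⟨⟨trivial, trivial, trivial⟩, q7_def s⟩
    (by simp [Expr.cost, sc, q7, q3, q2]) ?_
  have e7 : Expr.val s (.mul (.mul (.const 4) (.mul (sc 21) (sc 21))) q7) = (offH n q : ℝ) := by
    have := q7_val hz h6
    simp only [Expr.val, sc, hz, h21, this, offH]
    push_cast
    ring
  rw [e7, hz]
  set s1 := s.write 7 0 0 (offH n q : ℝ) with hs1
  have a7 : s1.mem 7 0 0 = offH n q := by rw [hs1, State.write_mem_self]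
  have a1 : s1.idx 1 = 0 := hz
  refine Spec.seq (c := 4) (c' := 11 * n + 5) ?_ (by omega)
  refine Spec.store ⟨trivial, trivial⟩ (by simp [Expr.cost, sc]) ?_
  have e8 : Expr.val s1 (.add (sc 7) (sc 7)) = 2 * (offH n q : ℝ) := by
    simp only [Expr.val, sc, a1, a7]
    ring
  rw [e8, a1]
  set s2 := s1.write 8 0 0 (2 * (offH n q : ℝ)) with hs2
  have b7 : s2.mem 7 0 0 = offH n q := by
    rw [hs2, State.write_mem_ne _ _ _ _ (by decide)]; exact a7
  have b8 : s2.mem 8 0 0 = 2 * offH n q := by rw [hs2, State.write_mem_self]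
  have b1 : s2.idx 1 = 0 := hz
  refine Spec.seq (c := 2) (c' := 11 * n + 3) ?_ (by omega)
  refine Spec.store trivial (by simp [Expr.cost]) ?_
  rw [b1]
  set s3 := s2.write 9 0 0 (Expr.val s2 (.const 1)) with hs3
  have c7 : s3.mem 7 0 0 = offH n q := by
    rw [hs3, State.write_mem_ne _ _ _ _ (by decide)]; exact b7
  have c8 : s3.mem 8 0 0 = 2 * offH n q := by
    rw [hs3, State.write_mem_ne _ _ _ _ (by decide)]; exact b8
  have c9 : s3.mem 9 0 0 = 1 := by rw [hs3, State.write_mem_self]; simp [Expr.val]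
  have c1 : s3.idx 1 = 0 := hz
  refine Spec.seq (c := 2) (c' := 1 + n * 11) ?_ (by omega)
  refine Spec.store trivial (by simp [Expr.cost]) ?_
  rw [c1]
  set s4 := s3.write 15 0 0 (Expr.val s3 (.const 0)) with hs4
  have d7 : s4.mem 7 0 0 = offH n q := by
    rw [hs4, State.write_mem_ne _ _ _ _ (by decide)]; exact c7
  have d8 : s4.mem 8 0 0 = 2 * offH n q := by
    rw [hs4, State.write_mem_ne _ _ _ _ (by decide)]; exact c8
  have d9 : s4.mem 9 0 0 = 1 := by
    rw [hs4, State.write_mem_ne _ _ _ _ (by decide)]; exact c9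
  have d15 : s4.mem 15 0 0 = 0 := by rw [hs4, State.write_mem_self]; simp [Expr.val]
  have d1 : s4.idx 1 = 0 := hz
  have d0 : s4.idx 0 = n := h0
  refine Spec.loop (N := n) (c := 10)
    (fun m s' => s'.mem 9 0 0 = (2 * offH n q : ℝ) ^ m ∧
      s'.mem 15 0 0 = rh (fun _ => (offH n q : ℝ)) (2 * offH n q) 0 m) d0
    ⟨by simpa using d9, by simpa [rh] using d15⟩ ?_ ?_ (by omega)
  · intro m _ s5 hI hK
    obtain ⟨i9, i15⟩ := hI
    have f1 : (s5.setIdx 3 m).idx 1 = 0 := by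
      rw [State.setIdx_idx_ne _ _ (by decide), hK.idx 1 (by decide)]
      exact d1
    have f7 : s5.mem 7 0 0 = offH n q := by rw [hK.mem 7 (by decide)]; exact d7
    have f8 : s5.mem 8 0 0 = 2 * offH n q := by rw [hK.mem 8 (by decide)]; exact d8
    refine Spec.seq (c := 4) (c' := 6) ?_ le_rfl
    refine Spec.store ⟨trivial, trivial⟩ (by simp [Expr.cost, sc]) ?_
    rw [f1]
    set s6 := (s5.setIdx 3 m).write 9 0 0 (Expr.val (s5.setIdx 3 m) (.mul (sc 9) (sc 8))) with hs6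
    have g1 : s6.idx 1 = 0 := f1
    have g9 : s6.mem 9 0 0 = (2 * offH n q : ℝ) ^ (m + 1) := by
      rw [hs6, State.write_mem_self]
      simp only [Expr.val, sc, f1, State.setIdx_mem, i9, f8]
      ring
    have g7 : s6.mem 7 0 0 = offH n q := by
      rw [hs6, State.write_mem_ne _ _ _ _ (by decide)]; exact f7
    have g8 : s6.mem 8 0 0 = 2 * offH n q := by
      rw [hs6, State.write_mem_ne _ _ _ _ (by decide)]; exact f8
    have g15 : s6.mem 15 0 0 = rh (fun _ => (offH n q : ℝ)) (2 * offH n q) 0 m := by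
      rw [hs6, State.write_mem_ne _ _ _ _ (by decide)]; exact i15
    refine Spec.store ⟨⟨trivial, trivial⟩, trivial⟩ (by simp [Expr.cost, sc]) ?_
    rw [g1]
    refine ⟨?_, ?_⟩
    · rw [State.write_mem_ne _ _ _ _ (by decide)]; exact g9
    · rw [State.write_mem_self]
      simp only [Expr.val, sc, g1, g15, g8, g7]
      rw [rh_last]
  · intro s5 hI hK
    exact ⟨by rw [hK.idx 0 (by decide)]; exact d0, by rw [hK.idx 1 (by decide)]; exact d1, hH,
      by rw [hK.mem 7 (by decide)]; exact d7, by rw [hK.mem 8 (by decide)]; exact d8, hI.1, hI.2⟩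

/-- rounding of the entries of the scaled matrix -/
def roundP : Program :=
  mapP (seqs (put 19 (.add (.div (.mul (sc 6) (.entry 0 2 3)) (sc 4)) (sc 6)))
    [floorP, .store 10 2 3 (.sub (sc 18) (sc 6))])

theorem roundP_spec {s : State} {n m : ℕ} {a : ℕ → ℕ → ℝ} {σ : ℝ} {q : ℤ} (h : Base n a σ s)
    (hσ : 0 < σ) (h6 : s.mem 6 0 0 = q) (hq : 1 ≤ q) (ha : ∀ i < n, ∀ j < n, |a i j| ≤ σ)
    (hm : 2 * (q : ℝ) + 1 ≤ 2 ^ m) :
    Spec roundP s (1 + n * (n * (25 * m + 25) + 2)) (fun s' =>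
      ∀ i < n, ∀ j < n, s'.mem 10 i j = (⌊(q : ℝ) * a i j / σ⌋ : ℤ)) := by
  have hq' : (1 : ℝ) ≤ q := by exact_mod_cast hq
  refine mapP_spec (cb := 25 * m + 24) h.idx0 (by decide) (by decide)
    (fun i j => ((⌊(q : ℝ) * a i j / σ⌋ : ℤ) : ℝ)) ?_
  intro i hi j hj s1 hK h2 h3 hc
  have hK' : Keeps [19, 20, 20, 18, 20, 18, 18, 10] [2, 3] s s1 := hK
  have hb1 : Base n a σ s1 := h.keeps hK' (by decide) (by decide)
  have a6 : s1.mem 6 0 0 = q := by rw [hK'.mem 6 (by decide)]; exact h6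
  set y : ℝ := (q : ℝ) * a i j / σ + q with hy
  have hy0 : 0 ≤ y ∧ y + 1 ≤ 2 ^ m := by
    obtain ⟨u1, u2⟩ := abs_le.1 (ha i hi j hj)
    have e1 : (q : ℝ) * a i j / σ = q * (a i j / σ) := by ring
    have e2 : -1 ≤ a i j / σ := by rw [le_div_iff₀ hσ]; linarith
    have e3 : a i j / σ ≤ 1 := by rw [div_le_iff₀ hσ]; linarith
    rw [hy, e1]
    constructor <;> nlinarith
  refine Spec.seq (c := 8) (c' := floorCost m + 4) ?_ (by unfold floorCost; omega)
  refine Spec.store ⟨⟨⟨trivial, trivial⟩, trivial, ?_⟩, trivial⟩ (by simp [Expr.cost, sc]) ?_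
  · simp only [Expr.val, sc, hb1.idx1, hb1.mem4]
    exact hσ.ne'
  have e19 : Expr.val s1 (.add (.div (.mul (sc 6) (.entry 0 2 3)) (sc 4)) (sc 6)) = y := by
    simp only [Expr.val, sc, hb1.idx1, hb1.mem4, a6, h2, h3, hb1.mem0 i hi j hj, hy]
  rw [e19, hb1.idx1]
  set s2 := s1.write 19 0 0 y with hs2
  have b19 : s2.mem 19 0 0 = y := by rw [hs2, State.write_mem_self]
  have b6 : s2.mem 6 0 0 = q := by
    rw [hs2, State.write_mem_ne _ _ _ _ (by decide)]; exact a6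
  have b1 : s2.idx 1 = 0 := hb1.idx1
  refine Spec.seq (c := floorCost m) (c' := 4) ?_ le_rfl
  refine (floorP_spec b1 b19 hy0.1 hy0.2).keep le_rfl ?_
  intro s3 h18 hK3
  have c1 : s3.idx 1 = 0 := by rw [hK3.idx 1 (by decide)]; exact b1
  have c2 : s3.idx 2 = i := by rw [hK3.idx 2 (by decide)]; exact h2
  have c3 : s3.idx 3 = j := by rw [hK3.idx 3 (by decide)]; exact h3
  have c6 : s3.mem 6 0 0 = q := by rw [hK3.mem 6 (by decide)]; exact b6
  have c10 : s3.mem 10 = s1.mem 10 := by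
    rw [hK3.mem 10 (by decide), hs2, State.write_mem_ne _ _ _ _ (by decide)]
  refine Spec.store ⟨trivial, trivial⟩ (by simp [Expr.cost, sc]) ?_
  rw [c2, c3]
  refine ⟨?_, fun i' j' hne => ?_⟩
  · rw [State.write_mem_self]
    simp only [Expr.val, sc, c1, h18, c6, hy]
    rw [Int.floor_add_intCast]
    push_cast
    ring
  · rw [State.write_mem, if_neg, c10]
    rintro ⟨rfl, rfl⟩
    exact hne rfl

/-- transposition of the rounded matrix -/
def transP : Program := mapP (.store 11 2 3 (.entry 10 3 2))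

theorem transP_spec {s : State} {n : ℕ} (h0 : s.idx 0 = n) {az : ℕ → ℕ → ℤ}
    (h10 : ∀ i < n, ∀ j < n, s.mem 10 i j = az i j) :
    Spec transP s (1 + n * (n * 3 + 2)) (fun s' =>
      ∀ i < n, ∀ j < n, s'.mem 11 i j = az j i) := by
  refine store_map_spec h0 (.entry 10 3 2) (fun i j => (az j i : ℝ)) ?_
  intro i hi j hj s' hK h2 h3 _
  refine ⟨trivial, ?_⟩
  simp only [Expr.val, h2, h3]
  rw [hK.mem 10 (by decide)]
  exact h10 j hj i hi

/-- the matrix `2 q² - X A` -/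
def pz (n : ℕ) (q : ℤ) (az xz : ℕ → ℕ → ℤ) (i j : ℕ) : ℤ :=
  2 * q ^ 2 * (if i = j then 1 else 0) - prodZ n xz az i j

/-- one step of the Newton iteration with rounding -/
noncomputable def newt (n : ℕ) (q : ℤ) (az xz : ℕ → ℕ → ℤ) (i j : ℕ) : ℤ :=
  max (-q ^ 3) (min (q ^ 3) ⌊(prodZ n (pz n q az xz) xz i j : ℝ) / (q : ℝ) ^ 2⌋)

theorem prodZ_bound {n : ℕ} {x y : ℕ → ℕ → ℤ} {M N : ℤ} (hM : 0 ≤ M)
    (hx : ∀ i < n, ∀ j < n, |x i j| ≤ M) (hy : ∀ i < n, ∀ j < n, |y i j| ≤ N) :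
    ∀ i < n, ∀ j < n, |prodZ n x y i j| ≤ n * (M * N) := by
  intro i hi j hj
  unfold prodZ
  refine (Finset.abs_sum_le_sum_abs _ _).trans ?_
  calc ∑ k ∈ range n, |x i k * y k j| ≤ ∑ _k ∈ range n, M * N := by
        refine Finset.sum_le_sum fun k hk => ?_
        have hk' := Finset.mem_range.1 hk
        rw [abs_mul]
        exact mul_le_mul (hx i hi k hk') (hy k hk' j hj) (abs_nonneg _) hM
    _ = n * (M * N) := by simp

theorem bounds {n : ℕ} {q : ℤ} (hn : 1 ≤ n) (hq : 1 ≤ q) {az xz : ℕ → ℕ → ℤ}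
    (ha : ∀ i < n, ∀ j < n, |az i j| ≤ q) (hx : ∀ i < n, ∀ j < n, |xz i j| ≤ q ^ 3) :
    (∀ i < n, ∀ j < n, |prodZ n xz az i j| < offH n q) ∧
    (∀ i < n, ∀ j < n, |prodZ n (pz n q az xz) xz i j| < offH n q) := by
  have hn' : (1 : ℤ) ≤ n := by exact_mod_cast hn
  have h1 := prodZ_bound (by positivity) hx ha
  have h2 : ∀ i < n, ∀ j < n, |pz n q az xz i j| ≤ 2 * q ^ 2 + n * (q ^ 3 * q) := by
    intro i hi j hj
    unfold pz
    refine (abs_sub _ _).trans (add_le_add ?_ (h1 i hi j hj))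
    rw [abs_mul, abs_of_nonneg (by positivity : (0 : ℤ) ≤ 2 * q ^ 2)]
    split_ifs
    · simp
    · simp
      positivity
  have h3 := prodZ_bound (by positivity) h2 hx
  have e1 : (1 : ℤ) ≤ q ^ 3 := one_le_pow₀ hq
  have e2 : (1 : ℤ) ≤ q ^ 2 := one_le_pow₀ hq
  have e4 : (n : ℤ) ≤ (n : ℤ) ^ 2 := by nlinarith
  have e5 : (0 : ℤ) < (n : ℤ) ^ 2 * q ^ 7 := by positivity
  have e6 : (n : ℤ) * (q ^ 3 * q) ≤ (n : ℤ) ^ 2 * q ^ 7 := by
    have : (q : ℤ) ^ 3 * q ≤ q ^ 7 := by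
      have : (q : ℤ) ^ 7 = q ^ 3 * q * q ^ 3 := by ring
      rw [this]
      nlinarith [show (0 : ℤ) < q ^ 3 * q by positivity]
    exact mul_le_mul e4 this (by positivity) (by positivity)
  refine ⟨fun i hi j hj => ?_, fun i hi j hj => ?_⟩
  · refine (h1 i hi j hj).trans_lt ?_
    unfold offH
    nlinarith
  · refine (h3 i hi j hj).trans_lt ?_
    unfold offH
    have e7 : (n : ℤ) * ((2 * q ^ 2 + n * (q ^ 3 * q)) * q ^ 3) =
        2 * (n * q ^ 5) + (n : ℤ) ^ 2 * q ^ 7 := by ring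
    have e8 : (n : ℤ) * q ^ 5 ≤ (n : ℤ) ^ 2 * q ^ 7 := by
      have : (q : ℤ) ^ 5 ≤ q ^ 7 := by
        have : (q : ℤ) ^ 7 = q ^ 5 * q ^ 2 := by ring
        rw [this]
        nlinarith [show (0 : ℤ) < q ^ 5 by positivity]
      exact mul_le_mul e4 this (by positivity) (by positivity)
    rw [e7]
    nlinarith

/-- the update of the approximate inverse -/
def updP : Program :=
  mapP (seqs (put 19 (.div (.add (.entry 13 2 3) (sc 7)) q2))
    [floorP, .store 11 2 3 (.sub (sc 18) (.div (sc 7) q2)),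
      .ite q3 (.entry 11 2 3) (.store 11 2 3 q3) (.store 11 2 3 (.entry 11 2 3)),
      .ite (.entry 11 2 3) (.sub (.const 0) q3) (.store 11 2 3 (.sub (.const 0) q3))
        (.store 11 2 3 (.entry 11 2 3))])

theorem updP_spec {s : State} {n m : ℕ} {q : ℤ} (h : Ctx n (offH n q) s) (hq : 1 ≤ q)
    (h6 : s.mem 6 0 0 = q) {wz : ℕ → ℕ → ℤ} (h13 : ∀ i < n, ∀ j < n, s.mem 13 i j = wz i j)
    (hw : ∀ i < n, ∀ j < n, |wz i j| < offH n q) (hm : 2 * (offH n q : ℝ) + 1 ≤ 2 ^ m) :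
    Spec updP s (1 + n * (n * (25 * m + 60) + 2)) (fun s' => ∀ i < n, ∀ j < n, s'.mem 11 i j =
      (max (-q ^ 3) (min (q ^ 3) ⌊(wz i j : ℝ) / (q : ℝ) ^ 2⌋) : ℤ)) := by
  have hq' : (1 : ℝ) ≤ q := by exact_mod_cast hq
  have hq0 : (q : ℝ) ^ 2 ≠ 0 := by positivity
  refine mapP_spec (cb := 25 * m + 59) h.idx0 (by decide) (by decide)
    (fun i j => ((max (-q ^ 3) (min (q ^ 3) ⌊(wz i j : ℝ) / (q : ℝ) ^ 2⌋) : ℤ) : ℝ)) ?_
  intro i hi j hj s1 hK h2 h3 _
  have hK' : Keeps [19, 20, 20, 18, 20, 18, 18, 11, 11, 11, 11, 11] [2, 3] s s1 := hK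
  have hc1 : Ctx n (offH n q) s1 := h.keeps' hK' (by decide) (by decide)
  have a6 : s1.mem 6 0 0 = q := by rw [hK'.mem 6 (by decide)]; exact h6
  have a13 : s1.mem 13 i j = wz i j := by rw [hK'.mem 13 (by decide)]; exact h13 i hi j hj
  have hH0 : (offH n q : ℝ) / (q : ℝ) ^ 2 = ((4 * (n : ℤ) ^ 2 * q ^ 5 : ℤ) : ℝ) := by
    rw [div_eq_iff hq0]
    unfold offH
    push_cast
    ring
  set y : ℝ := (wz i j + offH n q) / (q : ℝ) ^ 2 with hy
  have hw1 : -(offH n q : ℝ) < wz i j := by exact_mod_cast (abs_lt.1 (hw i hi j hj)).1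
  have hw2 : (wz i j : ℝ) < offH n q := by exact_mod_cast (abs_lt.1 (hw i hi j hj)).2
  have hy0 : 0 ≤ y := div_nonneg (by linarith) (by positivity)
  have hy1 : y + 1 ≤ 2 ^ m := by
    have e1 : y ≤ wz i j + offH n q := div_le_self (by linarith) (one_le_pow₀ hq')
    linarith
  have hfl : ⌊y⌋ = ⌊(wz i j : ℝ) / (q : ℝ) ^ 2⌋ + 4 * (n : ℤ) ^ 2 * q ^ 5 := by
    rw [hy, add_div, hH0, Int.floor_add_intCast]
  refine Spec.seq (c := 8) (c' := floorCost m + 39) ?_ (by unfold floorCost; omega)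
  refine Spec.store ⟨⟨trivial, trivial⟩, q2_def _, ?_⟩ (by simp [Expr.cost, sc, q2]) ?_
  · rw [q2_val hc1.idx1 a6]
    exact hq0
  have e19 : Expr.val s1 (.div (.add (.entry 13 2 3) (sc 7)) q2) = y := by
    have := q2_val hc1.idx1 a6
    simp only [Expr.val, sc, hc1.idx1, hc1.mem7, h2, h3, a13, this, hy]
  rw [e19, hc1.idx1]
  set s2 := s1.write 19 0 0 y with hs2
  have hc2 : Ctx n (offH n q) s2 := hc1.keeps' (keeps_write s1 19 0 0 _ (A := [19]) [] (by simp))
    (by decide) (by decide)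
  have b19 : s2.mem 19 0 0 = y := by rw [hs2, State.write_mem_self]
  have b6 : s2.mem 6 0 0 = q := by
    rw [hs2, State.write_mem_ne _ _ _ _ (by decide)]; exact a6
  refine Spec.seq (c := floorCost m) (c' := 39) ?_ le_rfl
  refine (floorP_spec hc2.idx1 b19 hy0 hy1).keep le_rfl ?_
  intro s3 h18 hK3
  have hc3 : Ctx n (offH n q) s3 := hc2.keeps' hK3 (by decide) (by decide)
  have c2 : s3.idx 2 = i := by rw [hK3.idx 2 (by decide)]; exact h2
  have c3 : s3.idx 3 = j := by rw [hK3.idx 3 (by decide)]; exact h3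
  have c6 : s3.mem 6 0 0 = q := by rw [hK3.mem 6 (by decide)]; exact b6
  have c11 : s3.mem 11 = s1.mem 11 := by
    rw [hK3.mem 11 (by decide), hs2, State.write_mem_ne _ _ _ _ (by decide)]
  set F : ℤ := ⌊(wz i j : ℝ) / (q : ℝ) ^ 2⌋ with hF
  refine Spec.seq (c := 8) (c' := 31) ?_ le_rfl
  refine Spec.store ⟨trivial, trivial, q2_def _, ?_⟩ (by simp [Expr.cost, sc, q2]) ?_
  · rw [q2_val hc3.idx1 c6]
    exact hq0
  have e11 : Expr.val s3 (.sub (sc 18) (.div (sc 7) q2)) = F := by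
    have := q2_val hc3.idx1 c6
    simp only [Expr.val, sc, hc3.idx1, hc3.mem7, this, h18, hfl, hH0]
    push_cast
    ring
  rw [e11, c2, c3]
  set s4 := s3.write 11 i j (F : ℝ) with hs4
  have d1 : s4.idx 1 = 0 := hc3.idx1
  have d2 : s4.idx 2 = i := c2
  have d3 : s4.idx 3 = j := c3
  have d6 : s4.mem 6 0 0 = q := by
    rw [hs4, State.write_mem_ne _ _ _ _ (by decide)]; exact c6
  have d11 : s4.mem 11 i j = F := by rw [hs4, State.write_mem_self]
  have d11' : ∀ i' j', (i', j') ≠ (i, j) → s4.mem 11 i' j' = s1.mem 11 i' j' := by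
    intro i' j' hne
    rw [hs4, State.write_mem, if_neg (by rintro ⟨rfl, rfl⟩; exact hne rfl), c11]
  refine Spec.seq (c := 14) (c' := 17) ?_ le_rfl
  -- first clamp
  have key1 : Spec (.ite q3 (.entry 11 2 3) (.store 11 2 3 q3) (.store 11 2 3 (.entry 11 2 3))) s4
      14 (fun s5 => s5.mem 11 i j = (min (q ^ 3) F : ℤ) ∧
        ∀ i' j', (i', j') ≠ (i, j) → s5.mem 11 i' j' = s1.mem 11 i' j') := by
    refine Spec.ite (c := 6) (q3_def _) trivial ?_ ?_ (by simp [Expr.cost, sc, q2, q3])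
    · intro hlt
      rw [q3_val d1 d6] at hlt
      simp only [Expr.val, d2, d3, d11] at hlt
      refine Spec.store (q3_def _) (by simp [Expr.cost, sc, q2, q3]) ?_
      rw [d2, d3, q3_val d1 d6]
      refine ⟨?_, fun i' j' hne => ?_⟩
      · rw [State.write_mem_self, min_eq_left (by exact_mod_cast hlt.le)]
        push_cast
        ring
      · rw [State.write_mem, if_neg (by rintro ⟨rfl, rfl⟩; exact hne rfl), d11' i' j' hne]
    · intro hlt
      rw [q3_val d1 d6] at hlt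
      simp only [Expr.val, d2, d3, d11, not_lt] at hlt
      refine Spec.store trivial (by simp [Expr.cost]) ?_
      rw [d2, d3]
      refine ⟨?_, fun i' j' hne => ?_⟩
      · rw [State.write_mem_self, min_eq_right (by exact_mod_cast hlt)]
        simp only [Expr.val, d2, d3, d11]
      · rw [State.write_mem, if_neg (by rintro ⟨rfl, rfl⟩; exact hne rfl), d11' i' j' hne]
  refine key1.keep le_rfl ?_
  rintro s5 ⟨g1, g2⟩ hK5
  have f1 : s5.idx 1 = 0 := by rw [hK5.idx 1 (by decide)]; exact d1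
  have f2 : s5.idx 2 = i := by rw [hK5.idx 2 (by decide)]; exact d2
  have f3 : s5.idx 3 = j := by rw [hK5.idx 3 (by decide)]; exact d3
  have f6 : s5.mem 6 0 0 = q := by rw [hK5.mem 6 (by decide)]; exact d6
  refine Spec.ite (c := 8) trivial ⟨trivial, q3_def _⟩ ?_ ?_ (by simp [Expr.cost, sc, q2, q3])
  · intro hlt
    have e5 : Expr.val s5 (.sub (.const 0) q3) = -(q : ℝ) ^ 3 := by
      have := q3_val f1 f6
      simp only [Expr.val, this]
      push_cast
      ring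
    rw [e5] at hlt
    simp only [Expr.val, f2, f3, g1] at hlt
    refine Spec.store ⟨trivial, q3_def _⟩ (by simp [Expr.cost, sc, q2, q3]) ?_
    rw [f2, f3, e5]
    refine ⟨?_, fun i' j' hne => ?_⟩
    · rw [State.write_mem_self, max_eq_left (by exact_mod_cast hlt.le)]
      push_cast
      ring
    · rw [State.write_mem, if_neg (by rintro ⟨rfl, rfl⟩; exact hne rfl), g2 i' j' hne]
  · intro hlt
    have e5 : Expr.val s5 (.sub (.const 0) q3) = -(q : ℝ) ^ 3 := by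
      have := q3_val f1 f6
      simp only [Expr.val, this]
      push_cast
      ring
    rw [e5] at hlt
    simp only [Expr.val, f2, f3, g1, not_lt] at hlt
    refine Spec.store trivial (by simp [Expr.cost]) ?_
    rw [f2, f3]
    refine ⟨?_, fun i' j' hne => ?_⟩
    · rw [State.write_mem_self, max_eq_right (by exact_mod_cast hlt)]
      simp only [Expr.val, f2, f3, g1]
    · rw [State.write_mem, if_neg (by rintro ⟨rfl, rfl⟩; exact hne rfl), g2 i' j' hne]

end Pool.Agent.Y541
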