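import Mathlib

/-!
# Matrices with independent uniform entries from a set of two numbers: counting lemmas
-/

set_option autoImplicit false

namespace Pool.Agent.Y541.Two

open Finset

/-- the two values -/
def val (u v : ℝ) (c : Bool) : ℝ := if c then v else u

/-- the inner product of the vector `w` with the random vector given by `c` -/
def S {n : ℕ} (u v : ℝ) (w : Fin n → ℝ) (c : Fin n → Bool) : ℝ := ∑ j, val u v (c j) * w j

variable {n : ℕ} {u v : ℝ}

theorem S_update (w : Fin n → ℝ) (c : Fin n → Bool) (i : Fin n) (x : Bool) :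
    S u v w (Function.update c i x) = S u v w c + (val u v x - val u v (c i)) * w i := by
  unfold S
  rw [Fintype.sum_eq_add_sum_compl i, Fintype.sum_eq_add_sum_compl i (fun j => val u v (c j) * w j)]
  rw [Function.update_self]
  have : ∑ j ∈ ({i} : Finset (Fin n))ᶜ, val u v (Function.update c i x j) * w j =
      ∑ j ∈ ({i} : Finset (Fin n))ᶜ, val u v (c j) * w j := by
    refine Finset.sum_congr rfl fun j hj => ?_
    rw [Function.update_of_ne (by simpa using hj)]
  rw [this]
  ring

/-- a vector with a large coordinate has a small inner product with at most half of the vectors -/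
theorem half {w : Fin n → ℝ} {i : Fin n} {s : ℝ} (h : 2 * s < |w i| * |v - u|) :
    2 * #{c : Fin n → Bool | |S u v w c| ≤ s} ≤ 2 ^ n := by
  classical
  set T : Finset (Fin n → Bool) := {c : Fin n → Bool | |S u v w c| ≤ s} with hT
  have h1 : #T ≤ #Tᶜ := by
    refine Finset.card_le_card_of_injOn (fun c => Function.update c i (!c i)) ?_ ?_
    · intro c hc
      have hc' : |S u v w c| ≤ s := by simpa [hT] using hc
      simp only [coe_compl, Set.mem_compl_iff, mem_coe, hT, mem_filter, mem_univ, true_and, not_le]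
      rw [S_update]
      by_contra hcon
      push Not at hcon
      have h2 : |(val u v (!c i) - val u v (c i)) * w i| ≤ 2 * s := by
        have : (val u v (!c i) - val u v (c i)) * w i =
          (S u v w c + (val u v (!c i) - val u v (c i)) * w i) - S u v w c := by ring
        rw [this]
        refine (abs_sub _ _).trans ?_
        linarith
      have h3 : |val u v (!c i) - val u v (c i)| = |v - u| := by
        unfold val
        cases c i
        · simp
        · simp [abs_sub_comm]
      rw [abs_mul, h3, mul_comm] at h2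
      linarith
    · intro c _ c' _ hcc
      funext j
      by_cases hj : j = i
      · subst hj
        have := congrFun hcc j
        simpa using this
      · have := congrFun hcc j
        simpa [Function.update_of_ne hj] using this
  have h2 : #T + #Tᶜ = 2 ^ n := by
    rw [Finset.card_add_card_compl]
    simp
  omega

/-- independent rows -/
theorem rows {T : Finset (Fin n → Bool)} (hT : 2 * #T ≤ 2 ^ n) (R : Finset (Fin n)) :
    2 ^ #R * #{X : Fin n → Fin n → Bool | ∀ i ∈ R, X i ∈ T} ≤ (2 ^ n) ^ n := by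
  classical
  have h1 : ({X : Fin n → Fin n → Bool | ∀ i ∈ R, X i ∈ T} : Finset (Fin n → Fin n → Bool)) =
      Fintype.piFinset (fun i => if i ∈ R then T else univ) := by
    ext X
    simp only [mem_filter, mem_univ, true_and, Fintype.mem_piFinset]
    refine forall_congr' fun i => ?_
    by_cases hi : i ∈ R <;> simp [hi]
  rw [h1, Fintype.card_piFinset]
  have h2 : ∀ i, #(if i ∈ R then T else univ) = if i ∈ R then #T else 2 ^ n := by
    intro i
    split_ifs
    · rfl
    · simp
  rw [Finset.prod_congr rfl fun i _ => h2 i, Finset.prod_ite, Finset.prod_const,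
    Finset.prod_const]
  have h3 : #({x ∈ univ | x ∈ R} : Finset (Fin n)) = #R := by simp
  have h4 : #({x ∈ univ | x ∉ R} : Finset (Fin n)) = n - #R := by
    have : ({x ∈ univ | x ∉ R} : Finset (Fin n)) = Rᶜ := by ext; simp
    rw [this, Finset.card_compl, Fintype.card_fin]
  rw [h3, h4, ← mul_assoc, ← mul_pow]
  have h5 : #R ≤ n := by simpa using Finset.card_le_univ R
  calc (2 * #T) ^ #R * (2 ^ n) ^ (n - #R) ≤ (2 ^ n) ^ #R * (2 ^ n) ^ (n - #R) :=
        Nat.mul_le_mul_right _ (Nat.pow_le_pow_left hT _)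
    _ = (2 ^ n) ^ n := by rw [← pow_add]; congr 1; omega

/-- the vectors of the net -/
noncomputable def net {m M : ℕ} (p : Fin m → Fin n × Fin (2 * M + 1)) (i : Fin n) : ℝ :=
  ∑ r, if (p r).1 = i then (((p r).2 : ℕ) - M : ℝ) / M else 0

/-- sparse vectors are close to the net -/
theorem exists_net {M : ℕ} (hM : 1 ≤ M) (hn : 1 ≤ n) : ∀ (m : ℕ) (w : Fin n → ℝ),
    (∀ i, |w i| ≤ 1) → #{i | 1 / (M : ℝ) ≤ |w i|} ≤ m →
    ∃ p : Fin m → Fin n × Fin (2 * M + 1), ∀ i, |net p i - w i| ≤ 1 / (M : ℝ) ∧
      (|w i| < 1 / (M : ℝ) → net p i = 0) := by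
  classical
  have hM0 : (0 : ℝ) < M := by exact_mod_cast hM
  intro m
  induction m with
  | zero =>
    intro w _ hc
    refine ⟨fun r => r.elim0, fun i => ?_⟩
    have h1 : i ∉ ({i | 1 / (M : ℝ) ≤ |w i|} : Finset (Fin n)) := by
      have := Finset.card_eq_zero.1 (Nat.le_zero.1 hc)
      rw [this]
      simp
    simp only [mem_filter, mem_univ, true_and, not_le] at h1
    simp only [net, Finset.univ_eq_empty, Finset.sum_empty, zero_sub, abs_neg]
    exact ⟨h1.le, fun _ => trivial⟩
  | succ m ih =>
    intro w hw hc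
    by_cases hK : ({i | 1 / (M : ℝ) ≤ |w i|} : Finset (Fin n)).Nonempty
    · obtain ⟨i0, hi0⟩ := hK
      have hi0' : 1 / (M : ℝ) ≤ |w i0| := by simpa using hi0
      obtain ⟨p, hp⟩ := ih (Function.update w i0 0) (fun i => by
          by_cases hi : i = i0
          · subst hi; simp
          · rw [Function.update_of_ne hi]; exact hw i) (by
          have hsub : ({i | 1 / (M : ℝ) ≤ |Function.update w i0 0 i|} : Finset (Fin n)) ⊆
              ({i | 1 / (M : ℝ) ≤ |w i|} : Finset (Fin n)).erase i0 := by
            intro i hi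
            simp only [mem_filter, mem_univ, true_and, mem_erase] at hi ⊢
            by_cases h : i = i0
            · subst h
              rw [Function.update_self, abs_zero] at hi
              have : 0 < 1 / (M : ℝ) := by positivity
              linarith
            · rw [Function.update_of_ne h] at hi
              exact ⟨h, hi⟩
          have := Finset.card_le_card hsub
          rw [Finset.card_erase_of_mem hi0] at this
          omega)
      -- the integer near to `M * w i0`
      have hz0 : (0 : ℝ) ≤ M * w i0 + M := by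
        have := (abs_le.1 (hw i0)).1
        nlinarith
      have hzf : ⌊(M : ℝ) * w i0 + M⌋₊ < 2 * M + 1 := by
        have h1 := Nat.floor_le hz0
        have h2 := (abs_le.1 (hw i0)).2
        have h3 : ((⌊(M : ℝ) * w i0 + M⌋₊ : ℕ) : ℝ) < ((2 * M + 1 : ℕ) : ℝ) := by
          push_cast
          nlinarith
        exact_mod_cast h3
      refine ⟨Fin.cons (i0, ⟨⌊(M : ℝ) * w i0 + M⌋₊, hzf⟩) p, fun i => ?_⟩
      have e1 : net (Fin.cons (i0, ⟨⌊(M : ℝ) * w i0 + M⌋₊, hzf⟩) p :
          Fin (m + 1) → Fin n × Fin (2 * M + 1)) i =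
          (if i0 = i then ((⌊(M : ℝ) * w i0 + M⌋₊ : ℝ) - M) / M else 0) + net p i := by
        unfold net
        rw [Fin.sum_univ_succ]
        simp
      rw [e1]
      by_cases hi : i0 = i
      · subst hi
        have h0 : net p i0 = 0 := (hp i0).2 (by
          rw [Function.update_self, abs_zero]
          positivity)
        rw [h0, if_pos rfl, add_zero]
        refine ⟨?_, fun h => absurd h (not_lt.2 hi0')⟩
        have h1 := Nat.floor_le hz0
        have h2 := (Nat.lt_floor_add_one ((M : ℝ) * w i0 + M)).le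
        have e2 : ((⌊(M : ℝ) * w i0 + M⌋₊ : ℝ) - M) / M - w i0 =
            ((⌊(M : ℝ) * w i0 + M⌋₊ : ℝ) - (M * w i0 + M)) / M := by
          field_simp
          ring
        rw [e2, abs_div, abs_of_pos hM0]
        refine div_le_div_of_nonneg_right ?_ hM0.le
        rw [abs_le]
        constructor <;> linarith
      · have h1 := hp i
        rw [Function.update_of_ne (Ne.symm hi)] at h1
        rw [if_neg hi, zero_add]
        exact h1
    · rw [Finset.not_nonempty_iff_eq_empty] at hK
      obtain ⟨p, hp⟩ := ih w hw (by rw [hK]; simp)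
      refine ⟨Fin.cons (⟨0, hn⟩, ⟨M, by omega⟩) p, fun i => ?_⟩
      have e1 : net (Fin.cons (⟨0, hn⟩, ⟨M, by omega⟩) p :
          Fin (m + 1) → Fin n × Fin (2 * M + 1)) i = net p i := by
        unfold net
        rw [Fin.sum_univ_succ]
        simp
      rw [e1]
      exact hp i

/-- `w` has the maximum norm `1` and at most `m` coordinates of modulus at least `1 / (8 n)` -/
def Comp (m : ℕ) (w : Fin n → ℝ) : Prop :=
  (∃ i, |w i| = 1) ∧ (∀ i, |w i| ≤ 1) ∧ #{i | 1 / ((8 * n : ℕ) : ℝ) ≤ |w i|} ≤ m

/-- a vector of the net with a large coordinate -/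
theorem S_net {w : Fin n → ℝ} {m : ℕ} (hn : 1 ≤ n) (hu : |u| ≤ 1) (hv : |v| ≤ 1)
    (hw : Comp m w) : ∃ p : Fin m → Fin n × Fin (2 * (8 * n) + 1),
      (∃ i, 7 / 8 ≤ |net p i|) ∧ ∀ c : Fin n → Bool, |S u v w c| ≤ 1 / 8 →
        |S u v (net p) c| ≤ 1 / 4 := by
  obtain ⟨⟨i0, hi0⟩, h1, h2⟩ := hw
  obtain ⟨p, hp⟩ := exists_net (by omega) hn m w h1 h2
  have hn' : (1 : ℝ) ≤ n := by exact_mod_cast hn
  have hM : 1 / ((8 * n : ℕ) : ℝ) ≤ 1 / 8 := by
    push_cast
    rw [div_le_div_iff₀ (by positivity) (by norm_num)]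
    linarith
  refine ⟨p, ⟨i0, ?_⟩, fun c hc => ?_⟩
  · have h3 := (hp i0).1
    have h4 : |w i0| ≤ |net p i0| + |net p i0 - w i0| := by
      have e : w i0 = net p i0 - (net p i0 - w i0) := by ring
      calc |w i0| = |net p i0 - (net p i0 - w i0)| := by rw [← e]
        _ ≤ |net p i0| + |net p i0 - w i0| := abs_sub _ _
    linarith
  · have h3 : S u v (net p) c = S u v w c + ∑ j, val u v (c j) * (net p j - w j) := by
      unfold S
      rw [← Finset.sum_add_distrib]
      exact Finset.sum_congr rfl fun j _ => by ring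
    have h4 : |∑ j, val u v (c j) * (net p j - w j)| ≤ 1 / 8 := by
      refine (Finset.abs_sum_le_sum_abs _ _).trans ?_
      calc ∑ j, |val u v (c j) * (net p j - w j)| ≤ ∑ _j : Fin n, 1 / ((8 * n : ℕ) : ℝ) := by
            refine Finset.sum_le_sum fun j _ => ?_
            rw [abs_mul]
            have h5 : |val u v (c j)| ≤ 1 := by
              unfold val
              split_ifs
              · exact hv
              · exact hu
            have h6 := (hp j).1
            have h7 := abs_nonneg (net p j - w j)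
            nlinarith
        _ = 1 / 8 := by
            rw [Finset.sum_const, Finset.card_univ, Fintype.card_fin, nsmul_eq_mul]
            push_cast
            field_simp
    rw [h3]
    refine (abs_add_le _ _).trans ?_
    linarith

/-- **Few matrices have a compressible vector which is almost orthogonal to the rows in `R`.** -/
theorem comp_count {m : ℕ} (hn : 1 ≤ n) (hu : |u| ≤ 1) (hv : |v| ≤ 1) (huv : 1 ≤ |v - u|)
    (R : Finset (Fin n)) (B : Finset (Fin n → Fin n → Bool))
    (hB : ∀ X ∈ B, ∃ w, Comp m w ∧ ∀ i ∈ R, |S u v w (X i)| ≤ 1 / 8) :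
    2 ^ #R * #B ≤ (n * (2 * (8 * n) + 1)) ^ m * (2 ^ n) ^ n := by
  classical
  set P : Finset (Fin m → Fin n × Fin (2 * (8 * n) + 1)) := {p | ∃ i, 7 / 8 ≤ |net p i|} with hP
  set T : (Fin m → Fin n × Fin (2 * (8 * n) + 1)) → Finset (Fin n → Bool) :=
    fun p => {c | |S u v (net p) c| ≤ 1 / 4} with hT
  have hsub : B ⊆ P.biUnion fun p => {X : Fin n → Fin n → Bool | ∀ i ∈ R, X i ∈ T p} := by
    intro X hX
    obtain ⟨w, hw, h1⟩ := hB X hX
    obtain ⟨p, hp1, hp2⟩ := S_net hn hu hv hw
    rw [mem_biUnion]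
    refine ⟨p, by simpa [hP] using hp1, ?_⟩
    simp only [mem_filter, mem_univ, true_and, hT]
    intro i hi
    exact hp2 _ (h1 i hi)
  have h1 : ∀ p ∈ P, 2 ^ #R * #{X : Fin n → Fin n → Bool | ∀ i ∈ R, X i ∈ T p} ≤
      (2 ^ n) ^ n := by
    intro p hp
    obtain ⟨i, hi⟩ : ∃ i, 7 / 8 ≤ |net p i| := by simpa [hP] using hp
    refine rows (half (i := i) (s := 1 / 4) ?_) R
    nlinarith [abs_nonneg (net p i)]
  calc 2 ^ #R * #B
      ≤ 2 ^ #R * ∑ p ∈ P, #{X : Fin n → Fin n → Bool | ∀ i ∈ R, X i ∈ T p} :=
        Nat.mul_le_mul_left _ ((Finset.card_le_card hsub).trans Finset.card_biUnion_le)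
    _ = ∑ p ∈ P, 2 ^ #R * #{X : Fin n → Fin n → Bool | ∀ i ∈ R, X i ∈ T p} := by
        rw [Finset.mul_sum]
    _ ≤ ∑ _p ∈ P, (2 ^ n) ^ n := Finset.sum_le_sum h1
    _ = #P * (2 ^ n) ^ n := by rw [Finset.sum_const, smul_eq_mul]
    _ ≤ (n * (2 * (8 * n) + 1)) ^ m * (2 ^ n) ^ n := by
        refine Nat.mul_le_mul_right _ ((Finset.card_le_univ _).trans (le_of_eq ?_))
        simp

end Pool.Agent.Y541.Two
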